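import Pool.Agent.helper11.Numer

set_option autoImplicit false

/-! The data of a prescribed set, and the empty set. -/

namespace Pool.Agent.helper11.Seq

open Finset

lemma blocks (S : Finset ℕ) (p m : ℕ) (hp : p ∈ S) (hm : m ∈ S) (i : ℕ) (h1 : p ≤ i) (h2 : i < m) :
    ∃ a ∈ S, ∃ b ∈ S, a ≤ i ∧ i < b ∧ ∀ s ∈ S, s ≤ a ∨ b ≤ s := by
  have hA : (S.filter (fun s => s ≤ i)).Nonempty := ⟨p, by rw [mem_filter]; exact ⟨hp, h1⟩⟩
  have hB : (S.filter (fun s => i < s)).Nonempty := ⟨m, by rw [mem_filter]; exact ⟨hm, h2⟩⟩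
  have h3 := max'_mem _ hA
  have h4 := min'_mem _ hB
  rw [mem_filter] at h3 h4
  refine ⟨_, h3.1, _, h4.1, h3.2, h4.2, ?_⟩
  intro s hs
  rcases Nat.lt_or_ge i s with h | h
  · right
    exact min'_le _ _ (by rw [mem_filter]; exact ⟨hs, h⟩)
  · left
    exact le_max' _ _ (by rw [mem_filter]; exact ⟨hs, h⟩)

theorem nonempty_case (S : Finset ℕ) (hS : ∀ k ∈ S, 1 ≤ k) (hne : S.Nonempty) :
    ∃ (V : Type) (_ : Fintype V) (G : SimpleGraph V), G.Connected ∧
      ∀ k, 1 ≤ k → (k ∈ S ↔ ∃ f : V → ℕ, IsSeq G k f) := by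
  set p := S.min' hne with hp
  set m := S.max' hne with hm
  have hpS : p ∈ S := min'_mem _ _
  have hmS : m ∈ S := max'_mem _ _
  have hpl : ∀ s ∈ S, p ≤ s := fun s hs => min'_le _ _ hs
  have hml : ∀ s ∈ S, s ≤ m := fun s hs => le_max' _ _ hs
  have hbl := blocks S p m hpS hmS
  choose! A hA using hbl
  have hA2 : ∀ i, p ≤ i → i < m → ∃ b ∈ S, A i ≤ i ∧ i < b ∧ ∀ s ∈ S, s ≤ A i ∨ b ≤ s :=
    fun i h1 h2 => (hA i h1 h2).2
  choose! B hB using hA2
  have hAp : ∀ i, p ≤ i → i < m → p ≤ A i := fun i h1 h2 => hpl _ (hA i h1 h2).1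
  obtain ⟨V, iV, G, hG, hseq⟩ := realise_abs p m (hS p hpS) (hml p hpS) (fun i => A i + B i - p) (by
      intro i h1 h2
      have h3 := hAp i h1 h2
      have h4 := hB i h1 h2
      have h5 := hml _ h4.1
      omega) (by
      intro i h1 h2
      have h3 := hAp i h1 h2
      have h4 := hB i h1 h2
      omega) (by
      intro i i' h1 h2 h1' h2' heq
      have h3 := hAp i h1 h2
      have h4 := hB i h1 h2
      have h3' := hAp i' h1' h2'
      have h4' := hB i' h1' h2'
      have h5 := (hA i h1 h2).1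
      have h5' := (hA i' h1' h2').1
      have k1 := h4.2.2.2 _ h5'
      have k2 := h4'.2.2.2 _ h5
      have k3 := h4.2.2.2 _ h4'.1
      have k4 := h4'.2.2.2 _ h4.1
      omega)
  refine ⟨V, iV, G, hG, fun k hk => ?_⟩
  rw [← hseq k hk]
  constructor
  · intro hkS
    refine ⟨hpl k hkS, hml k hkS, ?_⟩
    intro i h1 h2
    have h3 := hml k hkS
    have h4 := hB i h1 (by omega)
    have h5 := h4.2.2.2 k hkS
    have h6 := hAp i h1 (by omega)
    omega
  · rintro ⟨h1, h2, h3⟩
    by_contra hkS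
    have h4 : p ≠ k := fun h => hkS (h ▸ hpS)
    have h5 : m ≠ k := fun h => hkS (h ▸ hmS)
    have h6 := hB k h1 (by omega)
    have h7 := hA k h1 (by omega)
    have h8 := hAp k h1 (by omega)
    have h9 : A k ≠ k := fun h => hkS (h ▸ h7.1)
    have h10 := h3 (A k) h8 (by omega)
    have h11 := hB (A k) h8 (by omega)
    have h12 := h11.2.2.2 _ h7.1
    have h13 := h6.2.2.2 _ h11.1
    omega

theorem empty_case : ∃ (V : Type) (_ : Fintype V) (G : SimpleGraph V), G.Connected ∧
      ∀ k, 1 ≤ k → ((k ∈ (∅ : Finset ℕ)) ↔ ∃ f : V → ℕ, IsSeq G k f) := by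
  classical
  set D : Finset (Fin 4 × Fin 4) := univ.filter (fun x => x.1 < x.2) with hD
  have hDc : D.card = 6 := by rw [hD]; decide
  have htop : gr D id = (⊤ : SimpleGraph (Fin 4)) := by
    ext u v
    rw [gr_adj, SimpleGraph.top_adj]
    constructor
    · exact fun h => h.1
    · intro h
      refine ⟨h, ?_⟩
      rcases lt_or_gt_of_ne h with h1 | h1
      · exact ⟨(u, v), by rw [hD, mem_filter]; exact ⟨mem_univ _, h1⟩, Or.inl rfl⟩
      · exact ⟨(v, u), by rw [hD, mem_filter]; exact ⟨mem_univ _, h1⟩, Or.inr rfl⟩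
  refine ⟨Fin 4, inferInstance, gr D id, ?_, ?_⟩
  · rw [htop]
    exact SimpleGraph.connected_top
  · intro k hk
    constructor
    · intro h
      exact absurd h (notMem_empty k)
    · rintro ⟨f, hf⟩
      exfalso
      have hne : ∀ x ∈ D, (id x : Fin 4 × Fin 4).1 ≠ (id x : Fin 4 × Fin 4).2 := by
        intro x hx
        rw [hD, mem_filter] at hx
        exact ne_of_lt hx.2
      have hinj : ∀ x ∈ D, ∀ y ∈ D, s((id x : Fin 4 × Fin 4).1, (id x : Fin 4 × Fin 4).2) =
          s((id y : Fin 4 × Fin 4).1, (id y : Fin 4 × Fin 4).2) → x = y := by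
        rintro ⟨a, b⟩ hx ⟨c, e⟩ hy h
        rw [hD, mem_filter] at hx hy
        simp only [id] at h
        rw [Sym2.eq_iff] at h
        have h1 := hx.2
        have h2 := hy.2
        simp only at h1 h2
        rcases h with ⟨rfl, rfl⟩ | ⟨rfl, rfl⟩
        · rfl
        · exact absurd h1 (lt_asymm h2)
      obtain ⟨finj, flab, fdis, ficc⟩ := isSeq_fwd hne hinj hf
      rw [hDc, Fintype.card_fin] at ficc
      have hset : Icc k (k + 9) = univ.image f ∪ D.image (fun x => lab f (id x)) := by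
        ext t
        have := ficc t
        rw [Set.mem_Icc] at this
        rw [mem_Icc, mem_union, mem_image, mem_image]
        rw [show k + 9 = k + 4 + 6 - 1 by omega, this]
        simp
      have hsum : ∑ t ∈ Icc k (k + 9), t = ∑ v, f v + ∑ x ∈ D, lab f (id x) := by
        rw [hset, sum_union, sum_image (fun a _ b _ h => finj h), sum_image]
        · intro x hx y hy h
          exact flab x hx y hy h
        · rw [disjoint_left]
          intro t ht ht'
          obtain ⟨v, -, rfl⟩ := mem_image.1 ht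
          obtain ⟨x, hx, hxt⟩ := mem_image.1 ht'
          exact fdis v x hx hxt.symm
      have hl : ∑ t ∈ Icc k (k + 9), t = 10 * k + 45 := by
        rw [show Icc k (k + 9) = Ico (0 + k) (10 + k) by ext x; rw [mem_Icc, mem_Ico]; omega,
          ← sum_Ico_add', ← range_eq_Ico]
        simp only [sum_range_succ, sum_range_zero]
        ring
      have hr : ∑ x ∈ D, lab f (id x) = lab f (0, 1) + lab f (0, 2) + lab f (0, 3) + lab f (1, 2) +
          lab f (1, 3) + lab f (2, 3) := by
        have : D = {(0, 1), (0, 2), (0, 3), (1, 2), (1, 3), (2, 3)} := by rw [hD]; decide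
        rw [this]
        rw [sum_insert (by decide), sum_insert (by decide), sum_insert (by decide),
          sum_insert (by decide), sum_insert (by decide), sum_singleton]
        simp only [id]
        ring
      rw [hl, hr, Fin.sum_univ_four] at hsum
      unfold lab at hsum
      simp only at hsum
      omega

theorem main (S : Finset ℕ) (hS : ∀ k ∈ S, 1 ≤ k) :
    ∃ (V : Type) (_ : Fintype V) (G : SimpleGraph V), G.Connected ∧
      ∀ k, 1 ≤ k → (k ∈ S ↔ ∃ f : V → ℕ, IsSeq G k f) := by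
  rcases S.eq_empty_or_nonempty with h | h
  · subst h
    exact empty_case
  · exact nonempty_case S hS h

end Pool.Agent.helper11.Seq
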