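import Pool.Agent.helper11.Weight

set_option autoImplicit false

/-! The four categories of non-ideal labellings. -/

namespace Pool.Agent.helper11.Seq

open Finset

namespace Par

variable (P : Par) {Q : ℕ}

/-- admissible columns for shifts of type `t` -/
def okc (t a : ℕ) : Prop := P.m ≤ a ∧ a ≤ P.m + P.L ∧ a < P.m + (P.L + t) ∧
  a + (P.L + t) ≤ P.m + 2 * P.L + 2 ∧ a ≠ P.L + t

/-- the run of type `t` -/
def qt (t : ℕ) : ℕ := if t = 0 then 0 else if t = 2 then 1 else if t = 3 then 2 else 3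

lemma gap_clean {t j : ℕ} (ht : t < 4) (h1 : qt t * P.r + 1 + P.ρ ≤ j)
    (h2 : j < qt t * P.r + 1 + P.ρ + P.ρ) :
    P.gap j = P.L + t ∧ P.gap (j - 1) = P.L + t ∧ 2 ≤ j ∧ j ≤ 4 * P.r ∧ P.clean j := by
  have hr := P.r_def
  have hρ := P.ρ_big
  have hcl : P.clean j := by
    refine ⟨qt t, ?_, h1, by omega⟩
    unfold qt; split_ifs <;> omega
  refine and_assoc.1 (and_assoc.1 (and_assoc.1 ⟨?_, hcl⟩))
  interval_cases t
  · have e : qt 0 = 0 := rfl
    rw [e] at h1 h2
    rw [P.gap_run1 (by omega) (by omega), P.gap_run1 (by omega) (by omega)]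
    omega
  · have e : qt 1 = 3 := rfl
    rw [e] at h1 h2
    rw [P.gap_run4 (by omega), P.gap_run4 (by omega)]
    omega
  · have e : qt 2 = 1 := rfl
    rw [e] at h1 h2
    rw [P.gap_run2 (by omega) (by omega), P.gap_run2 (by omega) (by omega)]
    omega
  · have e : qt 3 = 2 := rfl
    rw [e] at h1 h2
    rw [P.gap_run3 (by omega) (by omega), P.gap_run3 (by omega) (by omega)]
    omega

open Classical in
theorem cat1 (γ : Fin (2 * P.L + 3) → Fin Q) (β : Fin (4 * P.r) → Fin Q)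
    (ν : Fin (2 * P.m - P.p) → Fin Q) {t : ℕ} (ht : t < 4) {a1 a2 : ℕ} (h1 : P.okc t a1)
    (h2 : P.okc t a2) (hd : P.fz γ (a1 + (P.L + t)) - P.fz γ a1 ≠ P.fz γ (a2 + (P.L + t)) - P.fz γ a2)
    (hrow : ∀ i j, 2 ≤ i → i ≤ P.R → 2 ≤ j → j ≤ P.R → P.xz β i = P.xz β j → i = j)
    (W : Finset ℕ) (hW : ∀ a ∈ W, (2 * P.m + 6 ≤ a ∧ a < P.L) ∧ a ≠ a1 ∧ a ≠ a2) :
    (3 / 4 : ℝ) ^ (P.Fail (P.gn (P.glue γ β ν))).card ≤ (3 / 4 : ℝ) ^ ((P.ρ - 5) / 2) * P.Z γ W β := by
  have hR := P.R_def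
  have hr := P.r_def
  have hρ := P.ρ_big
  set s := qt t * P.r + 1 + P.ρ with hs
  set pa : ℕ → ℕ → Prop := fun a j => Rigid.pass (P.fz γ a) (P.fz γ (a + (P.L + t)))
    (P.xz β j) (P.xz β (j + 1)) with hpa
  set E : ℕ → Finset ℕ := fun j => if s ≤ j ∧ j < s + P.ρ then
    ({a1, a2} : Finset ℕ).filter (fun a => ¬ pa a j) else ∅ with hE
  refine P.pointwise γ β ν W (fun a ha => (hW a ha).1) E ?_ _ ?_
  · intro j _ _ a ha
    rw [hE] at ha
    simp only at ha
    split_ifs at ha with hj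
    · rw [mem_filter, mem_insert, mem_singleton] at ha
      obtain ⟨g1, g2, g3, g4, g5⟩ := P.gap_clean ht hj.1 hj.2
      have hok : P.okc t a := by
        rcases ha.1 with h | h
        · rw [h]; exact h1
        · rw [h]; exact h2
      refine ⟨?_, ?_, ?_⟩
      · intro haW
        have := hW a haW
        rcases ha.1 with h | h
        · exact this.2.1 h
        · exact this.2.2 h
      · obtain ⟨k1, k2, k3, k4, k5⟩ := hok
        refine ⟨g3, g4, k1, Or.inr ⟨g5, k2, ?_, ?_, ?_⟩⟩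
        · rw [g2]; exact k3
        · rw [g1]; exact k4
        · rw [g2]; exact k5
      · rw [g1]
        exact ha.2
    · exact absurd ha (notMem_empty a)
  · have hsub : Ico s (s + P.ρ) ⊆ Icc 2 (4 * P.r) := by
      intro j hj
      rw [mem_Ico] at hj
      obtain ⟨-, -, g3, g4, -⟩ := P.gap_clean ht hj.1 hj.2
      rw [mem_Icc]
      exact ⟨g3, g4⟩
    have hq : qt t ≤ 3 := by unfold qt; split_ifs <;> omega
    have hq' : qt t * P.r ≤ 3 * P.r := Nat.mul_le_mul_right _ hq
    have htc := Rigid.two_columns (P.fz γ a1) (P.fz γ (a1 + (P.L + t))) (P.fz γ a2)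
      (P.fz γ (a2 + (P.L + t))) hd s P.ρ (P.xz β) (by
        intro i hi j hj hij
        rw [Set.mem_Icc] at hi hj
        exact hrow i j (by omega) (by omega) (by omega) (by omega) hij)
    have h3 : ((Ico s (s + P.ρ)).filter (fun j => ¬ (pa a1 j ∧ pa a2 j))).card ≤
        ∑ j ∈ Ico s (s + P.ρ), (E j).card := by
      rw [card_filter]
      refine sum_le_sum fun j hj => ?_
      rw [mem_Ico] at hj
      by_cases hc : pa a1 j ∧ pa a2 j
      · rw [if_neg (not_not.2 hc)]
        exact Nat.zero_le _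
      · rw [if_pos hc]
        have : (E j).Nonempty := by
          rw [hE]
          simp only
          rw [if_pos hj]
          rw [not_and_or] at hc
          rcases hc with hc | hc
          · exact ⟨a1, by rw [mem_filter]; exact ⟨by simp, hc⟩⟩
          · exact ⟨a2, by rw [mem_filter]; exact ⟨by simp, hc⟩⟩
        exact this.card_pos
    have h4 : ∑ j ∈ Ico s (s + P.ρ), (E j).card ≤ ∑ j ∈ Icc 2 (4 * P.r), (E j).card :=
      sum_le_sum_of_subset hsub
    have h5 : P.ρ ≤ 2 * ((Ico s (s + P.ρ)).filter (fun j => ¬ (pa a1 j ∧ pa a2 j))).card + 5 := htc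
    omega

open Classical in
theorem cat2 (γ : Fin (2 * P.L + 3) → Fin Q) (β : Fin (4 * P.r) → Fin Q)
    (ν : Fin (2 * P.m - P.p) → Fin Q) {lam c : ℤ} (hlam : lam ≠ 0)
    (hf : ∀ a, P.m ≤ a → a ≤ P.m + 2 * P.L + 2 → P.fz γ a = lam * a + c) {j0 : ℕ} (hj1 : 2 ≤ j0)
    (hj2 : j0 ≤ 4 * P.r) (hj : P.xz β (j0 + 1) ≠ P.xz β j0 + lam * P.gap j0)
    (W W' : Finset ℕ) (hW : ∀ a ∈ W, 2 * P.m + 6 ≤ a ∧ a < P.L)
    (hW' : ∀ a ∈ W', (2 * P.m + 6 ≤ a ∧ a < P.L) ∧ a ∉ W) :
    (3 / 4 : ℝ) ^ (P.Fail (P.gn (P.glue γ β ν))).card ≤ (3 / 4 : ℝ) ^ (W'.card - 1) * P.Z γ W β := by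
  have hL := P.hL
  set E : ℕ → Finset ℕ := fun j => if j = j0 then
    W'.filter (fun a => ¬ Rigid.pass (P.fz γ a) (P.fz γ (a + P.gap j0)) (P.xz β j0)
      (P.xz β (j0 + 1))) else ∅ with hE
  refine P.pointwise γ β ν W hW E ?_ _ ?_
  · intro j h1 h2 a ha
    rw [hE] at ha
    simp only at ha
    split_ifs at ha with hjj
    · subst hjj
      rw [mem_filter] at ha
      have h3 := hW' a ha.1
      refine ⟨h3.2, ⟨h1, h2, by omega, Or.inl (by omega)⟩, ha.2⟩
    · exact absurd ha (notMem_empty a)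
  · have h1 : (E j0).card ≤ ∑ j ∈ Icc 2 (4 * P.r), (E j).card :=
      single_le_sum (f := fun j => (E j).card) (fun _ _ => Nat.zero_le _) (mem_Icc.2 ⟨hj1, hj2⟩)
    have hg := P.gap_le j0 (by omega)
    have h2 := Rigid.nfail_rigid W' (P.fz γ) (P.gap j0) lam c hlam
      (fun a ha => hf a (by have := hW' a ha; omega) (by have := hW' a ha; omega))
      (fun a ha => by
        have := hW' a ha
        exact hf (a + P.gap j0) (by omega) (by omega))
      (P.xz β j0) (P.xz β (j0 + 1)) hj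
    have h3 : (E j0).card = Rigid.nfail W' (P.fz γ) (fun a => P.fz γ (a + P.gap j0)) (P.xz β j0)
        (P.xz β (j0 + 1)) := by
      simp only [hE, if_true]
      rfl
    omega

open Classical in
theorem cat3 (g : P.V → ℕ) {lam c c' : ℤ}
    (hA : ∀ a, P.m ≤ a → a ≤ P.m + 2 * P.L + 2 → (g (P.vA a) : ℤ) = lam * a + c)
    (hB : ∀ j, 2 ≤ j → j ≤ P.R → (g (P.vB j) : ℤ) = lam * P.b j + c') (hlam : lam ≠ 0) (hc : c ≠ c') :
    P.K - 1 ≤ (P.Fail g).card := by
  have hR := P.R_def
  have h5 := P.r_def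
  have h9 := P.ρ_ge
  have h10 : 0 ≤ P.K * P.L := Nat.zero_le _
  have hL := P.hL
  set bad : ℕ → Prop := fun j => ((g (P.vA (2 * P.m + 5)) : ℤ) - g (P.vB j)).natAbs ≠
      ((g (P.vB 2) : ℤ) - g (P.vB (j + 5))).natAbs with hbad
  have hgood : ((Icc 3 (P.K + 2)).filter (fun j => ¬ bad j)).card ≤ 1 := by
    rw [card_le_one]
    intro j hj i hi
    rw [mem_filter, mem_Icc] at hj hi
    have key : ∀ j, 3 ≤ j → j ≤ P.K + 2 → ¬ bad j → c' - c = -2 * lam * (P.b j - (2 * P.m + 5)) := by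
      intro j h1 h2 h3
      rw [hbad] at h3
      simp only [ne_eq, not_not] at h3
      have hb := P.b_tie ⟨h1, h2, rfl⟩
      rw [hA _ (by omega) (by omega), hB j (by omega) (by omega), hB 2 le_rfl (by omega),
        hB (j + 5) (by omega) (by omega)] at h3
      have hb' : (P.b (j + 5) : ℤ) + (2 * P.m + 5) = P.b j + P.b 2 := by exact_mod_cast hb
      rw [Int.natAbs_eq_natAbs_iff] at h3
      push_cast at h3
      rcases h3 with h3 | h3
      · exfalso
        apply hc
        have e : (P.b (j + 5) : ℤ) = P.b j + P.b 2 - (2 * P.m + 5) := by linarith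
        rw [e] at h3
        linarith
      · have e : (P.b (j + 5) : ℤ) = P.b j + P.b 2 - (2 * P.m + 5) := by linarith
        rw [e] at h3
        linarith
    have h1 := key j hj.1.1 hj.1.2 hj.2
    have h2 := key i hi.1.1 hi.1.2 hi.2
    have h3 : lam * ((P.b j : ℤ) - P.b i) = 0 := by linarith
    rcases mul_eq_zero.1 h3 with h | h
    · exact absurd h hlam
    · exact P.b_inj (by omega)
  have hcard := card_filter_add_card_filter_not (s := Icc 3 (P.K + 2)) (p := fun j => bad j)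
  have hI : ((Icc 3 (P.K + 2)).filter (fun j => bad j)).card ≤ (P.Fail g).card := by
    have := P.Fail_card_ge g ((Icc 3 (P.K + 2)).filter (fun j => bad j)) (fun _ => {2 * P.m + 5}) (by
      intro j hj a ha
      rw [mem_filter, mem_Icc] at hj
      rw [mem_singleton] at ha
      subst ha
      exact P.fail_T2 ⟨hj.1.1, hj.1.2, rfl⟩ hj.2)
    simpa using this
  rw [Nat.card_Icc] at hcard
  omega

/-- arithmetic of the pins -/
lemma pin_arith {lam t x y i : ℤ} (hxy : x ≠ y)
    (h : ((lam * (x - i)).natAbs = (t - lam * x).natAbs ∧ (lam * (y - i)).natAbs = (t - lam * y).natAbs) ∨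
      ((lam * (x - i)).natAbs = (t - lam * y).natAbs ∧ (lam * (y - i)).natAbs = (t - lam * x).natAbs)) :
    t = lam * i ∨ t = lam * (x + y - i) := by
  rw [Int.natAbs_eq_natAbs_iff, Int.natAbs_eq_natAbs_iff, Int.natAbs_eq_natAbs_iff,
    Int.natAbs_eq_natAbs_iff] at h
  rcases h with ⟨h1 | h1, h2 | h2⟩ | ⟨h1 | h1, h2 | h2⟩
  · -- t = lam (2x - i), t = lam (2y - i)
    have h3 : lam * (x - y) = 0 := by linarith
    rcases mul_eq_zero.1 h3 with h | h
    · left; rw [h] at h1 ⊢; linarith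
    · exact absurd (by linarith) hxy
  · left; linarith
  · left; linarith
  · left; linarith
  · -- lam (x - i) = t - lam y
    right; linarith
  · right; linarith
  · right; linarith
  · -- -lam (x-i) = t - lam y ; -lam (y - i) = t - lam x
    have h3 : lam * (x - y) = 0 := by linarith
    rcases mul_eq_zero.1 h3 with h | h
    · left; rw [h] at h1 ⊢; linarith
    · exact absurd (by linarith) hxy

theorem cat4 (g : P.V → ℕ) {lam c : ℤ}
    (hA : ∀ a, P.m ≤ a → a ≤ P.m + 2 * P.L + 2 → (g (P.vA a) : ℤ) = lam * a + c)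
    (hB : ∀ j, 2 ≤ j → j ≤ P.R → (g (P.vB j) : ℤ) = lam * P.b j + c) {i : ℕ} (hi1 : P.p ≤ i)
    (hi2 : i < P.m) (h1 : (g (P.vU i) : ℤ) ≠ lam * i + c)
    (h2 : (g (P.vU i) : ℤ) ≠ lam * ((P.b P.R : ℤ) + P.d i - i) + c) :
    P.K - 1 ≤ (P.Fail g).card := by
  have hR := P.R_def
  have h5 := P.r_def
  have h9 := P.ρ_ge
  have h10 : 0 ≤ P.K * P.L := Nat.zero_le _
  have hL := P.hL
  have hinj : Set.InjOn (fun n => (P.xn n i + 1, P.L + i)) (Icc 21 (20 + P.K) : Finset ℕ) := by
    intro n _ n' _ h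
    simp only [Prod.mk.injEq] at h
    have h' : P.xn n i = P.xn n' i := by omega
    unfold xn at h'
    have h'' : n * (P.L + 1) = n' * (P.L + 1) := by omega
    exact Nat.eq_of_mul_eq_mul_right (by omega) h''
  have hle : (Icc 21 (20 + P.K)).card ≤ (P.Fail g).card := by
    refine card_le_card_of_injOn _ ?_ hinj
    intro n hn
    rw [mem_coe, mem_Icc] at hn
    have hok : P.ok n i := ⟨hi1, hi2, by omega, by omega⟩
    refine P.fail_pin hn.1 hok ?_
    have hx := P.xn_bd hok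
    have hin := P.inn_bd hok
    have hy := P.yn_spec hok
    have hE1 := P.E1_isU1 hok
    have hE2 := P.E2_isU2 hok
    have hl1 := P.lbl_U1 hE1
    have hl2 := P.lbl_U2 hE2
    have hs1 := (P.lbl_spec (P.U1_mem_D hE1)).1
    have hs2 := (P.lbl_spec (P.U2_mem_D hE2)).1
    have hsum := P.pair_sum hok
    have hbxy : P.b (P.xn n i) ≠ P.b (P.yn n i) := by
      intro h
      have := P.b_inj h
      omega
    have q1 : (P.b (P.xn n i + 1) : ℤ) = P.b (P.xn n i) - i + (P.L + i) := by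
      have : (P.lbl (P.xn n i + 1, P.L + i) : ℤ) + i = P.b (P.xn n i) := by exact_mod_cast hl1
      have e : (P.lbl (P.xn n i + 1, P.L + i) : ℤ) + (P.L + i) = P.b (P.xn n i + 1) := by
        exact_mod_cast hs1
      linarith
    have q2 : (P.b (P.yn n i + 1) : ℤ) = P.b (P.yn n i) - i + (P.L + 1 + i) := by
      have : (P.lbl (P.yn n i + 1, P.L + 1 + i) : ℤ) + i = P.b (P.yn n i) := by exact_mod_cast hl2
      have e : (P.lbl (P.yn n i + 1, P.L + 1 + i) : ℤ) + (P.L + 1 + i) = P.b (P.yn n i + 1) := by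
        exact_mod_cast hs2
      linarith
    intro hcon
    unfold lab at hcon
    simp only at hcon
    rw [hA (P.L + i) (by omega) (by omega), hA (P.L + 1 + i) (by omega) (by omega),
      hB (P.xn n i + 1) (by omega) (by omega), hB (P.yn n i + 1) (by omega) (by omega),
      hB (P.xn n i) (by omega) (by omega), hB (P.yn n i) (by omega) (by omega), q1, q2] at hcon
    have := pin_arith (lam := lam) (t := (g (P.vU i) : ℤ) - c) (x := P.b (P.xn n i))
      (y := P.b (P.yn n i)) (i := (i : ℤ)) (by exact_mod_cast hbxy) (by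
        have r1 : (lam * ((P.L + i : ℕ) : ℤ) + c - (lam * ((P.b (P.xn n i) : ℤ) - i + (P.L + i)) + c)).natAbs
            = (lam * ((P.b (P.xn n i) : ℤ) - i)).natAbs := by
          rw [← Int.natAbs_neg]; congr 1; push_cast; ring
        have r2 : (lam * ((P.L + 1 + i : ℕ) : ℤ) + c -
            (lam * ((P.b (P.yn n i) : ℤ) - i + (P.L + 1 + i)) + c)).natAbs
            = (lam * ((P.b (P.yn n i) : ℤ) - i)).natAbs := by
          rw [← Int.natAbs_neg]; congr 1; push_cast; ring
        have r3 : ∀ x : ℤ, ((g (P.vU i) : ℤ) - (lam * x + c)).natAbs =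
            ((g (P.vU i) : ℤ) - c - lam * x).natAbs := by
          intro x; congr 1; ring
        rw [r1, r2, r3, r3] at hcon
        exact hcon)
    have hsum' : (P.b (P.xn n i) : ℤ) + P.b (P.yn n i) = P.b P.R + P.d i := by exact_mod_cast hsum
    rcases this with h | h
    · exact h1 (by linarith)
    · rw [hsum'] at h
      exact h2 (by linarith)
  rw [Nat.card_Icc] at hle
  omega

end Par

end Pool.Agent.helper11.Seq
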