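import Pool.Agent.helper11.Planted

set_option autoImplicit false

namespace Pool.Agent.helper11.Seq

open Finset

namespace Par

variable (P : Par)

lemma not_U_small {n i j a : ℕ} (ha : a ≤ P.L) : ¬ (P.isU1 n i j a ∨ P.isU2 n i j a) := by
  rintro (h | h)
  · have := P.isU1_row h; omega
  · have := P.isU2_row h; omega

lemma ends_plain_of {X : Finset (ℕ × ℕ)} {j a : ℕ} (hU : ∀ n i, ¬ (P.isU1 n i j a ∨ P.isU2 n i j a))
    (hT1 : ¬ P.T1 j a) (hT2 : ¬ P.T2 j a) : P.ends X (j, a) = P.e0 (j, a) := by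
  unfold ends
  split_ifs
  · unfold e1
    simp only
    rw [if_neg hT1, if_neg hT2, if_neg]
    rintro ⟨n, i, -, h⟩
    exact hU n i h
  · rfl

lemma ends_row_one (X : Finset (ℕ × ℕ)) (a : ℕ) : P.ends X (1, a) = (P.vA a, P.vC 0) := by
  rw [P.ends_plain_of (fun n i h => P.U_ne_one h rfl) (fun h => by have := h.1; omega)
    (fun h => by have := h.1; omega)]
  unfold e0
  simp only
  rw [if_neg]
  · simp
  · rintro ⟨i, h⟩
    exact P.U_ne_one h rfl

lemma ends_row_R (X : Finset (ℕ × ℕ)) {a : ℕ} (ha : a ≤ P.L) : P.ends X (P.R, a) =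
    if P.m + 1 ≤ a ∧ a ≤ 2 * P.m - 1 then (P.vA P.m, P.vC (a - P.m)) else (P.vA a, P.vB P.R) := by
  have hR := P.R_def
  have hr := P.r_pos
  have hr' := P.r_def
  have hρ := P.ρ_ge
  have h10 : 0 ≤ P.K * P.L := Nat.zero_le _
  rw [P.ends_plain_of (fun n i h => P.not_U_small ha h) (fun h => by have := h.2.1; omega)
    (fun h => by have := h.2.1; omega)]
  unfold e0
  simp only
  rw [if_neg, if_neg (by omega)]
  · simp only [true_and]
  · rintro ⟨i, h⟩
    exact P.not_U_small ha h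

lemma ends_test (X : Finset (ℕ × ℕ)) {j a : ℕ} (hT : P.T1 j a) (hX : (j, a) ∉ X) :
    P.ends X (j, a) = (P.vA a, P.vB j) := by
  have hR := P.R_def
  unfold ends
  rw [P.slot_T1 hT, if_neg hX]
  unfold e0
  simp only
  rw [if_neg (P.T1_not_att hT), if_neg (by have := hT.1; omega),
    if_neg (by rintro ⟨h, -⟩; have := hT.2.1; omega)]

lemma ends_test' (X : Finset (ℕ × ℕ)) {j a : ℕ} (hT : P.T1 j a) (hX : (j, a) ∈ X) :
    P.ends X (j, a) = (P.vA (a + P.gap j), P.vB (j + 1)) := by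
  unfold ends
  rw [P.slot_T1 hT, if_pos hX]
  unfold e1
  simp only
  rw [if_pos hT]

theorem connected (X : Finset (ℕ × ℕ))
    (hX : ∀ j, 2 ≤ j → j ≤ 4 * P.r → ∃ a, P.m ≤ a ∧ a < P.L ∧ a ≠ 2 * P.m + 5 ∧ (j, a) ∉ X) :
    (gr P.D (P.ends X)).Connected := by
  set G := gr P.D (P.ends X) with hG
  have hR := P.R_def
  have hL := P.hL
  have hp := P.hp
  have hpm := P.hpm
  have hr := P.r_pos
  have hadj : ∀ x ∈ P.D, G.Adj (P.ends X x).1 (P.ends X x).2 := fun x hx =>
    gr_adj_ends (P.ends_ne X) hx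
  have hC : ∀ a, P.m ≤ a → a ≤ P.m + 2 * P.L + 2 → G.Adj (P.vA a) (P.vC 0) := by
    intro a h1 h2
    have hx : (1, a) ∈ P.D := by
      rw [mem_D, show 1 - 1 = 0 from rfl, gap_zero]
      exact ⟨le_rfl, by omega, h1, by omega, by omega⟩
    have := hadj _ hx
    rwa [ends_row_one] at this
  have hA : ∀ a, P.m ≤ a → a ≤ P.m + 2 * P.L + 2 → G.Reachable (P.vA a) (P.vC 0) :=
    fun a h1 h2 => (hC a h1 h2).reachable
  have hRD : ∀ a, P.m ≤ a → a ≤ P.L → (P.R, a) ∈ P.D := by
    intro a h1 h2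
    have hg := P.gap_run4 (j := P.R - 1) (by omega)
    rw [mem_D, hg]
    exact ⟨by omega, le_rfl, h1, by omega, by omega⟩
  have hBR : G.Reachable (P.vB P.R) (P.vC 0) := by
    have := hadj _ (hRD P.m le_rfl (by omega))
    rw [P.ends_row_R X (by omega), if_neg (by omega)] at this
    exact this.symm.reachable.trans (hA _ le_rfl (by omega))
  have hB : ∀ j, 2 ≤ j → j ≤ P.R → G.Reachable (P.vB j) (P.vC 0) := by
    intro j h1 h2
    rcases Nat.lt_or_eq_of_le h2 with h3 | h3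
    · obtain ⟨a, ha1, ha2, ha3, ha4⟩ := hX j h1 (by omega)
      have hT : P.T1 j a := ⟨h1, by omega, ha1, Or.inl ⟨ha2, ha3⟩⟩
      have := hadj _ (P.T1_mem_D hT)
      rw [P.ends_test X hT ha4] at this
      exact this.symm.reachable.trans (hA _ ha1 (by omega))
    · subst h3; exact hBR
  have hall : ∀ v, G.Reachable v (P.vC 0) := by
    intro v
    rcases P.V_cases v with ⟨a, h1, h2, rfl⟩ | ⟨j, h1, h2, rfl⟩ | rfl | ⟨c, h1, h2, rfl⟩ |
        ⟨i, h1, h2, rfl⟩
    · exact hA a h1 h2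
    · exact hB j h1 h2
    · exact SimpleGraph.Reachable.refl _
    · have := hadj _ (hRD (P.m + c) (by omega) (by omega))
      rw [P.ends_row_R X (by omega), if_pos (by omega), Nat.add_sub_cancel_left] at this
      exact this.symm.reachable.trans (hA _ le_rfl (by omega))
    · have hok : P.ok 20 i := ⟨h1, h2, le_rfl, by omega⟩
      have h3 := P.E1_isU1 hok
      have := hadj _ (P.U1_mem_D h3)
      rw [P.ends_U1_act h3 (Or.inl rfl)] at this
      have h4 := P.isU1_row h3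
      have h5 := P.r_def
      refine this.reachable.trans (hB _ (by omega) (by omega))
  haveI : Nonempty P.V := ⟨P.vC 0⟩
  exact SimpleGraph.Connected.mk (fun u v => (hall u).trans (hall v).symm)

end Par

end Pool.Agent.helper11.Seq
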