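import Mathlib

set_option autoImplicit false

/-!
The construction.  Parameters `p ≤ m` (the least and largest element of the prescribed set), a large
gap `L`, four runs of `3 ρ` rows each, a number `K` of auxiliary tests, and a function `d` describing
the moves of the movable vertices.
-/

namespace Pool.Agent.helper11.Seq

open Finset

structure Par where
  p : ℕ
  m : ℕ
  L : ℕ
  ρ : ℕ
  K : ℕ
  d : ℕ → ℕ
  hp : 1 ≤ p
  hpm : p ≤ m
  hL : 20 * m + 200 ≤ L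
  hK : 2 ≤ K
  hρ : (K + 25) * (L + 1) + 2 * m + 10 ≤ ρ
  hd : ∀ i, p ≤ i → i < m → 1 ≤ d i ∧ d i ≤ 2 * m

namespace Par

variable (P : Par)

/-- length of a run -/
def r : ℕ := 3 * P.ρ

/-- number of rows -/
def R : ℕ := 4 * P.r + 1

lemma R_def : P.R = 4 * P.r + 1 := rfl
lemma r_def : P.r = 3 * P.ρ := rfl

lemma ρ_ge : 25 * P.L + P.K * P.L + P.K + 2 * P.m + 35 ≤ P.ρ := by
  have := P.hρ
  nlinarith

lemma ρ_big : 25 * P.L ≤ P.ρ ∧ P.K + 35 ≤ P.ρ := by
  have := P.ρ_ge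
  have h : P.K * P.L = P.K * P.L := rfl
  constructor
  · have : 0 ≤ P.K * P.L := Nat.zero_le _
    omega
  · have : 0 ≤ P.K * P.L := Nat.zero_le _
    omega

/-- gaps between consecutive rows -/
def gap (j : ℕ) : ℕ :=
  if j = 0 then 2 * P.L + 3
  else if j ≤ P.r then P.L
  else if j ≤ 2 * P.r then P.L + 2
  else if j ≤ 3 * P.r then P.L + 3
  else P.L + 1

/-- the rows -/
def b : ℕ → ℕ
  | 0 => 2 * P.m + 2 * P.L + 2
  | j + 1 => b j + P.gap j

lemma b_zero : P.b 0 = 2 * P.m + 2 * P.L + 2 := rfl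
lemma b_succ (j : ℕ) : P.b (j + 1) = P.b j + P.gap j := rfl

lemma gap_zero : P.gap 0 = 2 * P.L + 3 := by simp [gap]

lemma gap_ge (j : ℕ) : P.L ≤ P.gap j := by
  unfold gap; split_ifs <;> omega

lemma gap_le (j : ℕ) (hj : 1 ≤ j) : P.gap j ≤ P.L + 3 := by
  unfold gap; split_ifs <;> omega

lemma gap_le' (j : ℕ) : P.gap j ≤ 2 * P.L + 3 := by
  unfold gap; split_ifs <;> omega

lemma gap_run1 {j : ℕ} (h1 : 1 ≤ j) (h2 : j ≤ P.r) : P.gap j = P.L := by
  unfold gap; rw [if_neg (by omega), if_pos h2]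

lemma gap_run2 {j : ℕ} (h1 : P.r < j) (h2 : j ≤ 2 * P.r) : P.gap j = P.L + 2 := by
  unfold gap; rw [if_neg (by omega), if_neg (by omega), if_pos h2]

lemma gap_run3 {j : ℕ} (h1 : 2 * P.r < j) (h2 : j ≤ 3 * P.r) : P.gap j = P.L + 3 := by
  unfold gap; rw [if_neg (by omega), if_neg (by omega), if_neg (by omega), if_pos h2]

lemma gap_run4 {j : ℕ} (h1 : 3 * P.r < j) : P.gap j = P.L + 1 := by
  unfold gap; rw [if_neg (by omega), if_neg (by omega), if_neg (by omega), if_neg (by omega)]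

lemma b_one : P.b 1 = 2 * P.m + 4 * P.L + 5 := by
  rw [show (1 : ℕ) = 0 + 1 from rfl, b_succ, b_zero, gap_zero]; omega

lemma b_run1 (i : ℕ) (h : i ≤ P.r) : P.b (1 + i) = 2 * P.m + 4 * P.L + 5 + i * P.L := by
  induction i with
  | zero => rw [b_one]; omega
  | succ i ih =>
    rw [show 1 + (i + 1) = (1 + i) + 1 by omega, b_succ, ih (by omega),
      P.gap_run1 (by omega) (by omega)]
    ring

lemma b_run2 (i : ℕ) (h : i ≤ P.r) : P.b (P.r + 1 + i) = P.b (P.r + 1) + i * (P.L + 2) := by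
  induction i with
  | zero => simp
  | succ i ih =>
    rw [show P.r + 1 + (i + 1) = (P.r + 1 + i) + 1 by omega, b_succ, ih (by omega),
      P.gap_run2 (by omega) (by omega)]
    ring

lemma b_run3 (i : ℕ) (h : i ≤ P.r) :
    P.b (2 * P.r + 1 + i) = P.b (2 * P.r + 1) + i * (P.L + 3) := by
  induction i with
  | zero => simp
  | succ i ih =>
    rw [show 2 * P.r + 1 + (i + 1) = (2 * P.r + 1 + i) + 1 by omega, b_succ, ih (by omega),
      P.gap_run3 (by omega) (by omega)]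
    ring

lemma b_run4 (i : ℕ) : P.b (3 * P.r + 1 + i) = P.b (3 * P.r + 1) + i * (P.L + 1) := by
  induction i with
  | zero => simp
  | succ i ih =>
    rw [show 3 * P.r + 1 + (i + 1) = (3 * P.r + 1 + i) + 1 by omega, b_succ, ih,
      P.gap_run4 (by omega)]
    ring

lemma b_top (i : ℕ) (h : i ≤ P.r) : P.b (P.R - i) + i * (P.L + 1) = P.b P.R := by
  have h1 := P.b_run4 (P.r - i)
  have h2 := P.b_run4 P.r
  have e1 : 3 * P.r + 1 + (P.r - i) = P.R - i := by rw [R_def]; omega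
  have e2 : 3 * P.r + 1 + P.r = P.R := by rw [R_def]; omega
  rw [e1] at h1
  rw [e2] at h2
  rw [h1, h2, add_assoc, ← add_mul, Nat.sub_add_cancel h]

lemma b_lt {i j : ℕ} (h : i < j) : P.b i + P.L ≤ P.b j := by
  induction j with
  | zero => omega
  | succ j ih =>
    rw [b_succ]
    rcases Nat.lt_succ_iff_lt_or_eq.1 h with h1 | h1
    · have := ih h1; omega
    · subst h1; have := P.gap_ge i; omega

lemma b_mono {i j : ℕ} (h : i ≤ j) : P.b i ≤ P.b j := by
  rcases Nat.lt_or_eq_of_le h with h1 | h1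
  · have := P.b_lt h1; omega
  · rw [h1]

lemma L_pos : 0 < P.L := by have := P.hL; omega

lemma b_inj {i j : ℕ} (h : P.b i = P.b j) : i = j := by
  have := P.L_pos
  rcases Nat.lt_trichotomy i j with h1 | h1 | h1
  · have := P.b_lt h1; omega
  · exact h1
  · have := P.b_lt h1; omega

lemma b_ge (j : ℕ) : 2 * P.m + 2 * P.L + 2 ≤ P.b j := by
  have := P.b_mono (Nat.zero_le j)
  rwa [b_zero] at this

/-- index set of the edges: row and column -/
def D : Finset (ℕ × ℕ) :=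
  (Icc 1 P.R ×ˢ Ico P.m (P.m + 2 * P.L + 3)).filter
    (fun x => x.2 < P.m + P.gap (x.1 - 1) ∧ (2 ≤ x.1 → x.2 ≠ P.gap (x.1 - 1)))

lemma mem_D {j a : ℕ} : (j, a) ∈ P.D ↔ 1 ≤ j ∧ j ≤ P.R ∧ P.m ≤ a ∧ a < P.m + P.gap (j - 1) ∧
    (2 ≤ j → a ≠ P.gap (j - 1)) := by
  unfold D
  rw [mem_filter, mem_product, mem_Icc, mem_Ico]
  have := P.gap_le' (j - 1)
  constructor
  · rintro ⟨⟨⟨h1, h2⟩, h3, h4⟩, h5, h6⟩
    exact ⟨h1, h2, h3, h5, h6⟩
  · rintro ⟨h1, h2, h3, h5, h6⟩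
    exact ⟨⟨⟨h1, h2⟩, h3, by simp only; omega⟩, h5, h6⟩

/-- the label of an index -/
def lbl (x : ℕ × ℕ) : ℕ := P.b x.1 - x.2

lemma lbl_spec {j a : ℕ} (h : (j, a) ∈ P.D) :
    P.lbl (j, a) + a = P.b j ∧ P.b (j - 1) < P.lbl (j, a) + P.m ∧ P.lbl (j, a) + P.m ≤ P.b j := by
  rw [mem_D] at h
  obtain ⟨h1, h2, h3, h4, h5⟩ := h
  have e : P.b j = P.b (j - 1) + P.gap (j - 1) := by
    conv_lhs => rw [show j = (j - 1) + 1 by omega]
    rfl
  have := P.b_ge (j - 1)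
  unfold lbl
  simp only
  omega

lemma lbl_inj {x y : ℕ × ℕ} (hx : x ∈ P.D) (hy : y ∈ P.D) (h : P.lbl x = P.lbl y) : x = y := by
  obtain ⟨j, a⟩ := x
  obtain ⟨j', a'⟩ := y
  have h1 := P.lbl_spec hx
  have h2 := P.lbl_spec hy
  rw [mem_D] at hx hy
  have hj : j = j' := by
    rcases Nat.lt_trichotomy j j' with h3 | h3 | h3
    · have := P.b_mono (show j ≤ j' - 1 by omega); omega
    · exact h3
    · have := P.b_mono (show j' ≤ j - 1 by omega); omega
  subst hj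
  have : a = a' := by omega
  rw [this]

lemma lbl_range {x : ℕ × ℕ} (hx : x ∈ P.D) :
    P.m + 2 * P.L + 2 < P.lbl x ∧ P.lbl x + P.m ≤ P.b P.R := by
  obtain ⟨j, a⟩ := x
  have h1 := P.lbl_spec hx
  rw [mem_D] at hx
  have h2 := P.b_mono (Nat.zero_le (j - 1))
  have h3 := P.b_mono hx.2.1
  rw [b_zero] at h2
  omega

lemma lbl_ne_b {x : ℕ × ℕ} (hx : x ∈ P.D) {i : ℕ} (hi : 1 ≤ i) : P.b i ≠ P.lbl x := by
  obtain ⟨j, a⟩ := x
  have h1 := P.lbl_spec hx
  rw [mem_D] at hx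
  obtain ⟨h2, h3, h4, h5, h6⟩ := hx
  intro h
  have hij : i < j := by
    by_contra hcon
    have := P.b_mono (show j ≤ i by omega)
    have := P.hp
    have := P.hpm
    omega
  have e : P.b j = P.b (j - 1) + P.gap (j - 1) := by
    conv_lhs => rw [show j = (j - 1) + 1 by omega]
    rfl
  rcases Nat.lt_or_eq_of_le (show i ≤ j - 1 by omega) with h7 | h7
  · have := P.b_lt h7
    have := P.hL
    omega
  · subst h7
    exact h6 (by omega) (by omega)

end Par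

end Pool.Agent.helper11.Seq
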