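import Pool.Agent.helper11.Cons

set_option autoImplicit false

namespace Pool.Agent.helper11.Seq

open Finset

namespace Par

variable (P : Par)

lemma r_pos : 35 ≤ P.r := by
  have := P.ρ_big
  rw [r_def]; omega

/-- columns in a row -/
def rowset (j : ℕ) : Finset ℕ :=
  (Ico P.m (P.m + P.gap (j - 1))).filter (fun a => 2 ≤ j → a ≠ P.gap (j - 1))

lemma rowset_one : (P.rowset 1).card = P.gap 0 := by
  unfold rowset
  rw [filter_true_of_mem (by intro a _ h; omega)]
  simp

lemma rowset_card {j : ℕ} (hj : 2 ≤ j) : (P.rowset j).card + 1 = P.gap (j - 1) := by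
  unfold rowset
  have e : (Ico P.m (P.m + P.gap (j - 1))).filter (fun a => 2 ≤ j → a ≠ P.gap (j - 1)) =
      (Ico P.m (P.m + P.gap (j - 1))).erase (P.gap (j - 1)) := by
    ext a
    rw [mem_filter, mem_erase]
    constructor
    · rintro ⟨h1, h2⟩; exact ⟨h2 hj, h1⟩
    · rintro ⟨h1, h2⟩; exact ⟨h2, fun _ => h1⟩
  have h1 := P.gap_ge (j - 1)
  have h2 := P.hL
  have h3 := P.hp
  have h4 := P.hpm
  rw [e, card_erase_of_mem (by rw [mem_Ico]; omega), Nat.card_Ico]
  omega

lemma D_card : P.D.card + P.R + P.b 0 = P.b P.R + 1 := by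
  have h1 : P.D.card = ∑ j ∈ Icc 1 P.R, (P.rowset j).card := by
    rw [card_eq_sum_card_fiberwise (f := Prod.fst) (t := Icc 1 P.R)]
    · refine sum_congr rfl fun j hj => ?_
      have : P.D.filter (fun x => x.1 = j) = (P.rowset j).image (fun a => (j, a)) := by
        ext ⟨i, a⟩
        rw [mem_filter, mem_D, mem_image]
        unfold rowset
        constructor
        · rintro ⟨⟨h1, h2, h3, h4, h5⟩, h6⟩
          simp only at h6
          subst h6
          exact ⟨a, by rw [mem_filter, mem_Ico]; exact ⟨⟨h3, h4⟩, h5⟩, rfl⟩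
        · rintro ⟨a', ha', he⟩
          rw [mem_filter, mem_Ico] at ha'
          rw [mem_Icc] at hj
          simp only [Prod.mk.injEq] at he
          obtain ⟨rfl, rfl⟩ := he
          exact ⟨⟨hj.1, hj.2, ha'.1.1, ha'.1.2, ha'.2⟩, rfl⟩
      rw [this, card_image_of_injective]
      intro a a' h
      simpa using h
    · intro x hx
      obtain ⟨j, a⟩ := x
      have hx' := (P.mem_D).1 hx
      simp only [coe_Icc, Set.mem_Icc]
      exact ⟨hx'.1, hx'.2.1⟩
  have h2 : ∀ n, 1 ≤ n → ∑ j ∈ Icc 1 n, (P.rowset j).card + n + P.b 0 = P.b n + 1 := by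
    intro n hn
    induction n, hn using Nat.le_induction with
    | base =>
      rw [Icc_self, sum_singleton, rowset_one, show P.b 1 = P.b 0 + P.gap 0 from rfl]
      omega
    | succ n hn ih =>
      rw [sum_Icc_succ_top (by omega), b_succ]
      have := P.rowset_card (j := n + 1) (by omega)
      rw [Nat.add_sub_cancel] at this
      omega
  rw [h1]
  exact h2 P.R (by rw [R_def]; omega)

/-- the vertex type: columns, rows `2, …, R`, and auxiliary vertices -/
abbrev V : Type := Fin (2 * P.L + 3) ⊕ (Fin (4 * P.r) ⊕ Fin (2 * P.m - P.p))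

lemma card_V : Fintype.card P.V = (2 * P.L + 3) + (4 * P.r + (2 * P.m - P.p)) := by
  simp [V]

lemma card_total : Fintype.card P.V + P.D.card + P.p = P.b P.R + 1 := by
  have h1 := P.D_card
  have h2 := P.hpm
  rw [b_zero, R_def] at h1
  rw [card_V, R_def]
  omega

/-- column vertex -/
def vA (a : ℕ) : P.V := Sum.inl ⟨(a - P.m) % (2 * P.L + 3), Nat.mod_lt _ (by omega)⟩

/-- row vertex -/
def vB (j : ℕ) : P.V := Sum.inr (Sum.inl ⟨(j - 2) % (4 * P.r), Nat.mod_lt _ (by have := P.r_pos; omega)⟩)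

/-- auxiliary vertex -/
def vC (c : ℕ) : P.V := Sum.inr (Sum.inr ⟨c % (2 * P.m - P.p),
  Nat.mod_lt _ (by have := P.hp; have := P.hpm; omega)⟩)

/-- movable vertex -/
def vU (i : ℕ) : P.V := P.vC (P.m + (i - P.p))

/-- The planted labelling with threshold `k`. -/
def f (k : ℕ) : P.V → ℕ
  | Sum.inl a => P.m + a
  | Sum.inr (Sum.inl j) => P.b (j + 2)
  | Sum.inr (Sum.inr c) =>
      if (c : ℕ) = 0 then P.b 1
      else if (c : ℕ) < P.m then P.b P.R - c
      else if (c : ℕ) - P.m + P.p < k then P.b P.R + P.d (c - P.m + P.p) - (c - P.m + P.p)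
      else c - P.m + P.p

lemma f_vA (k : ℕ) {a : ℕ} (h1 : P.m ≤ a) (h2 : a ≤ P.m + 2 * P.L + 2) : P.f k (P.vA a) = a := by
  unfold vA f
  simp only
  rw [Nat.mod_eq_of_lt (by omega)]
  omega

lemma f_vB (k : ℕ) {j : ℕ} (h1 : 2 ≤ j) (h2 : j ≤ P.R) : P.f k (P.vB j) = P.b j := by
  unfold vB f
  simp only
  rw [Nat.mod_eq_of_lt (by rw [R_def] at h2; omega), Nat.sub_add_cancel h1]

lemma f_vC_zero (k : ℕ) : P.f k (P.vC 0) = P.b 1 := by
  unfold vC f
  simp

lemma f_vO (k : ℕ) {c : ℕ} (h1 : 1 ≤ c) (h2 : c < P.m) : P.f k (P.vC c) = P.b P.R - c := by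
  unfold vC f
  have := P.hpm
  simp only
  rw [Nat.mod_eq_of_lt (by omega), if_neg (by omega), if_pos h2]

lemma f_vU (k : ℕ) {i : ℕ} (h1 : P.p ≤ i) (h2 : i < P.m) :
    P.f k (P.vU i) = if i < k then P.b P.R + P.d i - i else i := by
  unfold vU vC f
  have := P.hpm
  have := P.hp
  simp only
  rw [Nat.mod_eq_of_lt (by omega), if_neg (by omega), if_neg (by omega),
    show P.m + (i - P.p) - P.m + P.p = i by omega]

/-- every vertex is of one of the five kinds -/
lemma V_cases (v : P.V) : (∃ a, P.m ≤ a ∧ a ≤ P.m + 2 * P.L + 2 ∧ v = P.vA a) ∨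
    (∃ j, 2 ≤ j ∧ j ≤ P.R ∧ v = P.vB j) ∨ v = P.vC 0 ∨ (∃ c, 1 ≤ c ∧ c < P.m ∧ v = P.vC c) ∨
    (∃ i, P.p ≤ i ∧ i < P.m ∧ v = P.vU i) := by
  have hpm := P.hpm
  have hp := P.hp
  rcases v with a | j | c
  · left
    refine ⟨P.m + a, by omega, by omega, ?_⟩
    unfold vA
    congr 1
    ext
    simp only
    rw [Nat.mod_eq_of_lt (by omega)]
    omega
  · right; left
    refine ⟨j + 2, by omega, by rw [R_def]; omega, ?_⟩
    unfold vB
    congr 2
    ext
    simp only
    rw [Nat.mod_eq_of_lt (by omega)]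
    omega
  · right; right
    rcases Nat.eq_zero_or_pos (c : ℕ) with h | h
    · left
      unfold vC
      congr 2
      ext
      simp only
      rw [Nat.mod_eq_of_lt (by omega)]
      exact h
    · right
      rcases Nat.lt_or_ge (c : ℕ) P.m with h' | h'
      · left
        refine ⟨c, h, h', ?_⟩
        unfold vC
        congr 2
        ext
        simp only
        rw [Nat.mod_eq_of_lt (by omega)]
      · right
        refine ⟨c - P.m + P.p, by omega, by omega, ?_⟩
        unfold vU vC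
        congr 2
        ext
        simp only
        rw [Nat.mod_eq_of_lt (by omega)]
        omega

/-! ### special indices -/

/-- first partner row of the `n`-th pair of the movable vertex `i` -/
def xn (n i : ℕ) : ℕ := n * (P.L + 1) + (2 * P.m + 2 - P.d i)

/-- distance of the second partner row from the top -/
def inn (n i : ℕ) : ℕ := n * P.L + (2 * P.m + 5 - P.d i)

/-- second partner row -/
def yn (n i : ℕ) : ℕ := P.R - P.inn n i

/-- validity of the pair number `n` and the vertex `i` -/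
def ok (n i : ℕ) : Prop := P.p ≤ i ∧ i < P.m ∧ 20 ≤ n ∧ n ≤ 20 + P.K

lemma xn_bd {n i : ℕ} (h : P.ok n i) :
    20 * P.L ≤ P.xn n i ∧ P.xn n i + 8 ≤ P.ρ := by
  obtain ⟨h1, h2, h3, h4⟩ := h
  have hd := P.hd i h1 h2
  have hρ := P.ρ_ge
  unfold xn
  have e1 : n * (P.L + 1) ≤ (20 + P.K) * (P.L + 1) := Nat.mul_le_mul_right _ h4
  have e2 : 20 * (P.L + 1) ≤ n * (P.L + 1) := Nat.mul_le_mul_right _ h3
  have e3 : (20 + P.K) * (P.L + 1) = 20 * P.L + P.K * P.L + P.K + 20 := by ring
  omega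

lemma inn_bd {n i : ℕ} (h : P.ok n i) :
    20 * P.L ≤ P.inn n i ∧ P.inn n i + 8 ≤ P.ρ := by
  obtain ⟨h1, h2, h3, h4⟩ := h
  have hd := P.hd i h1 h2
  have hρ := P.ρ_ge
  unfold inn
  have e1 : n * P.L ≤ (20 + P.K) * P.L := Nat.mul_le_mul_right _ h4
  have e2 : 20 * P.L ≤ n * P.L := Nat.mul_le_mul_right _ h3
  have e3 : (20 + P.K) * P.L = 20 * P.L + P.K * P.L := by ring
  omega

lemma yn_spec {n i : ℕ} (h : P.ok n i) : P.yn n i + P.inn n i = P.R := by
  have h1 := P.inn_bd h
  have h2 := P.r_def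
  have h3 := P.R_def
  unfold yn
  omega

/-- the two rows of a pair have the right sum -/
lemma pair_sum {n i : ℕ} (h : P.ok n i) :
    P.b (P.xn n i) + P.b (P.yn n i) = P.b P.R + P.d i := by
  have h1 := P.xn_bd h
  have h2 := P.inn_bd h
  have h3 := P.r_def
  have h4 := P.L_pos
  have e1 := P.b_run1 (P.xn n i - 1) (by omega)
  rw [show 1 + (P.xn n i - 1) = P.xn n i by omega] at e1
  have e2 := P.b_top (P.inn n i) (by omega)
  rw [show P.R - P.inn n i = P.yn n i from rfl] at e2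
  obtain ⟨h5, h6, h7, h8⟩ := h
  have hd := P.hd i h5 h6
  have key : (P.xn n i - 1) * P.L + (2 * P.m + 4 * P.L + 5) = P.inn n i * (P.L + 1) + P.d i := by
    obtain ⟨x, hx⟩ : ∃ x, P.xn n i = x + 1 := ⟨P.xn n i - 1, by omega⟩
    rw [hx, Nat.add_sub_cancel]
    unfold xn at hx
    unfold inn
    obtain ⟨u, hu⟩ : ∃ u, 2 * P.m + 2 = u + P.d i := ⟨2 * P.m + 2 - P.d i, by omega⟩
    have hu1 : 2 * P.m + 2 - P.d i = u := by omega
    have hu2 : 2 * P.m + 5 - P.d i = u + 3 := by omega
    rw [hu1] at hx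
    rw [hu2]
    have : x = n * (P.L + 1) + u - 1 := by omega
    have hx' : (x : ℤ) = n * (P.L + 1) + u - 1 := by
      have : (x : ℤ) + 1 = n * (P.L + 1) + u := by exact_mod_cast hx.symm
      linarith
    have hd' : (P.d i : ℤ) = 2 * P.m + 2 - u := by
      have : (2 * P.m + 2 : ℤ) = u + P.d i := by exact_mod_cast hu
      linarith
    zify
    rw [hx', hd']
    ring
  omega

end Par

end Pool.Agent.helper11.Seq
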