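import Pool.Agent.helper11.Cons2

set_option autoImplicit false

namespace Pool.Agent.helper11.Seq

open Finset

namespace Par

variable (P : Par)

def isU1 (n i j a : ℕ) : Prop := P.ok n i ∧ j = P.xn n i + 1 ∧ a = P.L + i

def isU2 (n i j a : ℕ) : Prop := P.ok n i ∧ j = P.yn n i + 1 ∧ a = P.L + 1 + i

/-- fixed attachments of the movable vertices -/
def isAtt (j a : ℕ) : Prop := ∃ i, P.isU1 20 i j a ∨ P.isU2 20 i j a

/-- optional attachments of the movable vertices -/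
def isPin (j a : ℕ) : Prop := ∃ n i, 21 ≤ n ∧ (P.isU1 n i j a ∨ P.isU2 n i j a)

def iOf (j a : ℕ) : ℕ := if j ≤ 2 * P.r then a - P.L else a - (P.L + 1)

/-- the middle third of each run -/
def clean (j : ℕ) : Prop := ∃ q < 4, q * P.r + 1 + P.ρ ≤ j ∧ j < q * P.r + 1 + 2 * P.ρ

/-- shift tests -/
def T1 (j a : ℕ) : Prop := 2 ≤ j ∧ j ≤ 4 * P.r ∧ P.m ≤ a ∧
  ((a < P.L ∧ a ≠ 2 * P.m + 5) ∨ (P.clean j ∧ a ≤ P.m + P.L ∧ a < P.m + P.gap (j - 1) ∧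
    a + P.gap j ≤ P.m + 2 * P.L + 2 ∧ a ≠ P.gap (j - 1)))

/-- tie tests -/
def T2 (j a : ℕ) : Prop := 3 ≤ j ∧ j ≤ P.K + 2 ∧ a = 2 * P.m + 5

lemma isU1_row {n i j a : ℕ} (h : P.isU1 n i j a) :
    20 * P.L < j ∧ j + 7 ≤ P.ρ ∧ P.L + 1 ≤ a ∧ a < P.L + P.m ∧ a = P.L + i ∧ j - 1 = P.xn n i := by
  obtain ⟨h1, h2, h3⟩ := h
  have h4 := P.xn_bd h1
  have h5 := P.hp
  obtain ⟨h6, h7, -, -⟩ := h1
  omega

lemma isU2_row {n i j a : ℕ} (h : P.isU2 n i j a) :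
    j + 20 * P.L ≤ P.R + 1 ∧ P.R + 9 ≤ j + P.ρ ∧ P.L + 2 ≤ a ∧ a < P.L + 1 + P.m ∧ a = P.L + 1 + i ∧
      j - 1 = P.yn n i := by
  obtain ⟨h1, h2, h3⟩ := h
  have h4 := P.inn_bd h1
  have h4' := P.yn_spec h1
  have h5 := P.hp
  obtain ⟨h6, h7, -, -⟩ := h1
  omega

lemma iOf_U1 {n i j a : ℕ} (h : P.isU1 n i j a) : P.iOf j a = i := by
  have h1 := P.isU1_row h
  have h2 := P.r_def
  unfold iOf
  rw [if_pos (by omega)]
  omega

lemma iOf_U2 {n i j a : ℕ} (h : P.isU2 n i j a) : P.iOf j a = i := by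
  have h1 := P.isU2_row h
  have h2 := P.r_def
  have h3 := P.R_def
  have h4 := P.ρ_big
  unfold iOf
  rw [if_neg (by omega)]
  omega

lemma not_U1_U2 {n i n' i' j a : ℕ} (h : P.isU1 n i j a) (h' : P.isU2 n' i' j a) : False := by
  have h1 := P.isU1_row h
  have h2 := P.isU2_row h'
  have h3 := P.r_def
  have h4 := P.R_def
  have h5 := P.ρ_big
  omega

lemma U1_unique {n i n' i' j a : ℕ} (h : P.isU1 n i j a) (h' : P.isU1 n' i' j a) : n = n' ∧ i = i' := by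
  have hi : i = i' := by have := P.iOf_U1 h; have := P.iOf_U1 h'; omega
  subst hi
  obtain ⟨-, h1, -⟩ := h
  obtain ⟨-, h2, -⟩ := h'
  rw [h1] at h2
  unfold xn at h2
  have h3 : n * (P.L + 1) = n' * (P.L + 1) := by omega
  exact ⟨Nat.eq_of_mul_eq_mul_right (by omega) h3, rfl⟩

lemma U2_unique {n i n' i' j a : ℕ} (h : P.isU2 n i j a) (h' : P.isU2 n' i' j a) : n = n' ∧ i = i' := by
  have hi : i = i' := by have := P.iOf_U2 h; have := P.iOf_U2 h'; omega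
  subst hi
  obtain ⟨ho, h1, -⟩ := h
  obtain ⟨ho', h2, -⟩ := h'
  have e1 := P.yn_spec ho
  have e2 := P.yn_spec ho'
  have e3 : P.inn n i = P.inn n' i := by omega
  unfold inn at e3
  have h3 : n * P.L = n' * P.L := by omega
  exact ⟨Nat.eq_of_mul_eq_mul_right P.L_pos h3, rfl⟩

lemma U1_mem_D {n i j a : ℕ} (h : P.isU1 n i j a) : (j, a) ∈ P.D := by
  have h1 := P.isU1_row h
  have h3 := P.r_def
  have h4 := P.R_def
  have h6 := P.hL
  have h5 := P.gap_run1 (j := j - 1) (by omega) (by omega)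
  rw [mem_D, h5]
  refine ⟨by omega, by omega, by omega, by omega, by omega⟩

lemma U2_mem_D {n i j a : ℕ} (h : P.isU2 n i j a) : (j, a) ∈ P.D := by
  have h1 := P.isU2_row h
  have h3 := P.r_def
  have h4 := P.R_def
  have h5 := P.gap_run4 (j := j - 1) (by omega)
  have h6 := P.hL
  have h7 := P.ρ_big
  rw [mem_D, h5]
  refine ⟨by omega, by omega, by omega, by omega, by omega⟩

/-- the label of a first attachment -/
lemma lbl_U1 {n i j a : ℕ} (h : P.isU1 n i j a) : P.lbl (j, a) + i = P.b (P.xn n i) := by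
  have h0 := P.lbl_spec (P.U1_mem_D h)
  have h1 := P.isU1_row h
  have h3 := P.r_def
  have h6 := P.hL
  have h5 := P.gap_run1 (j := j - 1) (by omega) (by omega)
  have e : P.b j = P.b (j - 1) + P.gap (j - 1) := by
    conv_lhs => rw [show j = (j - 1) + 1 by omega]
    rfl
  rw [h5, h1.2.2.2.2.2] at e
  omega

lemma lbl_U2 {n i j a : ℕ} (h : P.isU2 n i j a) : P.lbl (j, a) + i = P.b (P.yn n i) := by
  have h0 := P.lbl_spec (P.U2_mem_D h)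
  have h1 := P.isU2_row h
  have h3 := P.r_def
  have h4 := P.R_def
  have h7 := P.ρ_big
  have h5 := P.gap_run4 (j := j - 1) (by omega)
  have e : P.b j = P.b (j - 1) + P.gap (j - 1) := by
    conv_lhs => rw [show j = (j - 1) + 1 by omega]
    rfl
  rw [h5, h1.2.2.2.2.2] at e
  omega

lemma T1_not_U {j a : ℕ} (h : P.T1 j a) (n i : ℕ) : ¬ (P.isU1 n i j a ∨ P.isU2 n i j a) := by
  obtain ⟨h1, h2, h3, h4⟩ := h
  have h6 := P.r_def
  have h7 := P.R_def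
  have h8 := P.ρ_big
  rintro (h | h)
  · have h5 := P.isU1_row h
    rcases h4 with ⟨h4, -⟩ | ⟨⟨q, hq, hq1, hq2⟩, -⟩
    · omega
    · interval_cases q <;> omega
  · have h5 := P.isU2_row h
    rcases h4 with ⟨h4, -⟩ | ⟨⟨q, hq, hq1, hq2⟩, -⟩
    · omega
    · interval_cases q <;> omega

lemma T1_not_att {j a : ℕ} (h : P.T1 j a) : ¬ P.isAtt j a := by
  rintro ⟨i, hi⟩
  exact P.T1_not_U h 20 i hi

lemma T1_not_pin {j a : ℕ} (h : P.T1 j a) : ¬ P.isPin j a := by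
  rintro ⟨n, i, -, hi⟩
  exact P.T1_not_U h n i hi

lemma T2_not_U {j a : ℕ} (h : P.T2 j a) (n i : ℕ) : ¬ (P.isU1 n i j a ∨ P.isU2 n i j a) := by
  obtain ⟨h1, h2, h3⟩ := h
  have h8 := P.hL
  rintro (h | h)
  · have h5 := P.isU1_row h
    omega
  · have h5 := P.isU2_row h
    omega

lemma T2_not_T1 {j a : ℕ} (h : P.T2 j a) : ¬ P.T1 j a := by
  obtain ⟨h1, h2, h3⟩ := h
  rintro ⟨h4, h5, h6, h7 | ⟨⟨q, hq, hq1, hq2⟩, -⟩⟩
  · exact h7.2 h3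
  · have h9 := P.ρ_ge
    have h0 : P.K * P.L = P.K * P.L := rfl
    have h10 : 0 ≤ P.K * P.L := Nat.zero_le _
    have h8 : 0 ≤ q * P.r := Nat.zero_le _
    omega

lemma T1_mem_D {j a : ℕ} (h : P.T1 j a) : (j, a) ∈ P.D := by
  obtain ⟨h1, h2, h3, h4⟩ := h
  have h5 := P.gap_ge (j - 1)
  have h6 := P.R_def
  rw [mem_D]
  rcases h4 with ⟨h4, h4'⟩ | ⟨-, h4, h4', -, h4''⟩
  · exact ⟨by omega, by omega, h3, by omega, fun _ => by omega⟩
  · exact ⟨by omega, by omega, h3, h4', fun _ => h4''⟩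

lemma T2_mem_D {j a : ℕ} (h : P.T2 j a) : (j, a) ∈ P.D := by
  obtain ⟨h1, h2, h3⟩ := h
  have h5 := P.gap_ge (j - 1)
  have h6 := P.R_def
  have h7 := P.r_def
  have h8 := P.hL
  have h9 := P.ρ_big
  rw [mem_D]
  exact ⟨by omega, by omega, by omega, by omega, fun _ => by omega⟩

open Classical in
/-- first option of an index -/
noncomputable def e0 (x : ℕ × ℕ) : P.V × P.V :=
  if P.isAtt x.1 x.2 then (P.vU (P.iOf x.1 x.2), P.vB (x.1 - 1))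
  else if x.1 = 1 then (P.vA x.2, P.vC 0)
  else if x.1 = P.R ∧ P.m + 1 ≤ x.2 ∧ x.2 ≤ 2 * P.m - 1 then (P.vA P.m, P.vC (x.2 - P.m))
  else (P.vA x.2, P.vB x.1)

open Classical in
/-- second option of an index -/
noncomputable def e1 (x : ℕ × ℕ) : P.V × P.V :=
  if P.T1 x.1 x.2 then (P.vA (x.2 + P.gap x.1), P.vB (x.1 + 1))
  else if P.T2 x.1 x.2 then (P.vB 2, P.vB (x.1 + 5))
  else if P.isPin x.1 x.2 then (P.vU (P.iOf x.1 x.2), P.vB (x.1 - 1))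
  else P.e0 x

open Classical in
/-- the slot controlling an index -/
noncomputable def slot (x : ℕ × ℕ) : ℕ × ℕ :=
  if h : ∃ q : ℕ × ℕ, 21 ≤ q.1 ∧ P.isU2 q.1 q.2 x.1 x.2 then
    (P.xn h.choose.1 h.choose.2 + 1, P.L + h.choose.2)
  else x

open Classical in
noncomputable def ends (X : Finset (ℕ × ℕ)) (x : ℕ × ℕ) : P.V × P.V :=
  if P.slot x ∈ X then P.e1 x else P.e0 x

lemma slot_U2 {n i j a : ℕ} (hn : 21 ≤ n) (h : P.isU2 n i j a) :
    P.slot (j, a) = (P.xn n i + 1, P.L + i) := by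
  unfold slot
  have hex : ∃ q : ℕ × ℕ, 21 ≤ q.1 ∧ P.isU2 q.1 q.2 j a := ⟨(n, i), hn, h⟩
  rw [dif_pos hex]
  obtain ⟨h1, h2⟩ := hex.choose_spec
  obtain ⟨h3, h4⟩ := P.U2_unique h h2
  simp only at h3 h4 ⊢
  rw [← h3, ← h4]

lemma slot_of_not {x : ℕ × ℕ} (h : ∀ n i, 21 ≤ n → ¬ P.isU2 n i x.1 x.2) : P.slot x = x := by
  unfold slot
  rw [dif_neg]
  rintro ⟨q, h1, h2⟩
  exact h _ _ h1 h2

lemma slot_U1 {n i j a : ℕ} (h : P.isU1 n i j a) : P.slot (j, a) = (j, a) :=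
  P.slot_of_not (fun _ _ _ h' => P.not_U1_U2 h h')

lemma slot_T1 {j a : ℕ} (h : P.T1 j a) : P.slot (j, a) = (j, a) :=
  P.slot_of_not (fun n i _ h' => P.T1_not_U h n i (Or.inr h'))

lemma slot_T2 {j a : ℕ} (h : P.T2 j a) : P.slot (j, a) = (j, a) :=
  P.slot_of_not (fun n i _ h' => P.T2_not_U h n i (Or.inr h'))

lemma slot_mem {x : ℕ × ℕ} (hx : x ∈ P.D) : P.slot x ∈ P.D := by
  by_cases h : ∃ n i, 21 ≤ n ∧ P.isU2 n i x.1 x.2
  · obtain ⟨n, i, hn, h⟩ := h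
    have := P.slot_U2 hn h
    rw [show (x.1, x.2) = x from rfl] at this
    rw [this]
    exact P.U1_mem_D (n := n) (i := i) ⟨h.1, rfl, rfl⟩
  · push Not at h
    rw [P.slot_of_not h]
    exact hx

/-- an edge whose label does not depend on the planted labelling -/
def Plain (e : P.V × P.V) (t : ℕ) : Prop :=
  (∃ a j, P.m ≤ a ∧ a ≤ P.m + 2 * P.L + 2 ∧ 2 ≤ j ∧ j ≤ P.R ∧ t + a = P.b j ∧
    e = (P.vA a, P.vB j)) ∨
  (∃ a, P.m ≤ a ∧ a ≤ P.m + 2 * P.L + 2 ∧ t + a = P.b 1 ∧ e = (P.vA a, P.vC 0)) ∨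
  (∃ c, 1 ≤ c ∧ c < P.m ∧ t + P.m + c = P.b P.R ∧ e = (P.vA P.m, P.vC c)) ∨
  (∃ i j, 2 ≤ i ∧ i ≤ P.R ∧ 2 ≤ j ∧ j ≤ P.R ∧ t + P.b i = P.b j ∧ e = (P.vB i, P.vB j))

lemma plain_label {e : P.V × P.V} {t : ℕ} (h : P.Plain e t) (k : ℕ) :
    Int.natAbs ((P.f k e.1 : ℤ) - (P.f k e.2 : ℤ)) = t := by
  rcases h with ⟨a, j, h1, h2, h3, h4, h5, rfl⟩ | ⟨a, h1, h2, h5, rfl⟩ | ⟨c, h1, h2, h5, rfl⟩ |
    ⟨i, j, h1, h2, h3, h4, h5, rfl⟩
  · simp only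
    rw [P.f_vA k h1 h2, P.f_vB k h3 h4]
    omega
  · simp only
    rw [P.f_vA k h1 h2, P.f_vC_zero k]
    omega
  · simp only
    rw [P.f_vA k le_rfl (by omega), P.f_vO k h1 h2]
    omega
  · simp only
    rw [P.f_vB k h1 h2, P.f_vB k h3 h4]
    omega

lemma e0_plain {x : ℕ × ℕ} (hx : x ∈ P.D) (h : ¬ P.isAtt x.1 x.2) : P.Plain (P.e0 x) (P.lbl x) := by
  obtain ⟨j, a⟩ := x
  have hs := P.lbl_spec hx
  rw [mem_D] at hx
  obtain ⟨h1, h2, h3, h4, h5⟩ := hx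
  have hg := P.gap_le' (j - 1)
  unfold e0
  simp only
  rw [if_neg h]
  split_ifs with c1 c2
  · subst c1
    exact Or.inr (Or.inl ⟨a, h3, by omega, hs.1, rfl⟩)
  · obtain ⟨c2, c3, c4⟩ := c2
    subst c2
    exact Or.inr (Or.inr (Or.inl ⟨a - P.m, by omega, by omega, by omega, rfl⟩))
  · have := P.gap_le (j - 1)
    exact Or.inl ⟨a, j, h3, by omega, by omega, h2, hs.1, rfl⟩

lemma b_tie {j : ℕ} (h : P.T2 j (2 * P.m + 5)) :
    P.b (j + 5) + (2 * P.m + 5) = P.b j + P.b 2 := by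
  obtain ⟨h1, h2, h3⟩ := h
  have h5 := P.r_def
  have h9 := P.ρ_ge
  have h10 : 0 ≤ P.K * P.L := Nat.zero_le _
  have e1 := P.b_run1 (j - 1) (by omega)
  have e2 := P.b_run1 (j + 4) (by omega)
  have e3 := P.b_run1 1 (by omega)
  rw [show 1 + (j - 1) = j by omega] at e1
  rw [show 1 + (j + 4) = j + 5 by omega] at e2
  rw [show 1 + 1 = 2 from rfl] at e3
  obtain ⟨u, hu⟩ : ∃ u, j = u + 1 := ⟨j - 1, by omega⟩
  subst hu
  rw [Nat.add_sub_cancel] at e1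
  rw [e1, e2, e3]
  ring

lemma e1_plain {x : ℕ × ℕ} (hx : x ∈ P.D) (h : ¬ P.isAtt x.1 x.2) (h' : ¬ P.isPin x.1 x.2) :
    P.Plain (P.e1 x) (P.lbl x) := by
  obtain ⟨j, a⟩ := x
  have hs := P.lbl_spec hx
  have hR := P.R_def
  unfold e1
  simp only
  split_ifs with c1 c2
  · obtain ⟨h1, h2, h3, h4⟩ := c1
    have hg := P.gap_le j (by omega)
    have hL := P.hL
    refine Or.inl ⟨a + P.gap j, j + 1, by omega, ?_, by omega, by omega, ?_, rfl⟩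
    · rcases h4 with ⟨h4, -⟩ | ⟨-, -, -, h4, -⟩
      · have := P.hp; have := P.hpm; omega
      · omega
    · rw [b_succ]; omega
  · obtain ⟨h1, h2, h3⟩ := c2
    subst h3
    have := P.b_tie ⟨h1, h2, rfl⟩
    have h5 := P.r_def
    have h9 := P.ρ_ge
    have h10 : 0 ≤ P.K * P.L := Nat.zero_le _
    exact Or.inr (Or.inr (Or.inr ⟨2, j + 5, by omega, by omega, by omega, by omega, by omega, rfl⟩))
  · exact P.e0_plain hx h

end Par

end Pool.Agent.helper11.Seq
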