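import Mathlib

set_option autoImplicit false

/-!
Counting exact covers: every slot `c` of a finite set `S` offers two options, the multisets `A c` and
`B c` (of equal size).  The number of choices whose union is exactly a given set `T` is at most
`2 ^ (|S| - |J| / 2)`, where `J` is the set of slots whose two options differ.
-/

namespace Pool.Agent.helper11.ExactCover

open Finset

variable {ι : Type*} [DecidableEq ι]

/-- Total multiset of the slots in `S`: slot `c` contributes `B c` if `c ∈ X` and `A c` otherwise. -/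
def tot (A B : ι → Multiset ℕ) (S X : Finset ι) : Multiset ℕ :=
  ∑ c ∈ S, (if c ∈ X then B c else A c)

/-- Number of choices giving exactly the multiset `T`. -/
def cnt (A B : ι → Multiset ℕ) (S : Finset ι) (T : Multiset ℕ) : ℕ :=
  (S.powerset.filter (fun X => tot A B S X = T)).card

variable (A B : ι → Multiset ℕ)

lemma tot_insert_notMem {S X : Finset ι} {c : ι} (hc : c ∉ S) (hX : c ∉ X) :
    tot A B (insert c S) X = A c + tot A B S X := by
  unfold tot
  rw [sum_insert hc, if_neg hX]

lemma tot_insert_mem {S X : Finset ι} {c : ι} (hc : c ∉ S) :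
    tot A B (insert c S) (insert c X) = B c + tot A B S X := by
  unfold tot
  rw [sum_insert hc, if_pos (mem_insert_self c X)]
  congr 1
  refine sum_congr rfl fun c' hc' => ?_
  have : c' ≠ c := fun h => hc (h ▸ hc')
  simp [this]

lemma part_eq (M : Multiset ℕ) (S : Finset ι) (T : Multiset ℕ) :
    (S.powerset.filter (fun X => M + tot A B S X = T)).card =
      if M ≤ T then cnt A B S (T - M) else 0 := by
  split_ifs with h
  · unfold cnt
    congr 1
    refine filter_congr fun X _ => ?_
    constructor
    · intro h1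
      rw [← h1, add_tsub_cancel_left]
    · intro h1
      rw [h1, add_tsub_cancel_of_le h]
  · rw [card_eq_zero, filter_eq_empty_iff]
    intro X _ h1
    exact h (h1 ▸ Multiset.le_add_right _ _)

lemma cnt_insert {S : Finset ι} {c : ι} (hc : c ∉ S) (T : Multiset ℕ) :
    cnt A B (insert c S) T =
      (if A c ≤ T then cnt A B S (T - A c) else 0) + (if B c ≤ T then cnt A B S (T - B c) else 0) := by
  rw [← part_eq, ← part_eq]
  unfold cnt
  rw [powerset_insert, filter_union, card_union_of_disjoint]
  · congr 1
    · congr 1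
      refine filter_congr fun X hX => ?_
      have : c ∉ X := fun h => hc (mem_powerset.1 hX h)
      rw [tot_insert_notMem A B hc this]
    · rw [filter_image, card_image_of_injOn]
      · congr 1
        refine filter_congr fun X hX => ?_
        rw [tot_insert_mem A B hc]
      · intro X hX Y hY h
        have hX' : c ∉ X := fun h => hc (mem_powerset.1 (mem_filter.1 hX).1 h)
        have hY' : c ∉ Y := fun h => hc (mem_powerset.1 (mem_filter.1 hY).1 h)
        have := congrArg (fun Z => Z.erase c) h
        simpa [erase_insert hX', erase_insert hY'] using this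
  · rw [disjoint_left]
    intro X hX hX'
    have h1 : c ∉ X := fun h => hc (mem_powerset.1 (mem_filter.1 hX).1 h)
    obtain ⟨Y, -, rfl⟩ := mem_image.1 (mem_filter.1 hX').1
    exact h1 (mem_insert_self _ _)

lemma cnt_erase {S : Finset ι} {c : ι} (hc : c ∈ S) (T : Multiset ℕ) :
    cnt A B S T =
      (if A c ≤ T then cnt A B (S.erase c) (T - A c) else 0) +
      (if B c ≤ T then cnt A B (S.erase c) (T - B c) else 0) := by
  conv_lhs => rw [← insert_erase hc]
  exact cnt_insert A B (notMem_erase c S) T

lemma cnt_le (S : Finset ι) (T : Multiset ℕ) : cnt A B S T ≤ 2 ^ S.card := by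
  unfold cnt
  exact (card_filter_le _ _).trans (by rw [card_powerset])

lemma cnt_eq_zero {S : Finset ι} {T : Multiset ℕ} {t : ℕ} (ht : t ∈ T)
    (h : ∀ c ∈ S, t ∉ A c ∧ t ∉ B c) : cnt A B S T = 0 := by
  unfold cnt
  rw [card_eq_zero, filter_eq_empty_iff]
  intro X _ h1
  rw [← h1] at ht
  unfold tot at ht
  rw [Multiset.mem_sum] at ht
  obtain ⟨c, hc, hct⟩ := ht
  split_ifs at hct
  · exact (h c hc).2 hct
  · exact (h c hc).1 hct

/-- degree of a label -/
def deg (S : Finset ι) (t : ℕ) : ℕ := ∑ c ∈ S, ((A c).count t + (B c).count t)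

lemma deg_erase {S : Finset ι} {c : ι} (hc : c ∈ S) (t : ℕ) :
    deg A B S t = ((A c).count t + (B c).count t) + deg A B (S.erase c) t := by
  unfold deg
  exact (add_sum_erase S (fun c => (A c).count t + (B c).count t) hc).symm

omit [DecidableEq ι] in
lemma deg_zero {S : Finset ι} {t : ℕ} (h : deg A B S t = 0) : ∀ c ∈ S, t ∉ A c ∧ t ∉ B c := by
  intro c hc
  unfold deg at h
  rw [sum_eq_zero_iff] at h
  have := h c hc
  constructor <;> rw [← Multiset.count_eq_zero] <;> omega

omit [DecidableEq ι] in
lemma sum_deg {S : Finset ι} {T : Multiset ℕ} (h : ∀ c ∈ S, A c ≤ T ∧ B c ≤ T) :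
    ∑ t ∈ T.toFinset, deg A B S t = ∑ c ∈ S, ((A c).card + (B c).card) := by
  unfold deg
  rw [sum_comm]
  refine sum_congr rfl fun c hc => ?_
  rw [sum_add_distrib]
  have key : ∀ M : Multiset ℕ, M ≤ T → ∑ t ∈ T.toFinset, M.count t = M.card := by
    intro M hM
    rw [← Multiset.toFinset_sum_count_eq M]
    symm
    refine sum_subset ?_ ?_
    · exact Multiset.toFinset_subset.2 (Multiset.subset_of_le hM)
    · intro t _ ht
      rw [Multiset.count_eq_zero]
      simpa using ht
  rw [key _ (h c hc).1, key _ (h c hc).2]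

/-- The set of slots whose two options differ. -/
def J (S : Finset ι) : Finset ι := S.filter (fun c => A c ≠ B c)

lemma J_card_erase {S : Finset ι} (c : ι) : (J A B S).card ≤ (J A B (S.erase c)).card + 1 := by
  unfold J
  rw [filter_erase]
  have := pred_card_le_card_erase (s := S.filter (fun c => A c ≠ B c)) (a := c)
  omega

/-- one forced slot -/
lemma step_one {n a J J' : ℕ} (hJ : J ≤ J' + 1) (h : a ^ 2 * 2 ^ J' ≤ 4 ^ n) :
    a ^ 2 * 2 ^ J ≤ 4 ^ (n + 1) := by
  calc a ^ 2 * 2 ^ J ≤ a ^ 2 * 2 ^ (J' + 1) :=
        Nat.mul_le_mul_left _ (Nat.pow_le_pow_right (by norm_num) hJ)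
    _ = 2 * (a ^ 2 * 2 ^ J') := by ring
    _ ≤ 2 * 4 ^ n := Nat.mul_le_mul_left _ h
    _ ≤ 4 ^ (n + 1) := by rw [pow_succ]; omega

lemma step_two {n a b J J' : ℕ} (hJ : J ≤ J' + 2) (ha : a ^ 2 * 2 ^ J' ≤ 4 ^ n)
    (hb : b ^ 2 * 2 ^ J' ≤ 4 ^ n) : (a + b) ^ 2 * 2 ^ J ≤ 4 ^ (n + 2) := by
  have h1 : (a + b) ^ 2 ≤ 2 * (a ^ 2 + b ^ 2) := by
    zify
    nlinarith [sq_nonneg ((a : ℤ) - b)]
  calc (a + b) ^ 2 * 2 ^ J ≤ (2 * (a ^ 2 + b ^ 2)) * 2 ^ (J' + 2) :=
        Nat.mul_le_mul h1 (Nat.pow_le_pow_right (by norm_num) hJ)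
    _ = 8 * (a ^ 2 * 2 ^ J' + b ^ 2 * 2 ^ J') := by ring
    _ ≤ 8 * (4 ^ n + 4 ^ n) := Nat.mul_le_mul_left _ (by omega)
    _ = 4 ^ (n + 2) := by ring

theorem main : ∀ (n : ℕ) (S : Finset ι) (T : Multiset ℕ), S.card = n → T.Nodup →
    (∀ c ∈ S, (A c).card = (B c).card) → ∑ c ∈ S, (A c).card = T.card →
    (cnt A B S T) ^ 2 * 2 ^ (J A B S).card ≤ 4 ^ n := by
  intro n
  induction n using Nat.strong_induction_on with
  | _ n ih =>
  intro S T hS hT hAB hsum
  -- forced slot, general step: the count is at most that after removing `c` with option `M`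
  have forced : ∀ c ∈ S, ∀ M : Multiset ℕ, (M = A c ∨ M = B c) → M ≤ T →
      cnt A B S T = cnt A B (S.erase c) (T - M) → (cnt A B S T) ^ 2 * 2 ^ (J A B S).card ≤ 4 ^ n := by
    intro c hc M hM hMT hcnt
    have hpos : 0 < S.card := card_pos.2 ⟨c, hc⟩
    have hn : n = (n - 1) + 1 := by omega
    have hcard : (S.erase c).card = n - 1 := by rw [card_erase_of_mem hc, hS]
    have hMc : M.card = (A c).card := by
      rcases hM with rfl | rfl
      · rfl
      · exact (hAB c hc).symm
    rw [hcnt, hn]
    refine step_one (J_card_erase A B c) ?_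
    refine ih (n - 1) (by omega) _ _ hcard (Multiset.nodup_of_le (Multiset.sub_le_self _ _) hT)
      (fun c' hc' => hAB c' (mem_of_mem_erase hc')) ?_
    rw [Multiset.card_sub hMT, ← hsum, ← add_sum_erase _ _ hc, hMc]
    omega
  have hzero : cnt A B S T = 0 → (cnt A B S T) ^ 2 * 2 ^ (J A B S).card ≤ 4 ^ n := by
    intro h; rw [h]; simp
  by_cases hle : ∀ c ∈ S, A c ≤ T ∧ B c ≤ T
  swap
  · push Not at hle
    obtain ⟨c, hc, hc'⟩ := hle
    have e := cnt_erase A B hc T
    by_cases hA : A c ≤ T
    · have hB := hc' hA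
      rw [if_pos hA, if_neg hB, add_zero] at e
      exact forced c hc _ (Or.inl rfl) hA e
    · rw [if_neg hA, zero_add] at e
      by_cases hB : B c ≤ T
      · rw [if_pos hB] at e
        exact forced c hc _ (Or.inr rfl) hB e
      · rw [if_neg hB] at e
        exact hzero e
  by_cases hdeg : ∃ t ∈ T, deg A B S t ≤ 1
  · obtain ⟨t, htT, ht⟩ := hdeg
    rcases Nat.lt_or_ge (deg A B S t) 1 with h0 | h1
    · exact hzero (cnt_eq_zero A B htT (deg_zero A B (by omega)))
    · have h1 : deg A B S t = 1 := by omega
      -- a slot containing t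
      obtain ⟨c, hc, hct⟩ : ∃ c ∈ S, (A c).count t + (B c).count t ≠ 0 := by
        by_contra hcon
        push Not at hcon
        have : deg A B S t = 0 := by unfold deg; exact sum_eq_zero hcon
        omega
      have e1 := deg_erase A B hc t
      have hz : deg A B (S.erase c) t = 0 := by omega
      have hz' := deg_zero A B hz
      have e := cnt_erase A B hc T
      rw [if_pos (hle c hc).1, if_pos (hle c hc).2] at e
      by_cases hA : t ∈ A c
      · have hcA : 1 ≤ (A c).count t := Multiset.one_le_count_iff_mem.2 hA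
        have hB : t ∉ B c := by rw [← Multiset.count_eq_zero]; omega
        have : cnt A B (S.erase c) (T - B c) = 0 := by
          refine cnt_eq_zero A B (t := t) ?_ hz'
          rw [← Multiset.one_le_count_iff_mem, Multiset.count_sub]
          have h2 : 1 ≤ T.count t := Multiset.one_le_count_iff_mem.2 htT
          have h3 : (B c).count t = 0 := Multiset.count_eq_zero.2 hB
          omega
        rw [this, add_zero] at e
        exact forced c hc _ (Or.inl rfl) (hle c hc).1 e
      · have hcA : (A c).count t = 0 := Multiset.count_eq_zero.2 hA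
        have : cnt A B (S.erase c) (T - A c) = 0 := by
          refine cnt_eq_zero A B (t := t) ?_ hz'
          rw [← Multiset.one_le_count_iff_mem, Multiset.count_sub]
          have h2 : 1 ≤ T.count t := Multiset.one_le_count_iff_mem.2 htT
          omega
        rw [this, zero_add] at e
        exact forced c hc _ (Or.inr rfl) (hle c hc).2 e
  push Not at hdeg
  -- all degrees are exactly 2
  have hdeg2 : ∀ t ∈ T, deg A B S t = 2 := by
    have hs : ∑ t ∈ T.toFinset, deg A B S t = ∑ t ∈ T.toFinset, 2 := by
      rw [sum_deg A B hle, sum_const, smul_eq_mul, Multiset.toFinset_card_of_nodup hT]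
      have : ∑ c ∈ S, ((A c).card + (B c).card) = ∑ c ∈ S, 2 * (A c).card := by
        refine sum_congr rfl fun c hc => ?_
        rw [← hAB c hc]; ring
      rw [this, ← mul_sum, hsum]; ring
    have hle2 : ∀ t ∈ T.toFinset, 2 ≤ deg A B S t := by
      intro t ht
      have := hdeg t (by simpa using ht)
      omega
    intro t ht
    have := (sum_eq_sum_iff_of_le hle2).1 hs.symm t (by simpa using ht)
    exact this.symm
  by_cases hJ : ∃ c ∈ S, A c ≠ B c
  swap
  · push Not at hJ
    have : J A B S = ∅ := by
      unfold J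
      rw [filter_eq_empty_iff]
      intro c hc h
      exact h (hJ c hc)
    rw [this, card_empty, pow_zero, mul_one]
    calc (cnt A B S T) ^ 2 ≤ (2 ^ S.card) ^ 2 := Nat.pow_le_pow_left (cnt_le A B S T) 2
      _ = 4 ^ n := by rw [hS, ← pow_mul, mul_comm, pow_mul]; norm_num
  obtain ⟨c, hc, hne⟩ := hJ
  -- a label of `A c` not in `B c`
  obtain ⟨t, htA, htB⟩ : ∃ t, t ∈ A c ∧ t ∉ B c := by
    by_contra hcon
    push Not at hcon
    have hAn : (A c).Nodup := Multiset.nodup_of_le (hle c hc).1 hT
    have : A c ≤ B c := (Multiset.le_iff_subset hAn).2 hcon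
    exact hne (Multiset.eq_of_le_of_card_le this (hAB c hc).symm.le)
  have htT : t ∈ T := Multiset.mem_of_le (hle c hc).1 htA
  have hcT : T.count t = 1 := Multiset.count_eq_one_of_mem hT htT
  have hcA : (A c).count t = 1 :=
    Multiset.count_eq_one_of_mem (Multiset.nodup_of_le (hle c hc).1 hT) htA
  have hcB : (B c).count t = 0 := Multiset.count_eq_zero.2 htB
  have e1 := deg_erase A B hc t
  have hd : deg A B (S.erase c) t = 1 := by
    have := hdeg2 t htT
    omega
  obtain ⟨c', hc', hct⟩ : ∃ c' ∈ S.erase c, (A c').count t + (B c').count t ≠ 0 := by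
    by_contra hcon
    push Not at hcon
    have : deg A B (S.erase c) t = 0 := by unfold deg; exact sum_eq_zero hcon
    omega
  have e2 := deg_erase A B hc' t
  have hz := deg_zero A B (S := (S.erase c).erase c') (t := t) (by omega)
  have hc'S : c' ∈ S := mem_of_mem_erase hc'
  set S2 := (S.erase c).erase c' with hS2
  have hcard2 : S2.card = n - 2 := by
    rw [hS2, card_erase_of_mem hc', card_erase_of_mem hc, hS]; omega
  have hn2 : 2 ≤ n := by
    have h1 : 0 < (S.erase c).card := card_pos.2 ⟨c', hc'⟩
    rw [card_erase_of_mem hc, hS] at h1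
    omega
  have hJ2 : (J A B S).card ≤ (J A B S2).card + 2 := by
    have h1 := J_card_erase A B (S := S) c
    have h2 := J_card_erase A B (S := S.erase c) c'
    rw [← hS2] at h2
    omega
  -- bound for two removed slots
  have two : ∀ M M' : Multiset ℕ, (M = A c ∨ M = B c) → (M' = A c' ∨ M' = B c') →
      (if M ≤ T then (if M' ≤ T - M then cnt A B S2 (T - M - M') else 0) else 0) ^ 2 *
        2 ^ (J A B S2).card ≤ 4 ^ (n - 2) := by
    intro M M' hM hM'
    split_ifs with h1 h2
    · refine ih (n - 2) (by omega) _ _ hcard2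
        (Multiset.nodup_of_le ((Multiset.sub_le_self _ _).trans (Multiset.sub_le_self _ _)) hT)
        (fun x hx => hAB x (mem_of_mem_erase (mem_of_mem_erase hx))) ?_
      have hMc : M.card = (A c).card := by
        rcases hM with rfl | rfl
        · rfl
        · exact (hAB c hc).symm
      have hMc' : M'.card = (A c').card := by
        rcases hM' with rfl | rfl
        · rfl
        · exact (hAB c' hc'S).symm
      rw [Multiset.card_sub h2, Multiset.card_sub h1, ← hsum, ← add_sum_erase _ _ hc,
        ← add_sum_erase _ _ hc', hMc, hMc', ← hS2]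
      omega
    · simp
    · simp
  have key : cnt A B S T ≤
      (if A c ≤ T then (if (if t ∈ A c' then B c' else A c') ≤ T - A c then
        cnt A B S2 (T - A c - (if t ∈ A c' then B c' else A c')) else 0) else 0) +
      (if B c ≤ T then (if (if t ∈ A c' then A c' else B c') ≤ T - B c then
        cnt A B S2 (T - B c - (if t ∈ A c' then A c' else B c')) else 0) else 0) := by
    have e := cnt_erase A B hc T
    have eA := cnt_erase A B hc' (T - A c)
    have eB := cnt_erase A B hc' (T - B c)
    rw [← hS2] at eA eB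
    rw [e, eA, eB]
    rw [if_pos (hle c hc).1, if_pos (hle c hc).2, if_pos (hle c hc).1, if_pos (hle c hc).2]
    have hTA : (T - A c).count t = 0 := by rw [Multiset.count_sub]; omega
    have hTB : (T - B c).count t = 1 := by rw [Multiset.count_sub]; omega
    by_cases hA' : t ∈ A c'
    · have h1 : 1 ≤ (A c').count t := Multiset.one_le_count_iff_mem.2 hA'
      have h2 : (B c').count t = 0 := by omega
      have hn1 : ¬ A c' ≤ T - A c := by
        intro h
        have := Multiset.count_le_of_le t h
        omega
      have hn2 : cnt A B S2 (T - B c - B c') = 0 := by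
        refine cnt_eq_zero A B (t := t) ?_ hz
        rw [← Multiset.one_le_count_iff_mem, Multiset.count_sub]
        omega
      rw [if_pos hA', if_pos hA', if_neg hn1, hn2]
      simp
    · have h1 : (A c').count t = 0 := Multiset.count_eq_zero.2 hA'
      have h2 : (B c').count t = 1 := by omega
      have hn1 : ¬ B c' ≤ T - A c := by
        intro h
        have := Multiset.count_le_of_le t h
        omega
      have hn2 : cnt A B S2 (T - B c - A c') = 0 := by
        refine cnt_eq_zero A B (t := t) ?_ hz
        rw [← Multiset.one_le_count_iff_mem, Multiset.count_sub]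
        omega
      rw [if_neg hA', if_neg hA', if_neg hn1, hn2]
      simp
  have hfin := step_two hJ2 (two (A c) (if t ∈ A c' then B c' else A c') (Or.inl rfl)
    (by split_ifs; exact Or.inr rfl; exact Or.inl rfl))
    (two (B c) (if t ∈ A c' then A c' else B c') (Or.inr rfl)
    (by split_ifs; exact Or.inl rfl; exact Or.inr rfl))
  have hn : n - 2 + 2 = n := by omega
  rw [hn] at hfin
  exact (Nat.mul_le_mul_right _ (Nat.pow_le_pow_left key 2)).trans hfin

end Pool.Agent.helper11.ExactCover
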