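import Mathlib

set_option autoImplicit false

/-! Rigidity lemmas for shift tests. -/

namespace Pool.Agent.helper11.Rigid

open Finset

/-- The closure lemma: a function whose shifts by `L, L+1, L+2, L+3` are constant (away from the
excluded columns) is affine. -/
theorem closure (m L : ℕ) (hm : 1 ≤ m) (hL : m + 6 ≤ L) (f : ℕ → ℤ) (Δ : ℕ → ℤ)
    (h : ∀ t < 4, ∀ a, m ≤ a → a ≤ m + L → a < m + (L + t) → a + (L + t) ≤ m + 2 * L + 2 →
      a ≠ L + t → f (a + (L + t)) = f a + Δ t) :
    ∀ a, m ≤ a → a ≤ m + 2 * L + 2 → f a = f m + ((a - m : ℕ) : ℤ) * (f (m + 1) - f m) := by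
  set δ := f (m + 1) - f m with hδ
  -- consecutive differences of the shifts
  have hD : ∀ t < 3, Δ (t + 1) = Δ t + δ := by
    intro t ht
    have h1 := h (t + 1) (by omega) m le_rfl (by omega) (by omega) (by omega) (by omega)
    have h2 := h t (by omega) (m + 1) (by omega) (by omega) (by omega) (by omega) (by omega)
    have e : m + (L + (t + 1)) = m + 1 + (L + t) := by omega
    rw [e] at h1
    rw [h2] at h1
    linarith
  have hstep : ∀ a, m ≤ a → a ≤ m + L - 1 → f (a + 1) = f a + δ := by
    intro a ha1 ha2
    have key : ∀ t, t < 3 → a < m + (L + (t + 1)) → a + (L + (t + 1)) ≤ m + 2 * L + 2 →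
        a ≠ L + (t + 1) → a + 1 < m + (L + t) → a + 1 ≠ L + t → f (a + 1) = f a + δ := by
      intro t ht h1 h2 h3 h4 h5
      have e1 := h (t + 1) (by omega) a ha1 (by omega) h1 h2 h3
      have e2 := h t (by omega) (a + 1) (by omega) (by omega) h4 (by omega) h5
      have e : a + (L + (t + 1)) = a + 1 + (L + t) := by omega
      rw [e, e2, hD t ht] at e1
      linarith
    by_cases hc : a = L ∨ a = L + 2
    · exact key 2 (by omega) (by omega) (by omega) (by omega) (by omega) (by omega)
    · push Not at hc
      exact key 1 (by omega) (by omega) (by omega) (by omega) (by omega) (by omega)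
  have hlow : ∀ i : ℕ, i ≤ L → f (m + i) = f m + (i : ℤ) * δ := by
    intro i
    induction i with
    | zero => intro _; simp
    | succ i ih =>
      intro hi
      have h1 := hstep (m + i) (by omega) (by omega)
      have e : m + (i + 1) = m + i + 1 := by omega
      rw [e, h1, ih (by omega)]
      push_cast
      ring
  have hΔ0 : Δ 0 = (L : ℤ) * δ := by
    have h1 := h 0 (by omega) m le_rfl (by omega) (by omega) (by omega) (by omega)
    have h2 := hlow L le_rfl
    have e : m + (L + 0) = m + L := by omega
    rw [e, h2] at h1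
    linarith
  have hΔ : ∀ t < 4, Δ t = ((L + t : ℕ) : ℤ) * δ := by
    intro t
    induction t with
    | zero => intro _; rw [hΔ0]; simp
    | succ t ih =>
      intro ht
      rw [hD t (by omega), ih (by omega)]
      push_cast
      ring
  intro a ha1 ha2
  rcases le_or_gt a (m + L) with h1 | h1
  · have := hlow (a - m) (by omega)
    rwa [show m + (a - m) = a by omega] at this
  · have key : ∀ t, t < 4 → m + (L + t) ≤ a → a ≤ m + L + (L + t) → a < m + (L + t) + (L + t) →
        a ≠ L + t + (L + t) → f a = f m + ((a - m : ℕ) : ℤ) * δ := by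
      intro t ht h2 h3 h4 h5
      have e1 := h t ht (a - (L + t)) (by omega) (by omega) (by omega) (by omega) (by omega)
      have e2 := hlow (a - (L + t) - m) (by omega)
      rw [show m + (a - (L + t) - m) = a - (L + t) by omega] at e2
      rw [show a - (L + t) + (L + t) = a by omega, e2, hΔ t ht] at e1
      rw [e1]
      have : ((a - m : ℕ) : ℤ) = ((a - (L + t) - m : ℕ) : ℤ) + ((L + t : ℕ) : ℤ) := by
        push_cast [show m ≤ a from ha1, show L + t ≤ a by omega, show m ≤ a - (L + t) by omega]
        omega
      rw [this]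
      ring
    by_cases c1 : a ≤ m + 2 * L + 1 ∧ a ≠ 2 * L + 2
    · exact key 1 (by omega) (by omega) (by omega) (by omega) (by omega)
    · by_cases c2 : a = 2 * L + 4
      · exact key 3 (by omega) (by omega) (by omega) (by omega) (by omega)
      · exact key 2 (by omega) (by omega) (by omega) (by omega) (by omega)

/-- a column passes -/
def pass (u v x y : ℤ) : Prop := (u - x).natAbs = (v - y).natAbs

lemma pass_iff {u v x y : ℤ} : pass u v x y ↔ y - x = v - u ∨ x + y = u + v := by
  unfold pass
  rw [Int.natAbs_eq_natAbs_iff]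
  constructor
  · rintro (h | h)
    · left; linarith
    · right; linarith
  · rintro (h | h)
    · left; linarith
    · right; linarith

open Classical in
/-- Two different values of `y` cannot both pass many columns. -/
lemma both_le_two (W : Finset ℕ) (f g : ℕ → ℤ) (hf : Set.InjOn f W) (x y y' : ℤ) (hy : y ≠ y') :
    (W.filter (fun a => pass (f a) (g a) x y ∧ pass (f a) (g a) x y')).card ≤ 2 := by
  have hsub : W.filter (fun a => pass (f a) (g a) x y ∧ pass (f a) (g a) x y') ⊆
      W.filter (fun a => 2 * f a = 2 * x + y' - y) ∪ W.filter (fun a => 2 * f a = 2 * x + y - y') := by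
    intro a ha
    rw [mem_filter] at ha
    obtain ⟨haW, h1, h2⟩ := ha
    rw [pass_iff] at h1 h2
    rw [mem_union, mem_filter, mem_filter]
    rcases h1 with h1 | h1 <;> rcases h2 with h2 | h2
    · exact absurd (by linarith) hy
    · left; exact ⟨haW, by linarith⟩
    · right; exact ⟨haW, by linarith⟩
    · exact absurd (by linarith) hy
  have hone : ∀ c : ℤ, (W.filter (fun a => 2 * f a = c)).card ≤ 1 := by
    intro c
    rw [card_le_one]
    intro a ha b hb
    rw [mem_filter] at ha hb
    exact hf ha.1 hb.1 (by linarith [ha.2, hb.2])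
  calc _ ≤ _ := card_le_card hsub
    _ ≤ _ := card_union_le _ _
    _ ≤ 1 + 1 := add_le_add (hone _) (hone _)

open Classical in
/-- the number of failing columns -/
noncomputable def nfail (W : Finset ℕ) (f g : ℕ → ℤ) (x y : ℤ) : ℕ :=
  (W.filter (fun a => ¬ pass (f a) (g a) x y)).card

open Classical in
lemma nfail_uniq (W : Finset ℕ) (f g : ℕ → ℤ) (hf : Set.InjOn f W) (h : ℕ) (hW : 2 * h + 1 ≤ W.card)
    (x y y' : ℤ) (h1 : nfail W f g x y < h) (h2 : nfail W f g x y' < h) : y = y' := by
  by_contra hy
  have hb := both_le_two W f g hf x y y' hy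
  have e1 : (W.filter (fun a => pass (f a) (g a) x y)).card + nfail W f g x y = W.card :=
    card_filter_add_card_filter_not (s := W) _
  have e2 : (W.filter (fun a => pass (f a) (g a) x y')).card + nfail W f g x y' = W.card :=
    card_filter_add_card_filter_not (s := W) _
  have e3 := card_union_add_card_inter (W.filter (fun a => pass (f a) (g a) x y))
    (W.filter (fun a => pass (f a) (g a) x y'))
  rw [← filter_and] at e3
  have e4 : (W.filter (fun a => pass (f a) (g a) x y) ∪
    W.filter (fun a => pass (f a) (g a) x y')).card ≤ W.card :=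
    card_le_card (union_subset (filter_subset _ _) (filter_subset _ _))
  omega

open Classical in
/-- For an affine first row, a wrong step makes all but at most one column fail. -/
lemma nfail_rigid (W : Finset ℕ) (f : ℕ → ℤ) (G : ℕ) (lam c : ℤ) (hlam : lam ≠ 0)
    (hf : ∀ a ∈ W, f a = lam * a + c) (hg : ∀ a ∈ W, f (a + G) = lam * (a + G : ℕ) + c)
    (x y : ℤ) (hxy : y ≠ x + lam * G) : W.card ≤ nfail W f (fun a => f (a + G)) x y + 1 := by
  have e1 : (W.filter (fun a => pass (f a) (f (a + G)) x y)).card +
      nfail W f (fun a => f (a + G)) x y = W.card :=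
    card_filter_add_card_filter_not (s := W) _
  have e2 : (W.filter (fun a => pass (f a) (f (a + G)) x y)).card ≤ 1 := by
    rw [card_le_one]
    intro a ha b hb
    rw [mem_filter, pass_iff] at ha hb
    obtain ⟨haW, ha⟩ := ha
    obtain ⟨hbW, hb⟩ := hb
    rw [hf a haW, hg a haW] at ha
    rw [hf b hbW, hg b hbW] at hb
    push_cast at ha hb
    rcases ha with ha | ha
    · exact absurd (by linarith) hxy
    · rcases hb with hb | hb
      · exact absurd (by linarith) hxy
      · have : lam * ((a : ℤ) - b) = 0 := by linarith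
        rcases mul_eq_zero.1 this with h | h
        · exact absurd h hlam
        · omega
  omega

open Classical in
/-- Two columns with different shifts fail together at least half of the rows. -/
lemma two_columns (u1 v1 u2 v2 : ℤ) (hd : v1 - u1 ≠ v2 - u2) (s n : ℕ) (X : ℕ → ℤ)
    (hX : Set.InjOn X (Set.Icc s (s + n))) :
    n ≤ 2 * ((Ico s (s + n)).filter
      (fun j => ¬ (pass u1 v1 (X j) (X (j + 1)) ∧ pass u2 v2 (X j) (X (j + 1))))).card + 5 := by
  set J := Ico s (s + n) with hJ
  have hJc : J.card = n := by simp [hJ]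
  set B := J.filter (fun j => pass u1 v1 (X j) (X (j + 1)) ∧ pass u2 v2 (X j) (X (j + 1))) with hB
  have e1 : B.card + (J.filter
      (fun j => ¬ (pass u1 v1 (X j) (X (j + 1)) ∧ pass u2 v2 (X j) (X (j + 1))))).card = J.card :=
    card_filter_add_card_filter_not (s := J) _
  set B3 := J.filter (fun j => X j + X (j + 1) = u1 + v1) with hB3
  have hsub : B ⊆ (J.filter (fun j => 2 * X j = u2 + v2 - (v1 - u1)) ∪
      J.filter (fun j => 2 * X j = u1 + v1 - (v2 - u2))) ∪ B3 := by
    intro j hj
    rw [hB, mem_filter, pass_iff, pass_iff] at hj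
    obtain ⟨hjJ, h1, h2⟩ := hj
    rw [mem_union, mem_union, mem_filter, mem_filter, hB3, mem_filter]
    rcases h1 with h1 | h1
    · rcases h2 with h2 | h2
      · exact absurd (h1.symm.trans h2) hd
      · left; left; exact ⟨hjJ, by linarith⟩
    · right; exact ⟨hjJ, h1⟩
  have hone : ∀ c : ℤ, (J.filter (fun j => 2 * X j = c)).card ≤ 1 := by
    intro c
    rw [card_le_one]
    intro a ha b hb
    rw [mem_filter, hJ, mem_Ico] at ha hb
    exact hX ⟨by omega, by omega⟩ ⟨by omega, by omega⟩ (by linarith [ha.2, hb.2])
  have hB3c : 2 * B3.card ≤ n + 1 := by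
    have hdisj : Disjoint B3 (B3.image (fun j => j + 1)) := by
      rw [disjoint_left]
      intro j hj hj'
      obtain ⟨i, hi, rfl⟩ := mem_image.1 hj'
      rw [hB3, mem_filter, hJ, mem_Ico] at hj hi
      have : X i = X (i + 1 + 1) := by linarith [hj.2, hi.2]
      have := hX ⟨by omega, by omega⟩ ⟨by omega, by omega⟩ this
      omega
    have hsub3 : B3 ∪ B3.image (fun j => j + 1) ⊆ Ico s (s + n + 1) := by
      intro j hj
      rw [mem_union] at hj
      rcases hj with hj | hj
      · rw [hB3, mem_filter, hJ, mem_Ico] at hj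
        rw [mem_Ico]; omega
      · obtain ⟨i, hi, rfl⟩ := mem_image.1 hj
        rw [hB3, mem_filter, hJ, mem_Ico] at hi
        rw [mem_Ico]; omega
    have h1 := card_le_card hsub3
    rw [card_union_of_disjoint hdisj, card_image_of_injective _ (add_left_injective 1),
      Nat.card_Ico] at h1
    omega
  have h2 : B.card ≤ 2 + B3.card := by
    calc B.card ≤ _ := card_le_card hsub
      _ ≤ _ := card_union_le _ _
      _ ≤ _ := Nat.add_le_add_right ((card_union_le _ _).trans (add_le_add (hone _) (hone _))) _
  omega

end Pool.Agent.helper11.Rigid
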