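import Pool.Agent.helper11.Final
import Pool.Agent.helper11.ExactCover
import Pool.Agent.helper11.Rigid

set_option autoImplicit false

/-! Counting, for a fixed labelling, the graphs of the family for which it is sequential. -/

namespace Pool.Agent.helper11.Seq

open Finset

namespace Par

variable (P : Par)

/-- labels contributed by a slot under the first option -/
noncomputable def As (g : P.V → ℕ) (c : ℕ × ℕ) : Multiset ℕ :=
  ∑ x ∈ P.D.filter (fun x => P.slot x = c), ({lab g (P.e0 x)} : Multiset ℕ)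

/-- labels contributed by a slot under the second option -/
noncomputable def Bs (g : P.V → ℕ) (c : ℕ × ℕ) : Multiset ℕ :=
  ∑ x ∈ P.D.filter (fun x => P.slot x = c), ({lab g (P.e1 x)} : Multiset ℕ)

lemma tot_eq (g : P.V → ℕ) (X : Finset (ℕ × ℕ)) :
    ExactCover.tot (P.As g) (P.Bs g) P.D X = ∑ x ∈ P.D, ({lab g (P.ends X x)} : Multiset ℕ) := by
  unfold ExactCover.tot
  rw [← sum_fiberwise_of_maps_to (s := P.D) (t := P.D) (g := P.slot) (fun x hx => P.slot_mem hx)
    (fun x => ({lab g (P.ends X x)} : Multiset ℕ))]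
  refine sum_congr rfl fun c _ => ?_
  by_cases hc : c ∈ X
  · rw [if_pos hc]
    unfold Bs
    refine sum_congr rfl fun x hx => ?_
    rw [mem_filter] at hx
    unfold ends
    rw [hx.2, if_pos hc]
  · rw [if_neg hc]
    unfold As
    refine sum_congr rfl fun x hx => ?_
    rw [mem_filter] at hx
    unfold ends
    rw [hx.2, if_neg hc]

lemma tot_val (g : P.V → ℕ) (X : Finset (ℕ × ℕ)) (k : ℕ) (h : IsSeq (gr P.D (P.ends X)) k g) :
    ExactCover.tot (P.As g) (P.Bs g) P.D X =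
      ((Icc k (k + Fintype.card P.V + P.D.card - 1)) \ univ.image g).val := by
  obtain ⟨ginj, glab, gdis, gicc⟩ := isSeq_fwd (P.ends_ne X) (P.ends_inj X) h
  rw [tot_eq]
  have e : (Icc k (k + Fintype.card P.V + P.D.card - 1)) \ univ.image g =
      P.D.image (fun x => lab g (P.ends X x)) := by
    ext t
    rw [mem_sdiff, mem_Icc, mem_image, mem_image]
    have := gicc t
    rw [Set.mem_Icc] at this
    rw [this]
    constructor
    · rintro ⟨h1 | h1, h2⟩
      · obtain ⟨v, hv⟩ := h1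
        exact absurd ⟨v, mem_univ _, hv⟩ h2
      · exact h1
    · rintro h1
      refine ⟨Or.inr h1, ?_⟩
      rintro ⟨v, -, hv⟩
      obtain ⟨x, hx, hxt⟩ := h1
      exact gdis v x hx (by rw [hv, hxt])
  rw [e, ← sum_multiset_singleton, sum_image]
  intro x hx y hy hxy
  exact glab x hx y hy hxy

lemma card_As (g : P.V → ℕ) (c : ℕ × ℕ) :
    (P.As g c).card = (P.D.filter (fun x => P.slot x = c)).card := by
  unfold As
  rw [Multiset.card_sum]
  simp

lemma card_Bs (g : P.V → ℕ) (c : ℕ × ℕ) :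
    (P.Bs g c).card = (P.D.filter (fun x => P.slot x = c)).card := by
  unfold Bs
  rw [Multiset.card_sum]
  simp

/-- slots that see the labelling -/
noncomputable def Fail (g : P.V → ℕ) : Finset (ℕ × ℕ) := ExactCover.J (P.As g) (P.Bs g) P.D

open Classical in
theorem valid_count (g : P.V → ℕ) (k : ℕ) :
    (P.D.powerset.filter (fun X => IsSeq (gr P.D (P.ends X)) k g)).card ^ 2 * 2 ^ (P.Fail g).card ≤
      4 ^ P.D.card := by
  by_cases h : ∃ X ∈ P.D.powerset, IsSeq (gr P.D (P.ends X)) k g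
  · obtain ⟨X0, hX0, hs0⟩ := h
    have hT := P.tot_val g X0 k hs0
    have hsum : ∑ c ∈ P.D, (P.As g c).card =
        (((Icc k (k + Fintype.card P.V + P.D.card - 1)) \ univ.image g).val).card := by
      have e1 : ∑ c ∈ P.D, (P.As g c).card = P.D.card := by
        rw [sum_congr rfl fun c _ => P.card_As g c]
        exact (card_eq_sum_card_fiberwise (fun x hx => P.slot_mem hx)).symm
      rw [e1, ← hT, tot_eq, Multiset.card_sum]
      simp
    refine le_trans ?_ (ExactCover.main (P.As g) (P.Bs g) P.D.card P.D _ rfl (Finset.nodup _)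
      (fun c _ => by rw [card_As, card_Bs]) hsum)
    refine Nat.mul_le_mul ?_ le_rfl
    refine Nat.pow_le_pow_left ?_ 2
    unfold ExactCover.cnt
    refine card_le_card ?_
    intro X hX
    rw [mem_filter] at hX ⊢
    exact ⟨hX.1, P.tot_val g X k hX.2⟩
  · push Not at h
    rw [filter_false_of_mem h]
    simp

open Classical in
theorem valid_real (g : P.V → ℕ) (k : ℕ) :
    ((P.D.powerset.filter (fun X => IsSeq (gr P.D (P.ends X)) k g)).card : ℝ) ≤
      2 ^ P.D.card * (3 / 4 : ℝ) ^ (P.Fail g).card := by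
  have h := P.valid_count g k
  set n := (P.D.powerset.filter (fun X => IsSeq (gr P.D (P.ends X)) k g)).card
  set N := P.D.card
  set J := (P.Fail g).card
  have h1 : (n : ℝ) ^ 2 * 2 ^ J ≤ 4 ^ N := by exact_mod_cast h
  have h2 : (n : ℝ) ^ 2 ≤ (2 ^ N * (3 / 4 : ℝ) ^ J) ^ 2 := by
    have e1 : (2 ^ N * (3 / 4 : ℝ) ^ J) ^ 2 = 4 ^ N * (9 / 16 : ℝ) ^ J := by
      rw [mul_pow, ← pow_mul, ← pow_mul, mul_comm N 2, mul_comm J 2, pow_mul, pow_mul]
      norm_num
    rw [e1]
    have e2 : (n : ℝ) ^ 2 ≤ 4 ^ N * (1 / 2 : ℝ) ^ J := by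
      have : (n : ℝ) ^ 2 = (n : ℝ) ^ 2 * 2 ^ J * (1 / 2 : ℝ) ^ J := by
        rw [mul_assoc, ← mul_pow]; norm_num
      rw [this]
      exact mul_le_mul_of_nonneg_right h1 (by positivity)
    refine e2.trans ?_
    refine mul_le_mul_of_nonneg_left ?_ (by positivity)
    exact pow_le_pow_left₀ (by norm_num) (by norm_num) J
  exact (sq_le_sq₀ (by positivity) (by positivity)).1 h2

/-! ### failing tests -/

lemma slot_fiber_single {j a : ℕ} (hD : (j, a) ∈ P.D)
    (hU : ∀ n i, ¬ (P.isU1 n i j a ∨ P.isU2 n i j a)) :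
    P.D.filter (fun x => P.slot x = (j, a)) = {(j, a)} := by
  ext ⟨j', a'⟩
  rw [mem_filter, mem_singleton]
  constructor
  · rintro ⟨h1, h2⟩
    by_cases h : ∃ n i, 21 ≤ n ∧ P.isU2 n i j' a'
    · obtain ⟨n, i, hn, h⟩ := h
      rw [P.slot_U2 hn h, Prod.mk.injEq] at h2
      obtain ⟨rfl, rfl⟩ := h2
      exact absurd (Or.inl (P.E1_isU1 h.1)) (hU n i)
    · push Not at h
      rw [P.slot_of_not h] at h2
      exact h2
  · intro h
    rw [h]
    exact ⟨hD, P.slot_of_not (fun n i _ h' => hU n i (Or.inr h'))⟩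

lemma mem_Fail_single {g : P.V → ℕ} {j a : ℕ} (hD : (j, a) ∈ P.D)
    (hU : ∀ n i, ¬ (P.isU1 n i j a ∨ P.isU2 n i j a))
    (hne : lab g (P.e0 (j, a)) ≠ lab g (P.e1 (j, a))) : (j, a) ∈ P.Fail g := by
  unfold Fail ExactCover.J
  rw [mem_filter]
  refine ⟨hD, ?_⟩
  unfold As Bs
  rw [P.slot_fiber_single hD hU, sum_singleton, sum_singleton]
  intro h
  exact hne (Multiset.singleton_inj.1 h)

lemma e0_T1 {j a : ℕ} (hT : P.T1 j a) : P.e0 (j, a) = (P.vA a, P.vB j) := by
  have := P.ends_test ∅ hT (notMem_empty _)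
  unfold ends at this
  rwa [P.slot_T1 hT, if_neg (notMem_empty _)] at this

lemma e1_T1 {j a : ℕ} (hT : P.T1 j a) : P.e1 (j, a) = (P.vA (a + P.gap j), P.vB (j + 1)) := by
  unfold e1
  simp only
  rw [if_pos hT]

lemma fail_T1 {g : P.V → ℕ} {j a : ℕ} (hT : P.T1 j a)
    (h : ¬ Rigid.pass (g (P.vA a)) (g (P.vA (a + P.gap j))) (g (P.vB j)) (g (P.vB (j + 1)))) :
    (j, a) ∈ P.Fail g := by
  refine P.mem_Fail_single (P.T1_mem_D hT) (P.T1_not_U hT) ?_
  rw [P.e0_T1 hT, P.e1_T1 hT]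
  exact h

lemma fail_T2 {g : P.V → ℕ} {j : ℕ} (hT : P.T2 j (2 * P.m + 5))
    (h : ((g (P.vA (2 * P.m + 5)) : ℤ) - g (P.vB j)).natAbs ≠
      ((g (P.vB 2) : ℤ) - g (P.vB (j + 5))).natAbs) :
    (j, 2 * P.m + 5) ∈ P.Fail g := by
  have hR := P.R_def
  have h5 := P.r_def
  have h9 := P.ρ_ge
  have h10 : 0 ≤ P.K * P.L := Nat.zero_le _
  refine P.mem_Fail_single (P.T2_mem_D hT) (P.T2_not_U hT) ?_
  have e0' : P.e0 (j, 2 * P.m + 5) = (P.vA (2 * P.m + 5), P.vB j) := by
    unfold e0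
    simp only
    rw [if_neg, if_neg (by have := hT.1; omega), if_neg (by rintro ⟨h, -⟩; have := hT.2.1; omega)]
    rintro ⟨i, hi⟩
    exact P.T2_not_U hT 20 i hi
  have e1' : P.e1 (j, 2 * P.m + 5) = (P.vB 2, P.vB (j + 5)) := by
    unfold e1
    simp only
    rw [if_neg (P.T2_not_T1 hT), if_pos hT]
  rw [e0', e1']
  exact h

lemma slot_fiber_pin {n i : ℕ} (hn : 21 ≤ n) (h : P.ok n i) :
    P.D.filter (fun x => P.slot x = (P.xn n i + 1, P.L + i)) =
      {(P.xn n i + 1, P.L + i), (P.yn n i + 1, P.L + 1 + i)} := by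
  have hE1 := P.E1_isU1 h
  have hE2 := P.E2_isU2 h
  ext ⟨j', a'⟩
  rw [mem_filter, mem_insert, mem_singleton]
  constructor
  · rintro ⟨h1, h2⟩
    by_cases h3 : ∃ n i, 21 ≤ n ∧ P.isU2 n i j' a'
    · obtain ⟨n', i', hn', h3⟩ := h3
      rw [P.slot_U2 hn' h3] at h2
      have hE1' := P.E1_isU1 h3.1
      rw [Prod.mk.injEq] at h2
      rw [h2.1, h2.2] at hE1'
      obtain ⟨rfl, rfl⟩ := P.U1_unique hE1 hE1'
      right
      obtain ⟨-, rfl, rfl⟩ := h3
      rfl
    · push Not at h3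
      rw [P.slot_of_not h3] at h2
      left
      exact h2
  · rintro (h3 | h3)
    · rw [h3]
      exact ⟨P.U1_mem_D hE1, P.slot_U1 hE1⟩
    · rw [h3]
      exact ⟨P.U2_mem_D hE2, P.slot_U2 hn hE2⟩

lemma e0_pin {n i j a : ℕ} (hn : 21 ≤ n) (h : P.isU1 n i j a ∨ P.isU2 n i j a) :
    P.e0 (j, a) = (P.vA a, P.vB j) := by
  have hL := P.hL
  unfold e0
  simp only
  rw [if_neg (P.not_att_of_pin hn h), if_neg (P.U_ne_one h), if_neg]
  rintro ⟨h1, h2, h3⟩
  rcases h with h | h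
  · have := P.isU1_row h; omega
  · have := P.isU2_row h; omega

/-- a pin that does not pass -/
lemma fail_pin {g : P.V → ℕ} {n i : ℕ} (hn : 21 ≤ n) (h : P.ok n i)
    (hne : ¬ ((lab g (P.vA (P.L + i), P.vB (P.xn n i + 1)) = lab g (P.vU i, P.vB (P.xn n i)) ∧
        lab g (P.vA (P.L + 1 + i), P.vB (P.yn n i + 1)) = lab g (P.vU i, P.vB (P.yn n i))) ∨
      (lab g (P.vA (P.L + i), P.vB (P.xn n i + 1)) = lab g (P.vU i, P.vB (P.yn n i)) ∧
        lab g (P.vA (P.L + 1 + i), P.vB (P.yn n i + 1)) = lab g (P.vU i, P.vB (P.xn n i))))) :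
    (P.xn n i + 1, P.L + i) ∈ P.Fail g := by
  have hE1 := P.E1_isU1 h
  have hE2 := P.E2_isU2 h
  unfold Fail ExactCover.J
  rw [mem_filter]
  refine ⟨P.U1_mem_D hE1, ?_⟩
  unfold As Bs
  have hne' : (P.xn n i + 1, P.L + i) ≠ (P.yn n i + 1, P.L + 1 + i) := by
    intro h
    rw [Prod.mk.injEq] at h
    omega
  rw [P.slot_fiber_pin hn h, sum_pair hne', sum_pair hne', P.e0_pin hn (Or.inl hE1),
    P.e0_pin hn (Or.inr hE2), P.e1_pin hn (Or.inl hE1), P.e1_pin hn (Or.inr hE2),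
    Nat.add_sub_cancel, Nat.add_sub_cancel]
  intro heq
  apply hne
  have key : ∀ a b c d : ℕ, ({a} + {b} : Multiset ℕ) = {c} + {d} → (a = c ∧ b = d) ∨ (a = d ∧ b = c) := by
    intro a b c d h
    have h1 : a ∈ ({c} + {d} : Multiset ℕ) := by rw [← h]; simp
    rw [Multiset.mem_add, Multiset.mem_singleton, Multiset.mem_singleton] at h1
    rcases h1 with h1 | h1
    · left
      subst h1
      refine ⟨rfl, ?_⟩
      have := add_left_cancel h
      exact Multiset.singleton_inj.1 this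
    · right
      subst h1
      refine ⟨rfl, ?_⟩
      rw [add_comm ({c} : Multiset ℕ) {a}] at h
      have := add_left_cancel h
      exact Multiset.singleton_inj.1 this
  exact key _ _ _ _ heq

/-- row-wise lower bound for the number of failing slots -/
lemma Fail_card_ge (g : P.V → ℕ) (I : Finset ℕ) (U : ℕ → Finset ℕ)
    (h : ∀ j ∈ I, ∀ a ∈ U j, (j, a) ∈ P.Fail g) : ∑ j ∈ I, (U j).card ≤ (P.Fail g).card := by
  rw [← card_sigma]
  refine card_le_card_of_injOn (fun x => (x.1, x.2)) ?_ ?_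
  · rintro ⟨j, a⟩ hx
    rw [mem_coe, mem_sigma] at hx
    exact h j hx.1 a hx.2
  · rintro ⟨j, a⟩ _ ⟨j', a'⟩ _ hxy
    simp only [Prod.mk.injEq] at hxy
    obtain ⟨rfl, rfl⟩ := hxy
    rfl

end Par

end Pool.Agent.helper11.Seq
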