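import Pool.Agent.helper11.SumB

set_option autoImplicit false

/-! Existence of a good graph in the family. -/

namespace Pool.Agent.helper11.Seq

open Finset

namespace Par

variable (P : Par)

lemma D_pos : (1, P.m) ∈ P.D := by
  have hR := P.R_def
  rw [mem_D, show 1 - 1 = 0 from rfl, gap_zero]
  exact ⟨le_rfl, by omega, le_rfl, by omega, by omega⟩

/-- bounds for the parameter and the numbering -/
lemma seq_bounds {X : Finset (ℕ × ℕ)} {k : ℕ} {g : P.V → ℕ}
    (h : IsSeq (gr P.D (P.ends X)) k g) : k ≤ Fintype.card P.V ∧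
      ∀ v, g v < 2 * (Fintype.card P.V + P.D.card) := by
  have hD : 0 < P.D.card := card_pos.2 ⟨_, P.D_pos⟩
  obtain ⟨ginj, glab, gdis, gicc⟩ := isSeq_fwd (P.ends_ne X) (P.ends_inj X) h
  have hk : k ≤ Fintype.card P.V := by
    have hsub : Icc (max k (Fintype.card P.V + P.D.card)) (k + Fintype.card P.V + P.D.card - 1) ⊆
        univ.image g := by
      intro t ht
      rw [mem_Icc] at ht
      have h1 := (gicc t).1 (by rw [Set.mem_Icc]; omega)
      rcases h1 with ⟨v, hv⟩ | ⟨x, hx, hxt⟩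
      · exact mem_image.2 ⟨v, mem_univ _, hv⟩
      · exfalso
        have h2 := (gicc (g (P.ends X x).1)).2 (Or.inl ⟨_, rfl⟩)
        have h3 := (gicc (g (P.ends X x).2)).2 (Or.inl ⟨_, rfl⟩)
        rw [Set.mem_Icc] at h2 h3
        unfold lab at hxt
        omega
    have h1 := card_le_card hsub
    have h2 : (univ.image g).card ≤ Fintype.card P.V := card_image_le
    rw [Nat.card_Icc] at h1
    omega
  refine ⟨hk, fun v => ?_⟩
  have h2 := (gicc (g v)).2 (Or.inl ⟨_, rfl⟩)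
  rw [Set.mem_Icc] at h2
  omega

open Classical in
theorem exists_good (h s : ℕ) (hh : 2 * P.m + 2 * h + 9 + s ≤ P.L)
    (hnum : (Fintype.card P.V : ℝ) *
      (((2 * (Fintype.card P.V + P.D.card) : ℕ) : ℝ) ^ (2 * P.m - P.p) *
        (((2 * (Fintype.card P.V + P.D.card) : ℕ) : ℝ) ^ (2 * P.L + 3) *
          P.B1 (2 * (Fintype.card P.V + P.D.card)) h +
        ((2 * (Fintype.card P.V + P.D.card) : ℕ) : ℝ) ^ 2 *
          P.B2 (2 * (Fintype.card P.V + P.D.card)) h s)) +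
      (4 * P.r : ℝ) * (1 / 2) ^ (P.L - (2 * P.m + 6)) < 1) :
    ∃ X : Finset (ℕ × ℕ),
      (∀ j, 2 ≤ j → j ≤ 4 * P.r → ∃ a, P.m ≤ a ∧ a < P.L ∧ a ≠ 2 * P.m + 5 ∧ (j, a) ∉ X) ∧
      ∀ k g, IsSeq (gr P.D (P.ends X)) k g → 1 ≤ k → P.Ideal g := by
  have hL := P.hL
  have hR := P.R_def
  set nV := Fintype.card P.V with hnV
  set Q := 2 * (nV + P.D.card) with hQ
  by_contra hcon
  push Not at hcon
  set W0 := Ico (2 * P.m + 6) P.L with hW0
  set Bad1 : Finset (Finset (ℕ × ℕ)) := (Icc 1 nV).biUnion (fun k =>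
    ((univ : Finset (P.V → Fin Q)).filter (fun g => P.NI g)).biUnion (fun g =>
      P.D.powerset.filter (fun X => IsSeq (gr P.D (P.ends X)) k (P.gn g)))) with hBad1
  set Bad2 : Finset (Finset (ℕ × ℕ)) := (Icc 2 (4 * P.r)).biUnion (fun j =>
    Icc (W0.image (fun a => (j, a))) P.D) with hBad2
  have hcover : P.D.powerset ⊆ Bad1 ∪ Bad2 := by
    intro X hX
    rw [mem_union]
    by_cases hX2 : X ∈ Bad2
    · exact Or.inr hX2
    · left
      have hconn : ∀ j, 2 ≤ j → j ≤ 4 * P.r →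
          ∃ a, P.m ≤ a ∧ a < P.L ∧ a ≠ 2 * P.m + 5 ∧ (j, a) ∉ X := by
        intro j h1 h2
        by_contra hj
        push Not at hj
        apply hX2
        rw [hBad2, mem_biUnion]
        refine ⟨j, mem_Icc.2 ⟨h1, h2⟩, ?_⟩
        rw [mem_Icc]
        refine ⟨?_, mem_powerset.1 hX⟩
        intro x hx
        obtain ⟨a, ha, rfl⟩ := mem_image.1 hx
        rw [hW0, mem_Ico] at ha
        exact hj a (by omega) (by omega) (by omega)
      obtain ⟨k, g, hseq, hk, hni⟩ := hcon X hconn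
      obtain ⟨hk2, hg⟩ := P.seq_bounds hseq
      rw [hBad1, mem_biUnion]
      refine ⟨k, mem_Icc.2 ⟨hk, hk2⟩, ?_⟩
      rw [mem_biUnion]
      have hgn : P.gn (fun v => (⟨g v, hg v⟩ : Fin Q)) = g := rfl
      refine ⟨fun v => ⟨g v, hg v⟩, ?_, ?_⟩
      · rw [mem_filter]
        refine ⟨mem_univ _, ?_, ?_⟩
        · intro u v huv
          have := congrArg Fin.val huv
          exact hseq.1 this
        · rw [hgn]
          exact hni
      · rw [mem_filter, hgn]
        exact ⟨hX, hseq⟩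
  have hc1 : (Bad1.card : ℝ) ≤ 2 ^ P.D.card * (nV *
      ∑ g : P.V → Fin Q, (if P.NI g then (3 / 4 : ℝ) ^ (P.Fail (P.gn g)).card else 0)) := by
    have e1 : Bad1.card ≤ ∑ k ∈ Icc 1 nV, ∑ g ∈ (univ : Finset (P.V → Fin Q)).filter
        (fun g => P.NI g), (P.D.powerset.filter (fun X => IsSeq (gr P.D (P.ends X)) k (P.gn g))).card := by
      rw [hBad1]
      refine card_biUnion_le.trans ?_
      exact sum_le_sum fun k _ => card_biUnion_le
    have e2 : (Bad1.card : ℝ) ≤ ∑ k ∈ Icc 1 nV, ∑ g ∈ (univ : Finset (P.V → Fin Q)).filter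
        (fun g => P.NI g),
          ((P.D.powerset.filter (fun X => IsSeq (gr P.D (P.ends X)) k (P.gn g))).card : ℝ) := by
      exact_mod_cast e1
    refine e2.trans ?_
    calc _ ≤ ∑ k ∈ Icc 1 nV, ∑ g ∈ (univ : Finset (P.V → Fin Q)).filter (fun g => P.NI g),
          2 ^ P.D.card * (3 / 4 : ℝ) ^ (P.Fail (P.gn g)).card :=
          sum_le_sum fun k _ => sum_le_sum fun g _ => P.valid_real (P.gn g) k
      _ = 2 ^ P.D.card * (nV *
      ∑ g : P.V → Fin Q, (if P.NI g then (3 / 4 : ℝ) ^ (P.Fail (P.gn g)).card else 0)) := by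
          rw [sum_const, Nat.card_Icc, Nat.add_sub_cancel, nsmul_eq_mul, ← mul_sum, ← sum_filter]
          ring
  have hc2 : (Bad2.card : ℝ) ≤ 2 ^ P.D.card * ((4 * P.r : ℝ) * (1 / 2) ^ (P.L - (2 * P.m + 6))) := by
    have e1 : Bad2.card ≤ ∑ j ∈ Icc 2 (4 * P.r), (Icc (W0.image (fun a => (j, a))) P.D).card := by
      rw [hBad2]
      exact card_biUnion_le
    have e2 : ∀ j ∈ Icc 2 (4 * P.r), ((Icc (W0.image (fun a => (j, a))) P.D).card : ℝ) =
        2 ^ P.D.card * (1 / 2) ^ (P.L - (2 * P.m + 6)) := by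
      intro j hj
      rw [mem_Icc] at hj
      have hsub : W0.image (fun a => (j, a)) ⊆ P.D := by
        intro x hx
        obtain ⟨a, ha, rfl⟩ := mem_image.1 hx
        rw [hW0, mem_Ico] at ha
        exact P.T1_mem_D ⟨hj.1, hj.2, by omega, Or.inl (by omega)⟩
      have hcard : (W0.image (fun a => (j, a))).card = P.L - (2 * P.m + 6) := by
        rw [card_image_of_injective, hW0, Nat.card_Ico]
        intro a a' h
        simpa using h
      have hle := card_le_card hsub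
      rw [card_Icc_finset hsub, hcard]
      rw [hcard] at hle
      push_cast
      have : (2 : ℝ) ^ P.D.card = 2 ^ (P.D.card - (P.L - (2 * P.m + 6))) *
          2 ^ (P.L - (2 * P.m + 6)) := by
        rw [← pow_add, Nat.sub_add_cancel hle]
      rw [this, mul_assoc, ← mul_pow]
      norm_num
    have e3 : (Bad2.card : ℝ) ≤ ∑ j ∈ Icc 2 (4 * P.r),
        ((Icc (W0.image (fun a => (j, a))) P.D).card : ℝ) := by exact_mod_cast e1
    refine e3.trans ?_
    rw [sum_congr rfl e2, sum_const, nsmul_eq_mul, Nat.card_Icc]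
    have : ((4 * P.r + 1 - 2 : ℕ) : ℝ) ≤ 4 * P.r := by
      have : 4 * P.r + 1 - 2 ≤ 4 * P.r := by omega
      exact_mod_cast this
    have hpos : (0 : ℝ) ≤ 2 ^ P.D.card * (1 / 2) ^ (P.L - (2 * P.m + 6)) := by positivity
    nlinarith
  have hsum := P.sum_all (Q := Q) h s hh
  have htot : (2 : ℝ) ^ P.D.card ≤ Bad1.card + Bad2.card := by
    have e1 := (card_le_card hcover).trans (card_union_le _ _)
    rw [card_powerset] at e1
    exact_mod_cast e1
  have hnV0 : (0 : ℝ) ≤ nV := Nat.cast_nonneg _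
  have h1 := mul_le_mul_of_nonneg_left hsum hnV0
  have hpos : (0 : ℝ) < 2 ^ P.D.card := by positivity
  have h2 : (2 : ℝ) ^ P.D.card * (nV *
      ∑ g : P.V → Fin Q, (if P.NI g then (3 / 4 : ℝ) ^ (P.Fail (P.gn g)).card else 0)) +
      2 ^ P.D.card * ((4 * P.r : ℝ) * (1 / 2) ^ (P.L - (2 * P.m + 6))) < 2 ^ P.D.card := by
    rw [← mul_add]
    calc _ < (2 : ℝ) ^ P.D.card * 1 := by
          refine mul_lt_mul_of_pos_left ?_ hpos
          linarith
      _ = _ := mul_one _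
  linarith

/-- The graph realising the prescribed set. -/
theorem realise (h s : ℕ) (hh : 2 * P.m + 2 * h + 9 + s ≤ P.L)
    (hnum : (Fintype.card P.V : ℝ) *
      (((2 * (Fintype.card P.V + P.D.card) : ℕ) : ℝ) ^ (2 * P.m - P.p) *
        (((2 * (Fintype.card P.V + P.D.card) : ℕ) : ℝ) ^ (2 * P.L + 3) *
          P.B1 (2 * (Fintype.card P.V + P.D.card)) h +
        ((2 * (Fintype.card P.V + P.D.card) : ℕ) : ℝ) ^ 2 *
          P.B2 (2 * (Fintype.card P.V + P.D.card)) h s)) +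
      (4 * P.r : ℝ) * (1 / 2) ^ (P.L - (2 * P.m + 6)) < 1)
    (hd1 : ∀ i, P.p ≤ i → i < P.m → i + 1 ≤ P.d i)
    (hd2 : ∀ i i', P.p ≤ i → i < P.m → P.p ≤ i' → i' < P.m → P.d i + i' = P.d i' + i → i = i') :
    ∃ (V : Type) (_ : Fintype V) (G : SimpleGraph V), G.Connected ∧
      ∀ k, 1 ≤ k → ((P.p ≤ k ∧ k ≤ P.m ∧ ∀ i, P.p ≤ i → i < k → P.d i + P.p ≤ i + k) ↔
        ∃ f : V → ℕ, IsSeq G k f) := by
  obtain ⟨X, hX1, hX2⟩ := P.exists_good h s hh hnum
  refine ⟨P.V, inferInstance, gr P.D (P.ends X), P.connected X hX1, ?_⟩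
  intro k hk
  constructor
  · rintro ⟨h1, h2, h3⟩
    refine ⟨P.f k, P.planted X k h1 h2 ?_ ?_⟩
    · intro i hi1 hi2
      exact ⟨hd1 i hi1 (by omega), h3 i hi1 hi2⟩
    · intro i i' a1 a2 a3 a4 a5
      exact hd2 i i' a1 (by omega) a3 (by omega) a5
  · rintro ⟨g, hg⟩
    obtain ⟨lam, c, hA, hB, hU⟩ := hX2 k g hg hk
    exact P.final X k hk g hg lam c hA hB hU

end Par

end Pool.Agent.helper11.Seq
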