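import Pool.Agent.helper11.Conn

set_option autoImplicit false

namespace Pool.Agent.helper11.Seq

open Finset

namespace Par

variable (P : Par)

/-- an index all of whose possible edges join column and row vertices -/
def core (j a : ℕ) : Prop := (j, a) ∈ P.D ∧ 2 ≤ j ∧ (∀ n i, ¬ (P.isU1 n i j a ∨ P.isU2 n i j a)) ∧
  ¬ (j = P.R ∧ P.m + 1 ≤ a ∧ a ≤ 2 * P.m - 1)

lemma core_ends (X : Finset (ℕ × ℕ)) {j a : ℕ} (h : P.core j a) :
    (∃ a' j', P.m ≤ a' ∧ a' ≤ P.m + 2 * P.L + 2 ∧ 2 ≤ j' ∧ j' ≤ P.R ∧ P.lbl (j, a) + a' = P.b j' ∧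
      P.ends X (j, a) = (P.vA a', P.vB j')) ∨
    (∃ i' j', 2 ≤ i' ∧ i' ≤ P.R ∧ 2 ≤ j' ∧ j' ≤ P.R ∧ P.lbl (j, a) + P.b i' = P.b j' ∧
      P.ends X (j, a) = (P.vB i', P.vB j')) := by
  obtain ⟨hD, h2, hU, hO⟩ := h
  have hR := P.R_def
  have hL := P.hL
  have hs := P.lbl_spec hD
  have hatt : ¬ P.isAtt j a := by
    rintro ⟨i, h⟩; exact hU _ i h
  have hpin : ¬ P.isPin j a := by
    rintro ⟨n, i, -, h⟩; exact hU n i h
  have hD' := (P.mem_D).1 hD
  have hg := P.gap_le' (j - 1)
  have he0 : P.e0 (j, a) = (P.vA a, P.vB j) := by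
    unfold e0
    simp only
    rw [if_neg hatt, if_neg (by omega), if_neg hO]
  by_cases hT : P.T1 j a
  · by_cases hX : (j, a) ∈ X
    · left
      refine ⟨a + P.gap j, j + 1, by omega, ?_, by omega, ?_, ?_, P.ends_test' X hT hX⟩
      · obtain ⟨h3, h4, h5, h6⟩ := hT
        have hg' := P.gap_le j (by omega)
        rcases h6 with ⟨h6, -⟩ | ⟨-, -, -, h6, -⟩
        · have := P.hp; have := P.hpm; omega
        · omega
      · have := hT.2.1; omega
      · rw [b_succ]; omega
    · left
      exact ⟨a, j, hD'.2.2.1, by omega, h2, hD'.2.1, hs.1, P.ends_test X hT hX⟩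
  · by_cases hT2 : P.T2 j a
    · have hslot := P.slot_T2 hT2
      by_cases hX : (j, a) ∈ X
      · right
        obtain ⟨h3, h4, h5⟩ := hT2
        have h5' := P.r_def
        have h9 := P.ρ_ge
        have h10 : 0 ≤ P.K * P.L := Nat.zero_le _
        have hb := P.b_tie ⟨h3, h4, rfl⟩
        refine ⟨2, j + 5, by omega, by omega, by omega, by omega, by rw [h5] at hs ⊢; omega, ?_⟩
        unfold ends
        rw [hslot, if_pos hX]
        unfold e1
        simp only
        rw [if_neg hT, if_pos ⟨h3, h4, h5⟩]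
      · left
        refine ⟨a, j, hD'.2.2.1, by omega, h2, hD'.2.1, hs.1, ?_⟩
        unfold ends
        rw [hslot, if_neg hX, he0]
    · left
      refine ⟨a, j, hD'.2.2.1, by omega, h2, hD'.2.1, hs.1, ?_⟩
      rw [P.ends_plain_of hU hT hT2, he0]

/-- rows far from both ends carry no attachments -/
lemma core_mid {j a : ℕ} (hD : (j, a) ∈ P.D) (h1 : P.ρ ≤ j) (h2 : j ≤ 3 * P.r) : P.core j a := by
  have hR := P.R_def
  have hr := P.r_def
  have hρ := P.ρ_big
  have hL := P.hL
  refine ⟨hD, by omega, ?_, by omega⟩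
  rintro n i (h | h)
  · have := P.isU1_row h; omega
  · have := P.isU2_row h; omega

lemma core_low {j a : ℕ} (hD : (j, a) ∈ P.D) (h1 : 2 ≤ j) (h2 : j ≤ 20 * P.L) : P.core j a := by
  have hR := P.R_def
  have hr := P.r_def
  have hρ := P.ρ_big
  have hL := P.hL
  refine ⟨hD, h1, ?_, by omega⟩
  rintro n i (h | h)
  · have := P.isU1_row h; omega
  · have := P.isU2_row h; omega

theorem final (X : Finset (ℕ × ℕ)) (k : ℕ) (hk : 1 ≤ k) (g : P.V → ℕ)
    (hg : IsSeq (gr P.D (P.ends X)) k g) (lam c : ℤ)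
    (hA : ∀ a, P.m ≤ a → a ≤ P.m + 2 * P.L + 2 → (g (P.vA a) : ℤ) = lam * a + c)
    (hB : ∀ j, 2 ≤ j → j ≤ P.R → (g (P.vB j) : ℤ) = lam * P.b j + c)
    (hU : ∀ i, P.p ≤ i → i < P.m → (g (P.vU i) : ℤ) = lam * i + c ∨
      (g (P.vU i) : ℤ) = lam * ((P.b P.R : ℤ) + P.d i - i) + c) :
    P.p ≤ k ∧ k ≤ P.m ∧ ∀ i, P.p ≤ i → i < k → P.d i + P.p ≤ i + k := by
  have hL := P.hL
  have hp := P.hp
  have hpm := P.hpm
  have hR := P.R_def
  have hr := P.r_pos
  have hr' := P.r_def
  have hρ := P.ρ_big
  have htot := P.card_total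
  obtain ⟨ginj, glab, gdis, gicc⟩ := isSeq_fwd (P.ends_ne X) (P.ends_inj X) hg
  -- size of the last row
  have hb1 := P.b_one
  have hb2 : P.b 2 = 2 * P.m + 5 * P.L + 5 := by
    have h2 := P.b_run1 1 (by omega)
    rw [show 1 + 1 = 2 from rfl] at h2
    omega
  have hbR : P.b 2 + 30 * P.L ≤ P.b P.R := by
    have h1 := P.b_run1 P.r le_rfl
    have h3 := P.b_mono (show 1 + P.r ≤ P.R by omega)
    rw [h1] at h3
    have h4 : 35 * P.L ≤ P.r * P.L := Nat.mul_le_mul_right _ hr
    omega
  have grange : ∀ v, k ≤ g v ∧ g v + P.p ≤ k + P.b P.R := by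
    intro v
    have := (gicc (g v)).2 (Or.inl ⟨v, rfl⟩)
    rw [Set.mem_Icc] at this
    omega
  have lrange : ∀ x ∈ P.D, k ≤ lab g (P.ends X x) := by
    intro x hx
    have := (gicc (lab g (P.ends X x))).2 (Or.inr ⟨x, hx, rfl⟩)
    rw [Set.mem_Icc] at this
    exact this.1
  -- labels of core edges
  have hcl : ∀ j a, P.core j a → (lab g (P.ends X (j, a)) : ℤ) = |lam| * P.lbl (j, a) := by
    intro j a h
    unfold lab
    rcases P.core_ends X h with ⟨a', j', h1, h2, h3, h4, h5, h6⟩ | ⟨i', j', h1, h2, h3, h4, h5, h6⟩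
    · rw [h6]
      simp only
      rw [hA a' h1 h2, hB j' h3 h4, Int.natCast_natAbs]
      have : (P.b j' : ℤ) = P.lbl (j, a) + a' := by exact_mod_cast h5.symm
      rw [this, show lam * (a' : ℤ) + c - (lam * ((P.lbl (j, a) : ℤ) + a') + c) =
        -(lam * P.lbl (j, a)) by ring, abs_neg, abs_mul, Nat.abs_cast]
    · rw [h6]
      simp only
      rw [hB i' h1 h2, hB j' h3 h4, Int.natCast_natAbs]
      have : (P.b j' : ℤ) = P.lbl (j, a) + P.b i' := by exact_mod_cast h5.symm
      rw [this, show lam * (P.b i' : ℤ) + c - (lam * ((P.lbl (j, a) : ℤ) + P.b i') + c) =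
        -(lam * P.lbl (j, a)) by ring, abs_neg, abs_mul, Nat.abs_cast]
  have hAm := hA P.m le_rfl (by omega)
  have hAm1 := hA (P.m + 1) (by omega) (by omega)
  have hBR := hB P.R (by omega) le_rfl
  have hrAm := grange (P.vA P.m)
  have hrBR := grange (P.vB P.R)
  have hlam0 : lam ≠ 0 := by
    intro h0
    rw [h0] at hAm hAm1
    have : g (P.vA P.m) = g (P.vA (P.m + 1)) := by
      have : (g (P.vA P.m) : ℤ) = g (P.vA (P.m + 1)) := by rw [hAm, hAm1]; ring
      exact_mod_cast this
    have h1 := congrArg (P.f 0) (ginj this)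
    rw [P.f_vA 0 le_rfl (by omega), P.f_vA 0 (by omega) (by omega)] at h1
    omega
  have hlam : |lam| = 1 := by
    have h1 : 1 ≤ |lam| := Int.one_le_abs hlam0
    by_contra hne
    have h2 : 2 ≤ |lam| := by omega
    have h3 : |lam| * ((P.b P.R : ℤ) - P.m) = |(g (P.vB P.R) : ℤ) - g (P.vA P.m)| := by
      rw [hBR, hAm, show lam * (P.b P.R : ℤ) + c - (lam * (P.m : ℤ) + c) =
        lam * ((P.b P.R : ℤ) - P.m) by ring, abs_mul]
      congr 1
      rw [abs_of_nonneg]
      omega
    have h4 : |(g (P.vB P.R) : ℤ) - g (P.vA P.m)| ≤ (P.b P.R : ℤ) - P.p := by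
      rw [abs_le]
      constructor <;> omega
    nlinarith
  have hcl' : ∀ j a, P.core j a → lab g (P.ends X (j, a)) = P.lbl (j, a) := by
    intro j a h
    have := hcl j a h
    rw [hlam, one_mul] at this
    exact_mod_cast this
  have hcv : ∀ j a, P.core j a → ∀ v, g v ≠ P.lbl (j, a) := by
    intro j a h v
    rw [← hcl' j a h]
    exact gdis v _ h.1
  -- bound on k
  have hk2 : k ≤ P.m + 5 * P.L + 5 := by
    have hg1 := P.gap_run1 (j := 1) le_rfl (by omega)
    have hD : (2, P.m) ∈ P.D := by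
      rw [mem_D, show 2 - 1 = 1 from rfl, hg1]
      exact ⟨by omega, by omega, le_rfl, by omega, by omega⟩
    have hc := P.core_low hD le_rfl (by omega)
    have h1 := lrange _ hD
    rw [hcl' _ _ hc] at h1
    have h2 := P.lbl_spec hD
    omega
  -- a general lemma on runs: a number `b j0 + s` (not a row) is a core label
  have hrun : ∀ (G j0 : ℕ) (s : ℕ), P.L ≤ G → 1 ≤ j0 →
      (∀ i, i ≤ s / G + 3 → P.gap (j0 + i) = G ∧ P.b (j0 + i) = P.b j0 + i * G) →
      (∀ i a, i ≤ s / G + 3 → (j0 + i, a) ∈ P.D → 1 ≤ i → P.core (j0 + i) a) →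
      j0 + s / G + 3 ≤ P.R → s % G ≠ 0 → ∀ v, g v ≠ P.b j0 + s := by
    intro G j0 s hG hj0 hrows hcore hR' hs v
    have hGpos : 0 < G := by omega
    have h1 := Nat.div_add_mod s G
    have h2 := Nat.mod_lt s hGpos
    generalize s / G = q at *
    generalize s % G = w at *
    have e1 : G * q = q * G := Nat.mul_comm _ _
    rcases Nat.lt_or_ge (G - w) P.m with h3 | h3
    · -- second window
      have hr1 := hrows (q + 1) (by omega)
      have hr2 := hrows (q + 2) (by omega)
      have hD : (j0 + (q + 2), (G - w) + G) ∈ P.D := by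
        rw [mem_D, show j0 + (q + 2) - 1 = j0 + (q + 1) by omega, hr1.1]
        exact ⟨by omega, by omega, by omega, by omega, by omega⟩
      have hc := hcore (q + 2) _ (by omega) hD (by omega)
      have hl := P.lbl_spec hD
      have e2 : (q + 2) * G = q * G + 2 * G := by ring
      have : P.lbl (j0 + (q + 2), (G - w) + G) = P.b j0 + s := by
        rw [hr2.2] at hl
        omega
      rw [← this]
      exact hcv _ _ hc v
    · have hr0 := hrows q (by omega)
      have hr1 := hrows (q + 1) (by omega)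
      have hD : (j0 + (q + 1), G - w) ∈ P.D := by
        rw [mem_D, show j0 + (q + 1) - 1 = j0 + q by omega, hr0.1]
        exact ⟨by omega, by omega, by omega, by omega, by omega⟩
      have hc := hcore (q + 1) _ (by omega) hD (by omega)
      have hl := P.lbl_spec hD
      have e2 : (q + 1) * G = q * G + G := by ring
      have : P.lbl (j0 + (q + 1), G - w) = P.b j0 + s := by
        rw [hr1.2] at hl
        omega
      rw [← this]
      exact hcv _ _ hc v
  -- runs two and three
  have run2 : ∀ i, i ≤ 20 → P.gap (P.r + 2 + i) = P.L + 2 ∧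
      P.b (P.r + 2 + i) = P.b (P.r + 2) + i * (P.L + 2) := by
    intro i hi
    refine ⟨P.gap_run2 (by omega) (by omega), ?_⟩
    have h1 := P.b_run2 (1 + i) (by omega)
    have h2 := P.b_run2 1 (by omega)
    rw [show P.r + 1 + (1 + i) = P.r + 2 + i by omega] at h1
    rw [show P.r + 1 + 1 = P.r + 2 by omega] at h2
    rw [h1, h2]; ring
  have run3 : ∀ i, i ≤ 20 → P.gap (2 * P.r + 2 + i) = P.L + 3 ∧
      P.b (2 * P.r + 2 + i) = P.b (2 * P.r + 2) + i * (P.L + 3) := by
    intro i hi
    refine ⟨P.gap_run3 (by omega) (by omega), ?_⟩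
    have h1 := P.b_run3 (1 + i) (by omega)
    have h2 := P.b_run3 1 (by omega)
    rw [show 2 * P.r + 1 + (1 + i) = 2 * P.r + 2 + i by omega] at h1
    rw [show 2 * P.r + 1 + 1 = 2 * P.r + 2 by omega] at h2
    rw [h1, h2]; ring
  have hlamc : lam = 1 ∨ lam = -1 := by
    rcases abs_eq (by norm_num : (0 : ℤ) ≤ 1) |>.1 hlam with h | h
    · exact Or.inl h
    · exact Or.inr h
  rcases hlamc with h1 | h1
  · subst h1
    -- c = 0
    have hc0 : c = 0 := by
      rcases lt_trichotomy c 0 with h | h | h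
      · exfalso
        obtain ⟨q, hq⟩ : ∃ q : ℕ, c = -(q : ℤ) := ⟨c.natAbs, by omega⟩
        have hq1 : 1 ≤ q := by omega
        have hq2 : q + 1 ≤ P.m := by omega
        have hr1 := run2 0 (by omega)
        have hr2 := run2 1 (by omega)
        have hD : (P.r + 2 + 1, P.L + 2 + q) ∈ P.D := by
          rw [mem_D, show P.r + 2 + 1 - 1 = P.r + 2 + 0 by omega, hr1.1]
          exact ⟨by omega, by omega, by omega, by omega, by omega⟩
        have hc := P.core_mid hD (by omega) (by omega)
        have hl := P.lbl_spec hD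
        rw [hr2.2] at hl
        refine hcv _ _ hc (P.vB (P.r + 2)) ?_
        have := hB (P.r + 2) (by omega) (by omega)
        omega
      · exact h
      · exfalso
        obtain ⟨s, hs⟩ : ∃ s : ℕ, c = (s : ℤ) := ⟨c.natAbs, by omega⟩
        have hs1 : 1 ≤ s := by omega
        have hs2 : s ≤ P.m + 5 * P.L + 4 := by omega
        have hdiv : ∀ G, P.L ≤ G → s / G ≤ 6 := by
          intro G hG
          have : s < 7 * G := by omega
          have := (Nat.div_lt_iff_lt_mul (show 0 < G by omega)).2 this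
          omega
        by_cases hmod : s % (P.L + 2) = 0
        · have hmod' : s % (P.L + 3) ≠ 0 := by
            intro h0
            have e1 := Nat.div_add_mod s (P.L + 2)
            have e2 := Nat.div_add_mod s (P.L + 3)
            have h6 := hdiv (P.L + 2) (by omega)
            have h7 := hdiv (P.L + 3) (by omega)
            rw [hmod] at e1
            rw [h0] at e2
            generalize s / (P.L + 2) = u at *
            generalize s / (P.L + 3) = v at *
            interval_cases u <;> interval_cases v <;> omega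
          have h7 := hdiv (P.L + 3) (by omega)
          refine hrun (P.L + 3) (2 * P.r + 2) s (by omega) (by omega)
            (fun i hi => run3 i (by omega))
            (fun i a hi hD _ => P.core_mid hD (by omega) (by omega)) (by omega) hmod'
            (P.vB (2 * P.r + 2)) ?_
          have := hB (2 * P.r + 2) (by omega) (by omega)
          omega
        · have h7 := hdiv (P.L + 2) (by omega)
          refine hrun (P.L + 2) (P.r + 2) s (by omega) (by omega)
            (fun i hi => run2 i (by omega))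
            (fun i a hi hD _ => P.core_mid hD (by omega) (by omega)) (by omega) hmod
            (P.vB (P.r + 2)) ?_
          have := hB (P.r + 2) (by omega) (by omega)
          omega
    subst hc0
    refine ⟨by omega, by omega, ?_⟩
    intro i hi1 hi2
    have h2 := hU i hi1 (by omega)
    have h3 := grange (P.vU i)
    rcases h2 with h2 | h2
    · omega
    · omega
  · exfalso
    subst h1
    -- reflection
    obtain ⟨κ, hκ⟩ : ∃ κ : ℕ, c = (P.b P.R : ℤ) + κ := ⟨(c - P.b P.R).toNat, by omega⟩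
    have hκ1 : κ ≤ 2 * P.m + 5 * P.L + 5 := by omega
    have hrow : ∀ x, x ≤ 20 → (g (P.vB (P.R - x)) : ℤ) = κ + x * (P.L + 1) := by
      intro x hx
      have e1 := P.b_top x (by omega)
      have e2 := hB (P.R - x) (by omega) (by omega)
      rw [e2, hκ, ← e1]
      push_cast
      ring
    have hne : ∀ x, 10 ≤ x → x ≤ 11 → (κ + x * (P.L + 1) - P.b 1) % P.L = 0 := by
      intro x hx1 hx2
      by_contra hmod
      have e0 : x * (P.L + 1) ≤ 11 * (P.L + 1) := Nat.mul_le_mul_right _ hx2
      have e0' : 10 * (P.L + 1) ≤ x * (P.L + 1) := Nat.mul_le_mul_right _ hx1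
      have hdiv : (κ + x * (P.L + 1) - P.b 1) / P.L ≤ 20 := by
        have : κ + x * (P.L + 1) - P.b 1 < 21 * P.L := by omega
        have := (Nat.div_lt_iff_lt_mul (show 0 < P.L by omega)).2 this
        omega
      refine hrun P.L 1 (κ + x * (P.L + 1) - P.b 1) le_rfl le_rfl ?_ ?_ (by omega) hmod
        (P.vB (P.R - x)) ?_
      · intro i hi
        refine ⟨P.gap_run1 (by omega) (by omega), ?_⟩
        rw [P.b_run1 i (by omega), hb1]
      · intro i a hi hD hi1
        exact P.core_low hD (by omega) (by omega)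
      · have := hrow x (by omega)
        have h3 : P.b 1 ≤ κ + x * (P.L + 1) := by omega
        rw [Nat.add_sub_cancel' h3]
        exact_mod_cast this
    have h10 := hne 10 le_rfl (by omega)
    have h11 := hne 11 (by omega) le_rfl
    have h12 : P.b 1 ≤ κ + 10 * (P.L + 1) := by omega
    have e : κ + 11 * (P.L + 1) - P.b 1 = (κ + 10 * (P.L + 1) - P.b 1) + 1 + P.L := by omega
    rw [e, Nat.add_mod_right, Nat.add_mod, h10, zero_add, Nat.mod_mod,
      Nat.mod_eq_of_lt (by omega)] at h11
    omega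

end Par

end Pool.Agent.helper11.Seq
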