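import Mathlib

set_option autoImplicit false

/-! Graphs given by a finite family of edges, and sequential numberings. -/

namespace Pool.Agent.helper11.Seq

open Finset

/-- label of a pair -/
def lab {V : Type*} (f : V → ℕ) (e : V × V) : ℕ := Int.natAbs ((f e.1 : ℤ) - (f e.2 : ℤ))

lemma lab_swap {V : Type*} (f : V → ℕ) (u v : V) : lab f (u, v) = lab f (v, u) := by
  unfold lab
  simp only
  rw [← Int.natAbs_neg]
  congr 1
  ring

/-- the statement that `f` is a `k`-sequential numbering of `G`, as in the frozen statement -/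
def IsSeq {V : Type} (G : SimpleGraph V) (k : ℕ) (f : V → ℕ) : Prop :=
  Function.Injective f ∧
    (∀ u v x y : V, G.Adj u v → G.Adj x y →
      Int.natAbs ((f u : ℤ) - (f v : ℤ)) = Int.natAbs ((f x : ℤ) - (f y : ℤ)) →
        s(u, v) = s(x, y)) ∧
    (∀ u v w : V, G.Adj u v → f w ≠ Int.natAbs ((f u : ℤ) - (f v : ℤ))) ∧
    Set.range f ∪ {d : ℕ | ∃ u v : V, G.Adj u v ∧ d = Int.natAbs ((f u : ℤ) - (f v : ℤ))} =
      Set.Icc k (k + Nat.card V + G.edgeSet.ncard - 1)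

section

variable {V : Type} {ι : Type} (D : Finset ι) (ends : ι → V × V)

/-- the graph with the given family of edges -/
def gr : SimpleGraph V where
  Adj u v := u ≠ v ∧ ∃ x ∈ D, ends x = (u, v) ∨ ends x = (v, u)
  symm := ⟨by
    rintro u v ⟨h, x, hx, h'⟩
    exact ⟨h.symm, x, hx, h'.symm⟩⟩
  loopless := ⟨by
    rintro u ⟨h, -⟩
    exact h rfl⟩

variable {D ends}

lemma gr_adj {u v : V} : (gr D ends).Adj u v ↔ u ≠ v ∧ ∃ x ∈ D, ends x = (u, v) ∨ ends x = (v, u) :=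
  Iff.rfl

lemma gr_adj_ends (hne : ∀ x ∈ D, (ends x).1 ≠ (ends x).2) {x : ι} (hx : x ∈ D) :
    (gr D ends).Adj (ends x).1 (ends x).2 := ⟨hne x hx, x, hx, Or.inl rfl⟩

lemma lab_of_adj (f : V → ℕ) {u v : V} {x : ι} (h : ends x = (u, v) ∨ ends x = (v, u)) :
    lab f (ends x) = Int.natAbs ((f u : ℤ) - (f v : ℤ)) := by
  rcases h with h | h
  · rw [h]; rfl
  · rw [h, lab_swap]; rfl

lemma edgeSet_gr (hne : ∀ x ∈ D, (ends x).1 ≠ (ends x).2) :
    (gr D ends).edgeSet = (fun x => s((ends x).1, (ends x).2)) '' (D : Set ι) := by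
  ext e
  induction e using Sym2.ind with
  | _ u v =>
    rw [SimpleGraph.mem_edgeSet, gr_adj]
    constructor
    · rintro ⟨-, x, hx, h | h⟩
      · exact ⟨x, hx, by simp only [h]⟩
      · exact ⟨x, hx, by simp only [h, Sym2.eq_swap]⟩
    · rintro ⟨x, hx, h⟩
      simp only at h
      rw [Sym2.eq_iff] at h
      have h3 := hne x hx
      rcases h with ⟨h1, h2⟩ | ⟨h1, h2⟩
      · refine ⟨by rwa [h1, h2] at h3, x, hx, Or.inl ?_⟩
        rw [← h1, ← h2]
      · refine ⟨by rw [h1, h2] at h3; exact h3.symm, x, hx, Or.inr ?_⟩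
        rw [← h1, ← h2]

lemma ncard_gr (hne : ∀ x ∈ D, (ends x).1 ≠ (ends x).2)
    (hinj : ∀ x ∈ D, ∀ y ∈ D, s((ends x).1, (ends x).2) = s((ends y).1, (ends y).2) → x = y) :
    (gr D ends).edgeSet.ncard = D.card := by
  rw [edgeSet_gr hne, Set.InjOn.ncard_image, Set.ncard_coe_finset]
  intro x hx y hy h
  exact hinj x hx y hy h

lemma isSeq_fwd [Fintype V] (hne : ∀ x ∈ D, (ends x).1 ≠ (ends x).2)
    (hinj : ∀ x ∈ D, ∀ y ∈ D, s((ends x).1, (ends x).2) = s((ends y).1, (ends y).2) → x = y)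
    {k : ℕ} {f : V → ℕ} (h : IsSeq (gr D ends) k f) :
    Function.Injective f ∧ (∀ x ∈ D, ∀ y ∈ D, lab f (ends x) = lab f (ends y) → x = y) ∧
    (∀ v, ∀ x ∈ D, f v ≠ lab f (ends x)) ∧
    (∀ t, (t ∈ Set.Icc k (k + Fintype.card V + D.card - 1)) ↔
      ((∃ v, f v = t) ∨ ∃ x ∈ D, lab f (ends x) = t)) := by
  obtain ⟨h1, h2, h3, h4⟩ := h
  refine ⟨h1, ?_, ?_, ?_⟩
  · intro x hx y hy hxy
    exact hinj x hx y hy (h2 _ _ _ _ (gr_adj_ends hne hx) (gr_adj_ends hne hy) hxy)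
  · intro v x hx
    exact h3 _ _ v (gr_adj_ends hne hx)
  · intro t
    rw [ncard_gr hne hinj, Nat.card_eq_fintype_card] at h4
    rw [← h4]
    constructor
    · rintro (⟨v, hv⟩ | ⟨u, v, ⟨-, x, hx, hxe⟩, ht⟩)
      · exact Or.inl ⟨v, hv⟩
      · exact Or.inr ⟨x, hx, by rw [lab_of_adj f hxe, ht]⟩
    · rintro (⟨v, hv⟩ | ⟨x, hx, ht⟩)
      · exact Or.inl ⟨v, hv⟩
      · exact Or.inr ⟨_, _, gr_adj_ends hne hx, ht.symm⟩

lemma isSeq_bwd [Fintype V] (hne : ∀ x ∈ D, (ends x).1 ≠ (ends x).2)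
    (hinj : ∀ x ∈ D, ∀ y ∈ D, s((ends x).1, (ends x).2) = s((ends y).1, (ends y).2) → x = y)
    (hV : 0 < Fintype.card V) {k : ℕ} {f : V → ℕ} (h1 : Function.Injective f)
    (h2 : ∀ x ∈ D, ∀ y ∈ D, lab f (ends x) = lab f (ends y) → x = y)
    (h3 : ∀ v, ∀ x ∈ D, f v ≠ lab f (ends x))
    (h4 : ∀ v, k ≤ f v ∧ f v < k + Fintype.card V + D.card)
    (h5 : ∀ x ∈ D, k ≤ lab f (ends x) ∧ lab f (ends x) < k + Fintype.card V + D.card) :
    IsSeq (gr D ends) k f := by
  classical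
  refine ⟨h1, ?_, ?_, ?_⟩
  · rintro u v x y ⟨-, a, ha, hae⟩ ⟨-, b, hb, hbe⟩ h
    rw [← lab_of_adj f hae, ← lab_of_adj f hbe] at h
    have hab := h2 a ha b hb h
    subst hab
    rcases hae with hae | hae <;> rcases hbe with hbe | hbe <;>
      · rw [hae] at hbe
        simp only [Prod.mk.injEq] at hbe
        obtain ⟨e1, e2⟩ := hbe
        subst e1
        subst e2
        first | rfl | exact Sym2.eq_swap
  · rintro u v w ⟨-, a, ha, hae⟩
    rw [← lab_of_adj f hae]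
    exact h3 w a ha
  · rw [ncard_gr hne hinj, Nat.card_eq_fintype_card]
    have hset : {d : ℕ | ∃ u v : V, (gr D ends).Adj u v ∧ d = Int.natAbs ((f u : ℤ) - (f v : ℤ))} =
        ((D.image (fun x => lab f (ends x)) : Finset ℕ) : Set ℕ) := by
      ext t
      simp only [Set.mem_ofPred_eq, coe_image, Set.mem_image, mem_coe]
      constructor
      · rintro ⟨u, v, ⟨-, x, hx, hxe⟩, ht⟩
        exact ⟨x, hx, by rw [lab_of_adj f hxe, ht]⟩
      · rintro ⟨x, hx, ht⟩
        exact ⟨_, _, gr_adj_ends hne hx, ht.symm⟩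
    have hrange : Set.range f = ((univ.image f : Finset ℕ) : Set ℕ) := by simp
    rw [hset, hrange, ← coe_union, ← coe_Icc, coe_inj]
    refine eq_of_subset_of_card_le ?_ ?_
    · intro t ht
      rw [mem_union, mem_image, mem_image] at ht
      rw [mem_Icc]
      rcases ht with ⟨v, -, rfl⟩ | ⟨x, hx, rfl⟩
      · have := h4 v; omega
      · have := h5 x hx; omega
    · rw [card_union_of_disjoint, card_image_of_injective _ h1, card_image_of_injOn, Nat.card_Icc,
        card_univ]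
      · omega
      · intro x hx y hy h
        exact h2 x hx y hy h
      · rw [disjoint_left]
        intro t ht ht'
        obtain ⟨v, -, rfl⟩ := mem_image.1 ht
        obtain ⟨x, hx, h⟩ := mem_image.1 ht'
        exact h3 v x hx h.symm

end

end Pool.Agent.helper11.Seq
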