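import Pool.Agent.helper11.Exist

set_option autoImplicit false

/-! Choice of the parameters. -/

namespace Pool.Agent.helper11.Seq

open Finset

lemma theta_pow (n : ℕ) : (3 / 4 : ℝ) ^ n ≤ (1 / 2) ^ (n / 3) := by
  have h1 : (3 / 4 : ℝ) ^ n ≤ (3 / 4) ^ (3 * (n / 3)) :=
    pow_le_pow_of_le_one (by norm_num) (by norm_num) (Nat.mul_div_le n 3)
  refine h1.trans ?_
  rw [pow_mul]
  exact pow_le_pow_left₀ (by norm_num) (by norm_num) _

lemma two_half {a b : ℕ} (h : a + 3 ≤ b) : (2 : ℝ) ^ a * (1 / 2) ^ b ≤ 1 / 8 := by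
  have h1 : (1 / 2 : ℝ) ^ b ≤ (1 / 2) ^ (a + 3) :=
    pow_le_pow_of_le_one (by norm_num) (by norm_num) h
  calc (2 : ℝ) ^ a * (1 / 2) ^ b ≤ 2 ^ a * (1 / 2) ^ (a + 3) :=
        mul_le_mul_of_nonneg_left h1 (by positivity)
    _ = 1 / 8 := by
        rw [pow_add, ← mul_assoc, ← mul_pow]
        norm_num

lemma exists_q (m : ℕ) : 1000 * ((m + 3) * (m + 30 + 1)) ≤ 2 ^ (m + 30) := by
  induction m with
  | zero => norm_num
  | succ m ih =>
    rw [show m + 1 + 30 = (m + 30) + 1 by omega, pow_succ]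
    nlinarith

lemma exp_bound (x : ℝ) (hx : 0 ≤ x) (n : ℕ) (h : n * x ≤ 1) : (1 + x) ^ n ≤ 3 := by
  have h1 : (1 + x) ^ n ≤ Real.exp x ^ n :=
    pow_le_pow_left₀ (by linarith) (by linarith [Real.add_one_le_exp x]) n
  rw [← Real.exp_nat_mul] at h1
  refine h1.trans ?_
  refine (Real.exp_le_exp.2 h).trans ?_
  have := Real.exp_one_lt_d9
  linarith

namespace Par

variable (P : Par)

lemma b_R : P.b P.R = 2 * P.m + 4 * P.L + 5 + P.r * (4 * P.L + 6) := by
  have h1 := P.b_run1 P.r le_rfl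
  have h2 := P.b_run2 P.r le_rfl
  have h3 := P.b_run3 P.r le_rfl
  have h4 := P.b_run4 P.r
  rw [show 1 + P.r = P.r + 1 by omega] at h1
  rw [show P.r + 1 + P.r = 2 * P.r + 1 by omega, h1] at h2
  rw [show 2 * P.r + 1 + P.r = 3 * P.r + 1 by omega, h2] at h3
  rw [show 3 * P.r + 1 + P.r = P.R by rw [R_def]; omega, h3] at h4
  rw [h4]
  ring

theorem numer (q : ℕ) (hq : P.L = 2 ^ q) (hLL : 1000 * ((P.m + 3) * (q + 1)) ≤ P.L)
    (hK : P.K = P.L) (hρ : P.ρ = P.L ^ 3) :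
    (Fintype.card P.V : ℝ) *
      (((2 * (Fintype.card P.V + P.D.card) : ℕ) : ℝ) ^ (2 * P.m - P.p) *
        (((2 * (Fintype.card P.V + P.D.card) : ℕ) : ℝ) ^ (2 * P.L + 3) *
          P.B1 (2 * (Fintype.card P.V + P.D.card)) (P.L / 8) +
        ((2 * (Fintype.card P.V + P.D.card) : ℕ) : ℝ) ^ 2 *
          P.B2 (2 * (Fintype.card P.V + P.D.card)) (P.L / 8) (P.L / 2))) +
      (4 * P.r : ℝ) * (1 / 2) ^ (P.L - (2 * P.m + 6)) < 1 := by
  have hr := P.r_def
  have hp := P.hp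
  have hpm := P.hpm
  set Q := 2 * (Fintype.card P.V + P.D.card) with hQ
  set m := P.m
  set L := P.L
  have hexp : 1000 * ((m + 3) * (q + 1)) = 1000 * (m * q) + 1000 * m + 3000 * q + 3000 := by ring
  have hmq : 0 ≤ m * q := Nat.zero_le _
  have hL3 : 3000 ≤ L := by omega
  have hL4 : 3000 * q ≤ L := by omega
  have hL5 : 1000 * m ≤ L := by omega
  -- Q ≤ L ^ 5
  have hQL : Q ≤ L ^ 5 := by
    have h1 := P.card_total
    have h2 := P.b_R
    rw [hr, hρ] at h2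
    have h3 : Q ≤ 2 * (P.b P.R + 1) := by omega
    have h4 : 2 * (P.b P.R + 1) = 24 * L ^ 4 + 36 * L ^ 3 + 8 * L + 4 * m + 12 := by
      rw [h2]
      ring
    rw [h4] at h3
    have e3 : 36 * L ^ 3 ≤ L ^ 4 := by
      rw [show L ^ 4 = L * L ^ 3 by ring]
      exact Nat.mul_le_mul_right _ (by omega)
    have e1 : 8 * L + 4 * m + 12 ≤ L ^ 4 := by
      have : L * 3000 ≤ L * L ^ 3 := Nat.mul_le_mul_left _ (hL3.trans (Nat.le_self_pow (by norm_num) L))
      rw [show L ^ 4 = L * L ^ 3 by ring]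
      omega
    have e5 : 26 * L ^ 4 ≤ L ^ 5 := by
      rw [show L ^ 5 = L * L ^ 4 by ring]
      exact Nat.mul_le_mul_right _ (by omega)
    omega
  have hQR : (Q : ℝ) ≤ 2 ^ (5 * q) := by
    have : (Q : ℝ) ≤ ((L ^ 5 : ℕ) : ℝ) := by exact_mod_cast hQL
    refine this.trans (le_of_eq ?_)
    rw [hq]
    push_cast
    rw [← pow_mul]
    ring_nf
  have hVQ : (Fintype.card P.V : ℝ) ≤ 2 ^ (5 * q) := by
    refine le_trans ?_ hQR
    have : Fintype.card P.V ≤ Q := by omega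
    exact_mod_cast this
  have hr4 : (4 * P.r : ℝ) ≤ 2 ^ (4 * q) := by
    have h1 : 4 * P.r ≤ L ^ 4 := by
      rw [hr, hρ, show L ^ 4 = L * L ^ 3 by ring]
      have := Nat.mul_le_mul_right (L ^ 3) (show 12 ≤ L by omega)
      omega
    have h2 : ((4 * P.r : ℕ) : ℝ) ≤ ((L ^ 4 : ℕ) : ℝ) := by exact_mod_cast h1
    push_cast at h2
    refine h2.trans (le_of_eq ?_)
    rw [hq]
    push_cast
    rw [← pow_mul]
    ring_nf
  have hQ0 : (0 : ℝ) ≤ Q := Nat.cast_nonneg _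
  have hV0 : (0 : ℝ) ≤ Fintype.card P.V := Nat.cast_nonneg _
  -- the transfer factor
  have hM : (1 + (Q : ℝ) * (3 / 4) ^ (L / 8)) ^ (4 * P.r - 1) ≤ 3 := by
    refine exp_bound _ (by positivity) _ ?_
    have h1 : ((4 * P.r - 1 : ℕ) : ℝ) ≤ 2 ^ (4 * q) := by
      refine le_trans ?_ hr4
      have : 4 * P.r - 1 ≤ 4 * P.r := Nat.sub_le _ _
      have h2 : ((4 * P.r - 1 : ℕ) : ℝ) ≤ ((4 * P.r : ℕ) : ℝ) := by exact_mod_cast this
      push_cast at h2
      exact h2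
    have h2 : (Q : ℝ) * (3 / 4) ^ (L / 8) ≤ 2 ^ (5 * q) * (1 / 2) ^ (L / 8 / 3) :=
      mul_le_mul hQR (theta_pow _) (by positivity) (by positivity)
    calc ((4 * P.r - 1 : ℕ) : ℝ) * ((Q : ℝ) * (3 / 4) ^ (L / 8)) ≤
          2 ^ (4 * q) * (2 ^ (5 * q) * (1 / 2) ^ (L / 8 / 3)) :=
          mul_le_mul h1 h2 (by positivity) (by positivity)
      _ = 2 ^ (9 * q) * (1 / 2) ^ (L / 8 / 3) := by
          rw [← mul_assoc, ← pow_add]; ring_nf
      _ ≤ 1 / 8 := two_half (by omega)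
      _ ≤ 1 := by norm_num
  have hM0 : (0 : ℝ) ≤ (1 + (Q : ℝ) * (3 / 4) ^ (L / 8)) ^ (4 * P.r - 1) := by positivity
  have hpow : ∀ n, (Q : ℝ) ^ n ≤ 2 ^ (5 * q * n) := by
    intro n
    rw [pow_mul]
    exact pow_le_pow_left₀ hQ0 hQR n
  have hQm : (Q : ℝ) ^ (2 * m - P.p) ≤ 2 ^ (5 * q * (2 * m)) := by
    refine (hpow _).trans ?_
    refine pow_le_pow_right₀ (by norm_num) ?_
    exact Nat.mul_le_mul_left _ (Nat.sub_le _ _)
  -- the four terms
  have t1 : (Fintype.card P.V : ℝ) * ((Q : ℝ) ^ (2 * m - P.p) * ((Q : ℝ) ^ (2 * L + 3) *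
      P.B1 Q (L / 8))) ≤ 1 / 8 := by
    have hB : P.B1 Q (L / 8) ≤ (1 / 2) ^ ((P.ρ - 5) / 2 / 3) * (2 ^ (5 * q) * 2 ^ 2) := by
      unfold B1
      refine mul_le_mul (theta_pow _) ?_ (by positivity) (by positivity)
      exact mul_le_mul hQR (hM.trans (by norm_num)) hM0 (by positivity)
    have hB0 : 0 ≤ P.B1 Q (L / 8) := by unfold B1; positivity
    calc _ ≤ 2 ^ (5 * q) * (2 ^ (5 * q * (2 * m)) * (2 ^ (5 * q * (2 * L + 3)) *
          ((1 / 2) ^ ((P.ρ - 5) / 2 / 3) * (2 ^ (5 * q) * 2 ^ 2)))) := by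
          refine mul_le_mul hVQ ?_ (by positivity) (by positivity)
          refine mul_le_mul hQm ?_ (by positivity) (by positivity)
          exact mul_le_mul (hpow _) hB hB0 (by positivity)
      _ = (2 : ℝ) ^ (5 * q * (2 * m + 2 * L + 5) + 2) * (1 / 2) ^ ((P.ρ - 5) / 2 / 3) := by
          ring
      _ ≤ 1 / 8 := by
          refine two_half ?_
          have h1 : 5 * q * (2 * m + 2 * L + 5) ≤ 5 * q * (3 * L) :=
            Nat.mul_le_mul_left _ (by omega)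
          have h2 : 5 * q * (3 * L) ≤ L * L := by
            rw [show 5 * q * (3 * L) = 15 * q * L by ring]
            exact Nat.mul_le_mul_right _ (by omega)
          have h3 : L * L * 3000 ≤ L ^ 3 := by
            rw [show L ^ 3 = L * L * L by ring]
            exact Nat.mul_le_mul_left _ hL3
          have h4 : 3000 * 3000 ≤ L * L := Nat.mul_le_mul hL3 hL3
          rw [hρ]
          omega
  have t2 : (Fintype.card P.V : ℝ) * ((Q : ℝ) ^ (2 * m - P.p) * ((Q : ℝ) ^ 2 *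
      P.B2 Q (L / 8) (L / 2))) ≤ 2 / 8 := by
    have hB : P.B2 Q (L / 8) (L / 2) ≤ (1 / 2) ^ ((L / 2 - 1) / 3) * (2 ^ (5 * q) * 2 ^ 2) +
        2 ^ (5 * q) * (1 / 2) ^ ((P.K - 1) / 3) := by
      unfold B2
      refine add_le_add ?_ ?_
      · refine mul_le_mul (theta_pow _) ?_ (by positivity) (by positivity)
        exact mul_le_mul hQR (hM.trans (by norm_num)) hM0 (by positivity)
      · exact mul_le_mul hQR (theta_pow _) (by positivity) (by positivity)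
    have hB0 : 0 ≤ P.B2 Q (L / 8) (L / 2) := by unfold B2; positivity
    calc _ ≤ 2 ^ (5 * q) * (2 ^ (5 * q * (2 * m)) * (2 ^ (5 * q * 2) *
          ((1 / 2) ^ ((L / 2 - 1) / 3) * (2 ^ (5 * q) * 2 ^ 2) +
        2 ^ (5 * q) * (1 / 2) ^ ((P.K - 1) / 3)))) := by
          refine mul_le_mul hVQ ?_ (by positivity) (by positivity)
          refine mul_le_mul hQm ?_ (by positivity) (by positivity)
          exact mul_le_mul (hpow _) hB hB0 (by positivity)
      _ = (2 : ℝ) ^ (5 * q * (2 * m + 4) + 2) * (1 / 2) ^ ((L / 2 - 1) / 3) +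
          (2 : ℝ) ^ (5 * q * (2 * m + 4)) * (1 / 2) ^ ((P.K - 1) / 3) := by
          ring
      _ ≤ 1 / 8 + 1 / 8 := by
          have h1 : 5 * q * (2 * m + 4) = 10 * (m * q) + 20 * q := by ring
          refine add_le_add (two_half ?_) (two_half ?_)
          · omega
          · rw [hK]
            omega
      _ = 2 / 8 := by norm_num
  have t3 : (4 * P.r : ℝ) * (1 / 2) ^ (L - (2 * m + 6)) ≤ 1 / 8 := by
    refine le_trans (mul_le_mul_of_nonneg_right hr4 (by positivity)) ?_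
    exact two_half (by omega)
  have hsplit : (Fintype.card P.V : ℝ) * ((Q : ℝ) ^ (2 * m - P.p) *
      ((Q : ℝ) ^ (2 * L + 3) * P.B1 Q (L / 8) + (Q : ℝ) ^ 2 * P.B2 Q (L / 8) (L / 2))) =
      (Fintype.card P.V : ℝ) * ((Q : ℝ) ^ (2 * m - P.p) * ((Q : ℝ) ^ (2 * L + 3) *
      P.B1 Q (L / 8))) + (Fintype.card P.V : ℝ) * ((Q : ℝ) ^ (2 * m - P.p) * ((Q : ℝ) ^ 2 *
      P.B2 Q (L / 8) (L / 2))) := by ring
  rw [hsplit]
  linarith

end Par

/-- The realisation theorem without parameters. -/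
theorem realise_abs (p m : ℕ) (hp : 1 ≤ p) (hpm : p ≤ m) (d : ℕ → ℕ)
    (hd : ∀ i, p ≤ i → i < m → 1 ≤ d i ∧ d i ≤ 2 * m)
    (hd1 : ∀ i, p ≤ i → i < m → i + 1 ≤ d i)
    (hd2 : ∀ i i', p ≤ i → i < m → p ≤ i' → i' < m → d i + i' = d i' + i → i = i') :
    ∃ (V : Type) (_ : Fintype V) (G : SimpleGraph V), G.Connected ∧
      ∀ k, 1 ≤ k → ((p ≤ k ∧ k ≤ m ∧ ∀ i, p ≤ i → i < k → d i + p ≤ i + k) ↔
        ∃ f : V → ℕ, IsSeq G k f) := by
  have hq := exists_q m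
  set q := m + 30 with hqq
  set L := 2 ^ q with hL
  have hexp : 1000 * ((m + 3) * (q + 1)) = 1000 * (m * q) + 1000 * m + 3000 * q + 3000 := by ring
  have hmq : 0 ≤ m * q := Nat.zero_le _
  have hL3 : 3000 ≤ L := by omega
  have hL5 : 1000 * m ≤ L := by omega
  let P : Par :=
    { p := p, m := m, L := L, ρ := L ^ 3, K := L, d := d, hp := hp, hpm := hpm
      hL := by omega
      hK := by omega
      hρ := by
        have h1 : 3000 * (L * L) ≤ L ^ 3 := by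
          rw [show L ^ 3 = L * (L * L) by ring]
          exact Nat.mul_le_mul_right _ hL3
        have h2 : 3000 * L ≤ L * L := Nat.mul_le_mul_right _ hL3
        have h3 : (L + 25) * (L + 1) = L * L + 26 * L + 25 := by ring
        rw [h3]
        omega
      hd := hd }
  exact P.realise (L / 8) (L / 2) (show 2 * m + 2 * (L / 8) + 9 + L / 2 ≤ L by omega)
    (P.numer q rfl hq rfl rfl) hd1 hd2

end Pool.Agent.helper11.Seq
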