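import Pool.Agent.helper11.Cons3
import Pool.Agent.helper11.Graph

set_option autoImplicit false

namespace Pool.Agent.helper11.Seq

open Finset

namespace Par

variable (P : Par)

/-- the pair number `n` of the movable vertex `i` is present in the graph given by `X` -/
def act (X : Finset (ℕ × ℕ)) (n i : ℕ) : Prop := n = 20 ∨ (P.xn n i + 1, P.L + i) ∈ X

lemma E1_isU1 {n i : ℕ} (h : P.ok n i) : P.isU1 n i (P.xn n i + 1) (P.L + i) := ⟨h, rfl, rfl⟩

lemma E2_isU2 {n i : ℕ} (h : P.ok n i) : P.isU2 n i (P.yn n i + 1) (P.L + 1 + i) := ⟨h, rfl, rfl⟩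

lemma U_ne_one {n i j a : ℕ} (h : P.isU1 n i j a ∨ P.isU2 n i j a) : j ≠ 1 := by
  have hL := P.hL
  rcases h with h | h
  · have := P.isU1_row h; omega
  · have := P.isU2_row h
    have := P.R_def
    have := P.r_def
    have := P.ρ_big
    omega

lemma not_att_of_pin {n i j a : ℕ} (hn : 21 ≤ n) (h : P.isU1 n i j a ∨ P.isU2 n i j a) :
    ¬ P.isAtt j a := by
  rintro ⟨i', h' | h'⟩
  · rcases h with h | h
    · have := (P.U1_unique h h').1; omega
    · exact P.not_U1_U2 h' h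
  · rcases h with h | h
    · exact P.not_U1_U2 h h'
    · have := (P.U2_unique h h').1; omega

lemma e0_att {i j a : ℕ} (h : P.isU1 20 i j a ∨ P.isU2 20 i j a) :
    P.e0 (j, a) = (P.vU i, P.vB (j - 1)) := by
  unfold e0
  simp only
  rw [if_pos ⟨i, h⟩]
  rcases h with h | h
  · rw [P.iOf_U1 h]
  · rw [P.iOf_U2 h]

lemma e1_att {i j a : ℕ} (h : P.isU1 20 i j a ∨ P.isU2 20 i j a) :
    P.e1 (j, a) = (P.vU i, P.vB (j - 1)) := by
  unfold e1
  simp only
  rw [if_neg (fun h' => P.T1_not_U h' 20 i h), if_neg (fun h' => P.T2_not_U h' 20 i h), if_neg,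
    P.e0_att h]
  rintro ⟨n, i', hn, h'⟩
  exact P.not_att_of_pin hn h' ⟨i, h⟩

lemma e1_pin {n i j a : ℕ} (hn : 21 ≤ n) (h : P.isU1 n i j a ∨ P.isU2 n i j a) :
    P.e1 (j, a) = (P.vU i, P.vB (j - 1)) := by
  unfold e1
  simp only
  rw [if_neg (fun h' => P.T1_not_U h' n i h), if_neg (fun h' => P.T2_not_U h' n i h),
    if_pos ⟨n, i, hn, h⟩]
  rcases h with h | h
  · rw [P.iOf_U1 h]
  · rw [P.iOf_U2 h]

lemma ends_U1_act {X : Finset (ℕ × ℕ)} {n i j a : ℕ} (h : P.isU1 n i j a) (hX : P.act X n i) :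
    P.ends X (j, a) = (P.vU i, P.vB (j - 1)) := by
  unfold ends
  rw [P.slot_U1 h]
  rcases Nat.lt_or_ge 20 n with hn | hn
  · have hX' : (j, a) ∈ X := by
      rcases hX with hX | hX
      · omega
      · obtain ⟨-, rfl, rfl⟩ := h; exact hX
    rw [if_pos hX', P.e1_pin hn (Or.inl h)]
  · have : n = 20 := by have := h.1.2.2.1; omega
    subst this
    rw [P.e1_att (Or.inl h), P.e0_att (Or.inl h)]
    simp

lemma ends_U2_act {X : Finset (ℕ × ℕ)} {n i j a : ℕ} (h : P.isU2 n i j a) (hX : P.act X n i) :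
    P.ends X (j, a) = (P.vU i, P.vB (j - 1)) := by
  unfold ends
  rcases Nat.lt_or_ge 20 n with hn | hn
  · have hX' : (P.xn n i + 1, P.L + i) ∈ X := by
      rcases hX with hX | hX
      · omega
      · exact hX
    rw [P.slot_U2 hn h, if_pos hX', P.e1_pin hn (Or.inr h)]
  · have : n = 20 := by have := h.1.2.2.1; omega
    subst this
    rw [P.e1_att (Or.inr h), P.e0_att (Or.inr h)]
    simp

lemma ends_U1_not {X : Finset (ℕ × ℕ)} {n i j a : ℕ} (h : P.isU1 n i j a) (hX : ¬ P.act X n i) :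
    P.ends X (j, a) = P.e0 (j, a) ∧ ¬ P.isAtt j a := by
  have hn : 21 ≤ n := by
    have h1 := h.1.2.2.1
    by_contra hcon
    exact hX (Or.inl (by omega))
  refine ⟨?_, P.not_att_of_pin hn (Or.inl h)⟩
  unfold ends
  rw [P.slot_U1 h, if_neg]
  intro h'
  apply hX
  right
  obtain ⟨-, rfl, rfl⟩ := h
  exact h'

lemma ends_U2_not {X : Finset (ℕ × ℕ)} {n i j a : ℕ} (h : P.isU2 n i j a) (hX : ¬ P.act X n i) :
    P.ends X (j, a) = P.e0 (j, a) ∧ ¬ P.isAtt j a := by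
  have hn : 21 ≤ n := by
    have h1 := h.1.2.2.1
    by_contra hcon
    exact hX (Or.inl (by omega))
  refine ⟨?_, P.not_att_of_pin hn (Or.inr h)⟩
  unfold ends
  rw [P.slot_U2 hn h, if_neg]
  intro h'
  exact hX (Or.inr h')

/-- Every index is either an active attachment or gives a plain edge. -/
lemma ends_cases (X : Finset (ℕ × ℕ)) {j a : ℕ} (hx : (j, a) ∈ P.D) :
    (∃ n i, P.isU1 n i j a ∧ P.act X n i) ∨ (∃ n i, P.isU2 n i j a ∧ P.act X n i) ∨
      P.Plain (P.ends X (j, a)) (P.lbl (j, a)) := by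
  by_cases h1 : ∃ n i, P.isU1 n i j a
  · obtain ⟨n, i, h1⟩ := h1
    by_cases hX : P.act X n i
    · exact Or.inl ⟨n, i, h1, hX⟩
    · right; right
      obtain ⟨h2, h3⟩ := P.ends_U1_not h1 hX
      rw [h2]
      exact P.e0_plain hx h3
  · by_cases h2 : ∃ n i, P.isU2 n i j a
    · obtain ⟨n, i, h2⟩ := h2
      by_cases hX : P.act X n i
      · exact Or.inr (Or.inl ⟨n, i, h2, hX⟩)
      · right; right
        obtain ⟨h3, h4⟩ := P.ends_U2_not h2 hX
        rw [h3]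
        exact P.e0_plain hx h4
    · right; right
      push Not at h1 h2
      have h3 : ¬ P.isAtt j a := by
        rintro ⟨i, h | h⟩
        · exact h1 _ _ h
        · exact h2 _ _ h
      have h4 : ¬ P.isPin j a := by
        rintro ⟨n, i, -, h | h⟩
        · exact h1 _ _ h
        · exact h2 _ _ h
      unfold ends
      split_ifs
      · exact P.e1_plain hx h3 h4
      · exact P.e0_plain hx h3

lemma U1_vB {n i j a : ℕ} (h : P.isU1 n i j a) (k : ℕ) : P.f k (P.vB (j - 1)) = P.b (P.xn n i) := by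
  have h1 := P.isU1_row h
  have hL := P.hL
  have := P.R_def
  have := P.r_def
  rw [P.f_vB k (by omega) (by omega), h1.2.2.2.2.2]

lemma U2_vB {n i j a : ℕ} (h : P.isU2 n i j a) (k : ℕ) : P.f k (P.vB (j - 1)) = P.b (P.yn n i) := by
  have h1 := P.isU2_row h
  have hL := P.hL
  have := P.R_def
  have := P.r_def
  have := P.ρ_big
  rw [P.f_vB k (by omega) (by omega), h1.2.2.2.2.2]

/-- label of an active first attachment -/
lemma lab_U1 {X : Finset (ℕ × ℕ)} {n i j a : ℕ} (h : P.isU1 n i j a) (hX : P.act X n i) (k : ℕ) :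
    lab (P.f k) (P.ends X (j, a)) =
      if i < k then P.lbl (P.yn n i + 1, P.L + 1 + i) else P.lbl (j, a) := by
  have h1 := P.lbl_U1 h
  have h2 := P.lbl_U2 (P.E2_isU2 h.1)
  have h3 := P.pair_sum h.1
  have h4 := h.1.1
  have h5 := h.1.2.1
  have h6 := P.b_ge (P.xn n i)
  have h7 := P.b_ge (P.yn n i)
  unfold lab
  rw [P.ends_U1_act h hX]
  simp only
  rw [P.U1_vB h k, P.f_vU k h4 h5]
  split_ifs <;> omega

lemma lab_U2 {X : Finset (ℕ × ℕ)} {n i j a : ℕ} (h : P.isU2 n i j a) (hX : P.act X n i) (k : ℕ) :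
    lab (P.f k) (P.ends X (j, a)) =
      if i < k then P.lbl (P.xn n i + 1, P.L + i) else P.lbl (j, a) := by
  have h1 := P.lbl_U2 h
  have h2 := P.lbl_U1 (P.E1_isU1 h.1)
  have h3 := P.pair_sum h.1
  have h4 := h.1.1
  have h5 := h.1.2.1
  have h6 := P.b_ge (P.xn n i)
  have h7 := P.b_ge (P.yn n i)
  unfold lab
  rw [P.ends_U2_act h hX]
  simp only
  rw [P.U2_vB h k, P.f_vU k h4 h5]
  split_ifs <;> omega

/-- In the base labelling the edge with index `x` has label `lbl x`. -/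
lemma lab_base (X : Finset (ℕ × ℕ)) {x : ℕ × ℕ} (hx : x ∈ P.D) :
    lab (P.f 0) (P.ends X x) = P.lbl x := by
  obtain ⟨j, a⟩ := x
  rcases P.ends_cases X hx with ⟨n, i, h, hX⟩ | ⟨n, i, h, hX⟩ | h
  · rw [P.lab_U1 h hX, if_neg (by omega)]
  · rw [P.lab_U2 h hX, if_neg (by omega)]
  · exact P.plain_label h 0

lemma lbl_pos {x : ℕ × ℕ} (hx : x ∈ P.D) : 0 < P.lbl x := by
  have := P.lbl_range hx
  omega

lemma ends_ne (X : Finset (ℕ × ℕ)) : ∀ x ∈ P.D, (P.ends X x).1 ≠ (P.ends X x).2 := by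
  intro x hx h
  have h1 := P.lab_base X hx
  have h2 := P.lbl_pos hx
  unfold lab at h1
  rw [h] at h1
  simp only [sub_self, Int.natAbs_zero] at h1
  omega

lemma ends_inj (X : Finset (ℕ × ℕ)) : ∀ x ∈ P.D, ∀ y ∈ P.D,
    s((P.ends X x).1, (P.ends X x).2) = s((P.ends X y).1, (P.ends X y).2) → x = y := by
  intro x hx y hy h
  apply P.lbl_inj hx hy
  rw [← P.lab_base X hx, ← P.lab_base X hy]
  rw [Sym2.eq_iff] at h
  rcases h with ⟨h1, h2⟩ | ⟨h1, h2⟩
  · unfold lab; rw [h1, h2]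
  · have : P.ends X x = ((P.ends X y).2, (P.ends X y).1) := by rw [← h1, ← h2]
    rw [this, lab_swap]

/-- an index toggled by the planted labelling with threshold `k` -/
def Tog (X : Finset (ℕ × ℕ)) (k : ℕ) (x : ℕ × ℕ) : Prop :=
  ∃ n i, P.ok n i ∧ i < k ∧ P.act X n i ∧
    (x = (P.xn n i + 1, P.L + i) ∨ x = (P.yn n i + 1, P.L + 1 + i))

lemma lab_not_tog {X : Finset (ℕ × ℕ)} {k : ℕ} {x : ℕ × ℕ} (hx : x ∈ P.D) (h : ¬ P.Tog X k x) :
    lab (P.f k) (P.ends X x) = P.lbl x := by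
  obtain ⟨j, a⟩ := x
  rcases P.ends_cases X hx with ⟨n, i, h', hX⟩ | ⟨n, i, h', hX⟩ | h'
  · rw [P.lab_U1 h' hX, if_neg]
    intro hik
    apply h
    refine ⟨n, i, h'.1, hik, hX, Or.inl ?_⟩
    rw [h'.2.1, h'.2.2]
  · rw [P.lab_U2 h' hX, if_neg]
    intro hik
    apply h
    refine ⟨n, i, h'.1, hik, hX, Or.inr ?_⟩
    rw [h'.2.1, h'.2.2]
  · exact P.plain_label h' k

lemma lab_inj_k (X : Finset (ℕ × ℕ)) (k : ℕ) : ∀ x ∈ P.D, ∀ y ∈ P.D,
    lab (P.f k) (P.ends X x) = lab (P.f k) (P.ends X y) → x = y := by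
  intro x hx y hy h
  have mem1 : ∀ {n i}, P.ok n i → (P.xn n i + 1, P.L + i) ∈ P.D := fun h => P.U1_mem_D (P.E1_isU1 h)
  have mem2 : ∀ {n i}, P.ok n i → (P.yn n i + 1, P.L + 1 + i) ∈ P.D :=
    fun h => P.U2_mem_D (P.E2_isU2 h)
  by_cases hxT : P.Tog X k x
  · by_cases hyT : P.Tog X k y
    · obtain ⟨n, i, h1, h2, h3, h4⟩ := hxT
      obtain ⟨n', i', h1', h2', h3', h4'⟩ := hyT
      rcases h4 with rfl | rfl <;> rcases h4' with rfl | rfl
      · rw [P.lab_U1 (P.E1_isU1 h1) h3, P.lab_U1 (P.E1_isU1 h1') h3', if_pos h2, if_pos h2'] at h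
        have h5 := P.lbl_inj (mem2 h1) (mem2 h1') h
        have h6 := P.E2_isU2 h1
        have h6' := P.E2_isU2 h1'
        simp only [Prod.mk.injEq] at h5
        rw [h5.1, h5.2] at h6
        obtain ⟨e1, e2⟩ := P.U2_unique h6 h6'
        rw [e1, e2]
      · rw [P.lab_U1 (P.E1_isU1 h1) h3, P.lab_U2 (P.E2_isU2 h1') h3', if_pos h2, if_pos h2'] at h
        have h5 := P.lbl_inj (mem2 h1) (mem1 h1') h
        have h6 := P.E2_isU2 h1
        have h6' := P.E1_isU1 h1'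
        simp only [Prod.mk.injEq] at h5
        rw [h5.1, h5.2] at h6
        exact absurd h6 (fun h6 => P.not_U1_U2 h6' h6)
      · rw [P.lab_U2 (P.E2_isU2 h1) h3, P.lab_U1 (P.E1_isU1 h1') h3', if_pos h2, if_pos h2'] at h
        have h5 := P.lbl_inj (mem1 h1) (mem2 h1') h
        have h6 := P.E1_isU1 h1
        have h6' := P.E2_isU2 h1'
        simp only [Prod.mk.injEq] at h5
        rw [h5.1, h5.2] at h6
        exact absurd h6' (fun h6' => P.not_U1_U2 h6 h6')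
      · rw [P.lab_U2 (P.E2_isU2 h1) h3, P.lab_U2 (P.E2_isU2 h1') h3', if_pos h2, if_pos h2'] at h
        have h5 := P.lbl_inj (mem1 h1) (mem1 h1') h
        have h6 := P.E1_isU1 h1
        have h6' := P.E1_isU1 h1'
        simp only [Prod.mk.injEq] at h5
        rw [h5.1, h5.2] at h6
        obtain ⟨e1, e2⟩ := P.U1_unique h6 h6'
        rw [e1, e2]
    · exfalso
      rw [P.lab_not_tog hy hyT] at h
      obtain ⟨n, i, h1, h2, h3, h4⟩ := hxT
      apply hyT
      rcases h4 with rfl | rfl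
      · rw [P.lab_U1 (P.E1_isU1 h1) h3, if_pos h2] at h
        have h5 := P.lbl_inj (mem2 h1) hy h
        exact ⟨n, i, h1, h2, h3, Or.inr h5.symm⟩
      · rw [P.lab_U2 (P.E2_isU2 h1) h3, if_pos h2] at h
        have h5 := P.lbl_inj (mem1 h1) hy h
        exact ⟨n, i, h1, h2, h3, Or.inl h5.symm⟩
  · by_cases hyT : P.Tog X k y
    · exfalso
      rw [P.lab_not_tog hx hxT] at h
      obtain ⟨n, i, h1, h2, h3, h4⟩ := hyT
      apply hxT
      rcases h4 with rfl | rfl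
      · rw [P.lab_U1 (P.E1_isU1 h1) h3, if_pos h2] at h
        have h5 := P.lbl_inj hx (mem2 h1) h
        exact ⟨n, i, h1, h2, h3, Or.inr h5⟩
      · rw [P.lab_U2 (P.E2_isU2 h1) h3, if_pos h2] at h
        have h5 := P.lbl_inj hx (mem1 h1) h
        exact ⟨n, i, h1, h2, h3, Or.inl h5⟩
    · rw [P.lab_not_tog hx hxT, P.lab_not_tog hy hyT] at h
      exact P.lbl_inj hx hy h

/-- every edge label of the planted labelling is a label `lbl z` -/
lemma lab_is_lbl (X : Finset (ℕ × ℕ)) (k : ℕ) {x : ℕ × ℕ} (hx : x ∈ P.D) :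
    ∃ z ∈ P.D, lab (P.f k) (P.ends X x) = P.lbl z := by
  by_cases hxT : P.Tog X k x
  · obtain ⟨n, i, h1, h2, h3, h4⟩ := hxT
    rcases h4 with rfl | rfl
    · rw [P.lab_U1 (P.E1_isU1 h1) h3, if_pos h2]
      exact ⟨_, P.U2_mem_D (P.E2_isU2 h1), rfl⟩
    · rw [P.lab_U2 (P.E2_isU2 h1) h3, if_pos h2]
      exact ⟨_, P.U1_mem_D (P.E1_isU1 h1), rfl⟩
  · exact ⟨x, hx, P.lab_not_tog hx hxT⟩

/-- The planted labelling with threshold `k` is `k`-sequential. -/
theorem planted (X : Finset (ℕ × ℕ)) (k : ℕ) (hpk : P.p ≤ k) (hkm : k ≤ P.m)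
    (hk1 : ∀ i, P.p ≤ i → i < k → i + 1 ≤ P.d i ∧ P.d i + P.p ≤ i + k)
    (hk2 : ∀ i i', P.p ≤ i → i < k → P.p ≤ i' → i' < k → P.d i + i' = P.d i' + i → i = i') :
    IsSeq (gr P.D (P.ends X)) k (P.f k) := by
  have hL := P.hL
  have hp := P.hp
  have hR := P.R_def
  have hr := P.r_pos
  have htot := P.card_total
  have hb1 := P.b_one
  have hbR : P.b 2 + 30 * P.L ≤ P.b P.R := by
    have h1 := P.b_run1 P.r le_rfl
    have h2 := P.b_run1 1 (by omega)
    have h3 := P.b_mono (show 1 + P.r ≤ P.R by omega)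
    rw [h1] at h3
    rw [show 1 + 1 = 2 from rfl] at h2
    rw [h2]
    have h4 : 35 * P.L ≤ P.r * P.L := Nat.mul_le_mul_right _ hr
    omega
  have hb2 : P.b 1 + P.L ≤ P.b 2 := P.b_lt (by omega)
  -- the range of the vertex labels
  have hU : ∀ i, P.p ≤ i → i < P.m →
      (k ≤ i ∧ P.f k (P.vU i) = i) ∨ (i < k ∧ P.f k (P.vU i) + i = P.b P.R + P.d i ∧
        P.b P.R + 1 ≤ P.f k (P.vU i) ∧ P.f k (P.vU i) + P.p ≤ P.b P.R + k) := by
    intro i h1 h2
    rcases Nat.lt_or_ge i k with h3 | h3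
    · right
      obtain ⟨h4, h5⟩ := hk1 i h1 h3
      have e : P.f k (P.vU i) = P.b P.R + P.d i - i := by rw [P.f_vU k h1 h2, if_pos h3]
      refine ⟨h3, by omega, by omega, by omega⟩
    · left
      exact ⟨h3, by rw [P.f_vU k h1 h2, if_neg (by omega)]⟩
  have hfinj : Function.Injective (P.f k) := by
    intro u v huv
    rcases P.V_cases u with ⟨a, h1, h2, rfl⟩ | ⟨j, h1, h2, rfl⟩ | rfl | ⟨c, h1, h2, rfl⟩ |
        ⟨i, h1, h2, rfl⟩ <;>
      rcases P.V_cases v with ⟨a', h1', h2', rfl⟩ | ⟨j', h1', h2', rfl⟩ | rfl |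
        ⟨c', h1', h2', rfl⟩ | ⟨i', h1', h2', rfl⟩
    · rw [P.f_vA k h1 h2, P.f_vA k h1' h2'] at huv; rw [huv]
    · rw [P.f_vA k h1 h2, P.f_vB k h1' h2'] at huv
      have := P.b_mono (show 2 ≤ j' from h1'); omega
    · rw [P.f_vA k h1 h2, P.f_vC_zero k] at huv; omega
    · rw [P.f_vA k h1 h2, P.f_vO k h1' h2'] at huv; omega
    · rw [P.f_vA k h1 h2] at huv
      rcases hU i' h1' h2' with h | h <;> omega
    · rw [P.f_vB k h1 h2, P.f_vA k h1' h2'] at huv
      have := P.b_mono (show 2 ≤ j from h1); omega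
    · rw [P.f_vB k h1 h2, P.f_vB k h1' h2'] at huv
      rw [P.b_inj huv]
    · rw [P.f_vB k h1 h2, P.f_vC_zero k] at huv
      have := P.b_mono (show 2 ≤ j from h1); omega
    · rw [P.f_vB k h1 h2, P.f_vO k h1' h2'] at huv
      rcases Nat.lt_or_eq_of_le h2 with h | h
      · have := P.b_lt h; omega
      · subst h; omega
    · rw [P.f_vB k h1 h2] at huv
      have := P.b_mono h2
      have := P.b_mono (show 2 ≤ j from h1)
      rcases hU i' h1' h2' with h | h <;> omega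
    · rw [P.f_vA k h1' h2', P.f_vC_zero k] at huv; omega
    · rw [P.f_vB k h1' h2', P.f_vC_zero k] at huv
      have := P.b_mono (show 2 ≤ j' from h1'); omega
    · rfl
    · rw [P.f_vC_zero k, P.f_vO k h1' h2'] at huv; omega
    · rw [P.f_vC_zero k] at huv
      rcases hU i' h1' h2' with h | h <;> omega
    · rw [P.f_vO k h1 h2, P.f_vA k h1' h2'] at huv; omega
    · rw [P.f_vO k h1 h2, P.f_vB k h1' h2'] at huv
      rcases Nat.lt_or_eq_of_le h2' with h | h
      · have := P.b_lt h; omega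
      · subst h; omega
    · rw [P.f_vC_zero k, P.f_vO k h1 h2] at huv; omega
    · rw [P.f_vO k h1 h2, P.f_vO k h1' h2'] at huv
      have : c = c' := by omega
      rw [this]
    · rw [P.f_vO k h1 h2] at huv
      rcases hU i' h1' h2' with h | h <;> omega
    · rw [P.f_vA k h1' h2'] at huv
      rcases hU i h1 h2 with h | h <;> omega
    · rw [P.f_vB k h1' h2'] at huv
      have := P.b_mono h2'
      have := P.b_mono (show 2 ≤ j' from h1')
      rcases hU i h1 h2 with h | h <;> omega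
    · rw [P.f_vC_zero k] at huv
      rcases hU i h1 h2 with h | h <;> omega
    · rw [P.f_vO k h1' h2'] at huv
      rcases hU i h1 h2 with h | h <;> omega
    · rcases hU i h1 h2 with h | h <;> rcases hU i' h1' h2' with h' | h'
      · have : i = i' := by omega
        rw [this]
      · omega
      · omega
      · rw [hk2 i i' h1 h.1 h1' h'.1 (by omega)]
  refine isSeq_bwd (P.ends_ne X) (P.ends_inj X) ?_ hfinj (P.lab_inj_k X k) ?_ ?_ ?_
  · rw [card_V]; omega
  · intro v x hx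
    obtain ⟨z, hz, hz'⟩ := P.lab_is_lbl X k hx
    rw [hz']
    have hr := P.lbl_range hz
    rcases P.V_cases v with ⟨a, h1, h2, rfl⟩ | ⟨j, h1, h2, rfl⟩ | rfl | ⟨c, h1, h2, rfl⟩ |
        ⟨i, h1, h2, rfl⟩
    · rw [P.f_vA k h1 h2]; omega
    · rw [P.f_vB k h1 h2]; exact P.lbl_ne_b hz (by omega)
    · rw [P.f_vC_zero k]; exact P.lbl_ne_b hz (by omega)
    · rw [P.f_vO k h1 h2]; omega
    · rcases hU i h1 h2 with h | h <;> omega
  · intro v
    rcases P.V_cases v with ⟨a, h1, h2, rfl⟩ | ⟨j, h1, h2, rfl⟩ | rfl | ⟨c, h1, h2, rfl⟩ |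
        ⟨i, h1, h2, rfl⟩
    · rw [P.f_vA k h1 h2]; omega
    · rw [P.f_vB k h1 h2]
      have := P.b_mono h2
      have := P.b_mono (show 2 ≤ j from h1)
      omega
    · rw [P.f_vC_zero k]; omega
    · rw [P.f_vO k h1 h2]; omega
    · rcases hU i h1 h2 with h | h <;> omega
  · intro x hx
    obtain ⟨z, hz, hz'⟩ := P.lab_is_lbl X k hx
    rw [hz']
    have hr := P.lbl_range hz
    omega

end Par

end Pool.Agent.helper11.Seq
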