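import Pool.Agent.helper11.Cat

set_option autoImplicit false

/-! Summing the weights over all non-ideal labellings. -/

namespace Pool.Agent.helper11.Seq

open Finset

namespace Par

variable (P : Par) {Q : ℕ}

/-- labellings of the intended shape -/
def Ideal (g : P.V → ℕ) : Prop := ∃ lam c : ℤ,
  (∀ a, P.m ≤ a → a ≤ P.m + 2 * P.L + 2 → (g (P.vA a) : ℤ) = lam * a + c) ∧
  (∀ j, 2 ≤ j → j ≤ P.R → (g (P.vB j) : ℤ) = lam * P.b j + c) ∧
  (∀ i, P.p ≤ i → i < P.m → (g (P.vU i) : ℤ) = lam * i + c ∨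
      (g (P.vU i) : ℤ) = lam * ((P.b P.R : ℤ) + P.d i - i) + c)

def Rig (γ : Fin (2 * P.L + 3) → Fin Q) : Prop := ∃ lam c : ℤ, lam ≠ 0 ∧
  ∀ a, P.m ≤ a → a ≤ P.m + 2 * P.L + 2 → P.fz γ a = lam * a + c

def NI (g : P.V → Fin Q) : Prop := Function.Injective g ∧ ¬ P.Ideal (P.gn g)

lemma vA_inj {a a' : ℕ} (h1 : P.m ≤ a) (h2 : a ≤ P.m + 2 * P.L + 2) (h3 : P.m ≤ a')
    (h4 : a' ≤ P.m + 2 * P.L + 2) (h : P.vA a = P.vA a') : a = a' := by
  have := congrArg (P.f 0) h
  rwa [P.f_vA 0 h1 h2, P.f_vA 0 h3 h4] at this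

lemma vB_inj {a a' : ℕ} (h1 : 2 ≤ a) (h2 : a ≤ P.R) (h3 : 2 ≤ a')
    (h4 : a' ≤ P.R) (h : P.vB a = P.vB a') : a = a' := by
  have := congrArg (P.f 0) h
  rw [P.f_vB 0 h1 h2, P.f_vB 0 h3 h4] at this
  exact P.b_inj this

lemma fz_inj {γ : Fin (2 * P.L + 3) → Fin Q} {β : Fin (4 * P.r) → Fin Q}
    {ν : Fin (2 * P.m - P.p) → Fin Q} (hinj : Function.Injective (P.glue γ β ν)) {a a' : ℕ}
    (h1 : P.m ≤ a) (h2 : a ≤ P.m + 2 * P.L + 2) (h3 : P.m ≤ a')
    (h4 : a' ≤ P.m + 2 * P.L + 2) (h : P.fz γ a = P.fz γ a') : a = a' := by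
  rw [← P.gn_vA γ β ν, ← P.gn_vA γ β ν] at h
  have h' : P.gn (P.glue γ β ν) (P.vA a) = P.gn (P.glue γ β ν) (P.vA a') := by exact_mod_cast h
  exact P.vA_inj h1 h2 h3 h4 (hinj (Fin.ext h'))

lemma xz_inj {γ : Fin (2 * P.L + 3) → Fin Q} {β : Fin (4 * P.r) → Fin Q}
    {ν : Fin (2 * P.m - P.p) → Fin Q} (hinj : Function.Injective (P.glue γ β ν)) {a a' : ℕ}
    (h1 : 2 ≤ a) (h2 : a ≤ P.R) (h3 : 2 ≤ a')
    (h4 : a' ≤ P.R) (h : P.xz β a = P.xz β a') : a = a' := by
  rw [← P.gn_vB γ β ν, ← P.gn_vB γ β ν] at h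
  have h' : P.gn (P.glue γ β ν) (P.vB a) = P.gn (P.glue γ β ν) (P.vB a') := by exact_mod_cast h
  exact P.vB_inj h1 h2 h3 h4 (hinj (Fin.ext h'))

lemma not_rig {γ : Fin (2 * P.L + 3) → Fin Q} (hne : P.fz γ P.m ≠ P.fz γ (P.m + 1))
    (h : ¬ P.Rig γ) : ∃ t < 4, ∃ a1 a2, P.okc t a1 ∧ P.okc t a2 ∧
      P.fz γ (a1 + (P.L + t)) - P.fz γ a1 ≠ P.fz γ (a2 + (P.L + t)) - P.fz γ a2 := by
  have hL := P.hL
  have hp := P.hp
  have hpm := P.hpm
  by_contra hcon
  push Not at hcon
  apply h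
  have hcl := Rigid.closure P.m P.L (by omega) (by omega) (P.fz γ)
    (fun t => P.fz γ (P.m + (P.L + t)) - P.fz γ P.m) (by
      intro t ht a h1 h2 h3 h4 h5
      have := hcon t ht a P.m ⟨h1, h2, h3, h4, h5⟩
        ⟨le_rfl, by omega, by omega, by omega, by omega⟩
      linarith)
  refine ⟨P.fz γ (P.m + 1) - P.fz γ P.m,
    P.fz γ P.m - P.m * (P.fz γ (P.m + 1) - P.fz γ P.m), ?_, ?_⟩
  · intro h0
    apply hne
    linarith
  · intro a h1 h2
    rw [hcl a h1 h2, Nat.cast_sub h1]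
    ring

open Classical in
theorem sum_nonrigid (γ : Fin (2 * P.L + 3) → Fin Q) (ν : Fin (2 * P.m - P.p) → Fin Q)
    (hγ : ¬ P.Rig γ) (h : ℕ) (hh : 2 * P.m + 2 * h + 9 ≤ P.L) :
    ∑ β : Fin (4 * P.r) → Fin Q, (if P.NI (P.glue γ β ν) then
      (3 / 4 : ℝ) ^ (P.Fail (P.gn (P.glue γ β ν))).card else 0) ≤
      (3 / 4 : ℝ) ^ ((P.ρ - 5) / 2) * (Q * (1 + Q * (3 / 4 : ℝ) ^ h) ^ (4 * P.r - 1)) := by
  have hL := P.hL
  by_cases hinj : ∀ a a', P.m ≤ a → a ≤ P.m + 2 * P.L + 2 → P.m ≤ a' → a' ≤ P.m + 2 * P.L + 2 →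
      P.fz γ a = P.fz γ a' → a = a'
  · obtain ⟨t, ht, a1, a2, h1, h2, hd⟩ := P.not_rig (γ := γ) (by
      intro h0
      have := hinj _ _ le_rfl (by omega) (by omega) (by omega) h0
      omega) hγ
    set W := ((Ico (2 * P.m + 6) (2 * P.m + 6 + 2 * h + 3)).erase a1).erase a2 with hW
    have hWm : ∀ a ∈ W, (2 * P.m + 6 ≤ a ∧ a < P.L) ∧ a ≠ a1 ∧ a ≠ a2 := by
      intro a ha
      rw [hW, mem_erase, mem_erase, mem_Ico] at ha
      exact ⟨by omega, ha.2.1, ha.1⟩
    have hWc : 2 * h + 1 ≤ W.card := by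
      have e1 := pred_card_le_card_erase (s := Ico (2 * P.m + 6) (2 * P.m + 6 + 2 * h + 3)) (a := a1)
      have e2 := pred_card_le_card_erase (s := (Ico (2 * P.m + 6) (2 * P.m + 6 + 2 * h + 3)).erase a1)
        (a := a2)
      rw [Nat.card_Ico] at e1
      rw [← hW] at e2
      omega
    have hsum := P.sum_Z γ W h (by
      intro a ha a' ha' haa
      have := hWm a ha
      have := hWm a' ha'
      exact hinj a a' (by omega) (by omega) (by omega) (by omega) haa) hWc
    calc _ ≤ ∑ β : Fin (4 * P.r) → Fin Q, (3 / 4 : ℝ) ^ ((P.ρ - 5) / 2) * P.Z γ W β := by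
          refine sum_le_sum fun β _ => ?_
          split_ifs with hni
          · exact P.cat1 γ β ν ht h1 h2 hd (fun i j hi1 hi2 hj1 hj2 hij =>
              P.xz_inj hni.1 hi1 hi2 hj1 hj2 hij) W hWm
          · exact mul_nonneg (by positivity) (P.Z_nonneg γ W β)
      _ = (3 / 4 : ℝ) ^ ((P.ρ - 5) / 2) * ∑ β : Fin (4 * P.r) → Fin Q, P.Z γ W β := by
          rw [mul_sum]
      _ ≤ _ := mul_le_mul_of_nonneg_left hsum (by positivity)
  · have : ∀ β : Fin (4 * P.r) → Fin Q, ¬ P.NI (P.glue γ β ν) := by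
      intro β hni
      apply hinj
      intro a a' h1 h2 h3 h4 h5
      exact P.fz_inj hni.1 h1 h2 h3 h4 h5
    rw [sum_eq_zero (fun β _ => if_neg (this β))]
    positivity

/-- rows with constant steps -/
def Perf (lam : ℤ) (β : Fin (4 * P.r) → Fin Q) : Prop :=
  ∀ j, 2 ≤ j → j ≤ 4 * P.r → P.xz β (j + 1) = P.xz β j + lam * P.gap j

lemma perf_form {lam : ℤ} {β : Fin (4 * P.r) → Fin Q} (h : P.Perf lam β) :
    ∀ j, 2 ≤ j → j ≤ P.R → P.xz β j = lam * P.b j + (P.xz β 2 - lam * P.b 2) := by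
  have hR := P.R_def
  intro j hj
  induction j, hj using Nat.le_induction with
  | base => intro _; ring
  | succ j hj ih =>
    intro hj2
    rw [h j hj (by omega), ih (by omega), P.b_succ j]
    push_cast
    ring

open Classical in
lemma perf_card (lam : ℤ) :
    ((univ : Finset (Fin (4 * P.r) → Fin Q)).filter (fun β => P.Perf lam β)).card ≤ Q := by
  have hR := P.R_def
  have hr := P.r_pos
  have h := card_le_card_of_injOn (s := (univ : Finset (Fin (4 * P.r) → Fin Q)).filter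
      (fun β => P.Perf lam β)) (t := (univ : Finset (Fin Q))) (fun β => β ⟨0, by omega⟩)
      (fun _ _ => by simp) (by
        intro β hβ β' hβ' h0
        rw [coe_filter] at hβ hβ'
        have h1 := P.perf_form hβ.2
        have h2 := P.perf_form hβ'.2
        have e : P.xz β 2 = P.xz β' 2 := by
          unfold xz
          have : (⟨(2 - 2) % (4 * P.r), Nat.mod_lt _ (by omega)⟩ : Fin (4 * P.r)) =
              ⟨0, by omega⟩ := by
            apply Fin.ext; simp
          rw [this]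
          simp only at h0
          rw [h0]
        funext x
        have h3 := h1 (x + 2) (by omega) (by omega)
        have h4 := h2 (x + 2) (by omega) (by omega)
        rw [e, ← h4] at h3
        unfold xz at h3
        have e2 : (⟨((x : ℕ) + 2 - 2) % (4 * P.r), Nat.mod_lt _ (by omega)⟩ : Fin (4 * P.r)) = x := by
          apply Fin.ext
          simp only
          rw [Nat.add_sub_cancel, Nat.mod_eq_of_lt x.2]
        rw [e2] at h3
        apply Fin.ext
        exact_mod_cast h3)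
  simpa using h

open Classical in
lemma rig_card :
    ((univ : Finset (Fin (2 * P.L + 3) → Fin Q)).filter (fun γ => P.Rig γ)).card ≤ Q ^ 2 := by
  have hL := P.hL
  have h := card_le_card_of_injOn (s := (univ : Finset (Fin (2 * P.L + 3) → Fin Q)).filter
      (fun γ => P.Rig γ)) (t := (univ : Finset (Fin Q × Fin Q)))
      (fun γ => (γ ⟨0, by omega⟩, γ ⟨1, by omega⟩))
      (fun _ _ => by simp) (by
        intro γ hγ γ' hγ' h0
        rw [coe_filter] at hγ hγ'
        obtain ⟨lam, c, -, h1⟩ := hγ.2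
        obtain ⟨lam', c', -, h2⟩ := hγ'.2
        simp only [Prod.mk.injEq] at h0
        have hval : ∀ (γ : Fin (2 * P.L + 3) → Fin Q) (i : ℕ) (hi : i < 2 * P.L + 3),
            P.fz γ (P.m + i) = ((γ ⟨i, hi⟩ : ℕ) : ℤ) := by
          intro γ i hi
          unfold fz
          have : (⟨(P.m + i - P.m) % (2 * P.L + 3), Nat.mod_lt _ (by omega)⟩ :
              Fin (2 * P.L + 3)) = ⟨i, hi⟩ := by
            apply Fin.ext
            simp only
            rw [Nat.add_sub_cancel_left, Nat.mod_eq_of_lt hi]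
          rw [this]
        have k1 := hval γ 0 (by omega)
        have k1' := hval γ' 0 (by omega)
        have k2 := hval γ 1 (by omega)
        have k2' := hval γ' 1 (by omega)
        rw [h0.1, ← k1'] at k1
        rw [h0.2, ← k2'] at k2
        rw [h1 _ (by omega) (by omega), h2 _ (by omega) (by omega)] at k1 k2
        push_cast at k1 k2
        have hl : lam = lam' := by linarith
        subst hl
        have hc : c = c' := by linarith
        subst hc
        funext x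
        have h3 := hval γ x x.2
        have h4 := hval γ' x x.2
        rw [h1 _ (by omega) (by omega)] at h3
        rw [h2 _ (by omega) (by omega)] at h4
        apply Fin.ext
        have := h3.symm.trans h4
        exact_mod_cast this)
  rw [card_univ, Fintype.card_prod, Fintype.card_fin] at h
  rw [sq]
  exact h

open Classical in
theorem sum_rigid (γ : Fin (2 * P.L + 3) → Fin Q) (ν : Fin (2 * P.m - P.p) → Fin Q)
    (hγ : P.Rig γ) (h s : ℕ) (hh : 2 * P.m + 2 * h + 7 + s ≤ P.L) :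
    ∑ β : Fin (4 * P.r) → Fin Q, (if P.NI (P.glue γ β ν) then
      (3 / 4 : ℝ) ^ (P.Fail (P.gn (P.glue γ β ν))).card else 0) ≤
      (3 / 4 : ℝ) ^ (s - 1) * (Q * (1 + Q * (3 / 4 : ℝ) ^ h) ^ (4 * P.r - 1)) +
        Q * (3 / 4 : ℝ) ^ (P.K - 1) := by
  have hL := P.hL
  obtain ⟨lam, c, hlam, hf⟩ := hγ
  set W := Ico (2 * P.m + 6) (2 * P.m + 6 + (2 * h + 1)) with hW
  set W' := Ico (2 * P.m + 6 + (2 * h + 1)) (2 * P.m + 6 + (2 * h + 1) + s) with hW'
  have hW1 : ∀ a ∈ W, 2 * P.m + 6 ≤ a ∧ a < P.L := by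
    intro a ha
    rw [hW, mem_Ico] at ha
    omega
  have hW2 : ∀ a ∈ W', (2 * P.m + 6 ≤ a ∧ a < P.L) ∧ a ∉ W := by
    intro a ha
    rw [hW', mem_Ico] at ha
    rw [hW, mem_Ico]
    omega
  have hc1 : W.card = 2 * h + 1 := by rw [hW, Nat.card_Ico]; omega
  have hc2 : W'.card = s := by rw [hW', Nat.card_Ico]; omega
  have hsum := P.sum_Z γ W h (by
      intro a ha a' ha' haa
      have h1 := hW1 a ha
      have h2 := hW1 a' ha'
      rw [hf a (by omega) (by omega), hf a' (by omega) (by omega)] at haa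
      have : lam * ((a : ℤ) - a') = 0 := by linarith
      rcases mul_eq_zero.1 this with h | h
      · exact absurd h hlam
      · omega) hc1.ge
  have hpt : ∀ β : Fin (4 * P.r) → Fin Q, (if P.NI (P.glue γ β ν) then
      (3 / 4 : ℝ) ^ (P.Fail (P.gn (P.glue γ β ν))).card else 0) ≤
        (3 / 4 : ℝ) ^ (s - 1) * P.Z γ W β + (if P.Perf lam β then (3 / 4 : ℝ) ^ (P.K - 1) else 0) := by
    intro β
    have hZ := P.Z_nonneg γ W β
    have hZ' : 0 ≤ (3 / 4 : ℝ) ^ (s - 1) * P.Z γ W β := mul_nonneg (by positivity) hZ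
    by_cases hni : P.NI (P.glue γ β ν)
    · rw [if_pos hni]
      by_cases hp : P.Perf lam β
      · rw [if_pos hp]
        have hB := P.perf_form hp
        have hA' : ∀ a, P.m ≤ a → a ≤ P.m + 2 * P.L + 2 →
            (P.gn (P.glue γ β ν) (P.vA a) : ℤ) = lam * a + c := fun a h1 h2 => hf a h1 h2
        have hB' : ∀ j, 2 ≤ j → j ≤ P.R → (P.gn (P.glue γ β ν) (P.vB j) : ℤ) =
            lam * P.b j + (P.xz β 2 - lam * P.b 2) := fun j h1 h2 => hB j h1 h2
        have hF : P.K - 1 ≤ (P.Fail (P.gn (P.glue γ β ν))).card := by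
          by_cases hcc : c = P.xz β 2 - lam * P.b 2
          · rw [← hcc] at hB'
            have hnid := hni.2
            unfold Ideal at hnid
            push Not at hnid
            obtain ⟨i, hi1, hi2, hi3, hi4⟩ := hnid lam c hA' hB'
            exact P.cat4 _ hA' hB' hi1 hi2 hi3 hi4
          · exact P.cat3 _ hA' hB' hlam hcc
        have : (3 / 4 : ℝ) ^ (P.Fail (P.gn (P.glue γ β ν))).card ≤ (3 / 4 : ℝ) ^ (P.K - 1) :=
          pow_le_pow_of_le_one (by norm_num) (by norm_num) hF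
        linarith
      · rw [if_neg hp, add_zero]
        unfold Perf at hp
        push Not at hp
        obtain ⟨j0, hj1, hj2, hj3⟩ := hp
        have := P.cat2 γ β ν hlam hf hj1 hj2 hj3 W W' hW1 hW2
        rwa [hc2] at this
    · rw [if_neg hni]
      have : (0 : ℝ) ≤ (if P.Perf lam β then (3 / 4 : ℝ) ^ (P.K - 1) else 0) := by
        split_ifs <;> positivity
      linarith
  calc _ ≤ ∑ β : Fin (4 * P.r) → Fin Q, ((3 / 4 : ℝ) ^ (s - 1) * P.Z γ W β +
          (if P.Perf lam β then (3 / 4 : ℝ) ^ (P.K - 1) else 0)) := sum_le_sum fun β _ => hpt β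
    _ = (3 / 4 : ℝ) ^ (s - 1) * ∑ β : Fin (4 * P.r) → Fin Q, P.Z γ W β +
        ((univ : Finset (Fin (4 * P.r) → Fin Q)).filter (fun β => P.Perf lam β)).card *
          (3 / 4 : ℝ) ^ (P.K - 1) := by
        rw [sum_add_distrib, ← mul_sum, ← sum_filter, sum_const, nsmul_eq_mul]
    _ ≤ _ := by
        refine add_le_add (mul_le_mul_of_nonneg_left hsum (by positivity)) ?_
        refine mul_le_mul_of_nonneg_right ?_ (by positivity)
        exact_mod_cast P.perf_card lam

/-- bound for the non-rigid part -/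
noncomputable def B1 (Q h : ℕ) : ℝ :=
  (3 / 4 : ℝ) ^ ((P.ρ - 5) / 2) * (Q * (1 + Q * (3 / 4 : ℝ) ^ h) ^ (4 * P.r - 1))

/-- bound for the rigid part -/
noncomputable def B2 (Q h s : ℕ) : ℝ :=
  (3 / 4 : ℝ) ^ (s - 1) * (Q * (1 + Q * (3 / 4 : ℝ) ^ h) ^ (4 * P.r - 1)) +
        Q * (3 / 4 : ℝ) ^ (P.K - 1)

open Classical in
theorem sum_all (h s : ℕ) (hh : 2 * P.m + 2 * h + 9 + s ≤ P.L) :
    ∑ g : P.V → Fin Q, (if P.NI g then (3 / 4 : ℝ) ^ (P.Fail (P.gn g)).card else 0) ≤
      Q ^ (2 * P.m - P.p) * (Q ^ (2 * P.L + 3) * P.B1 Q h + Q ^ 2 * P.B2 Q h s) := by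
  have hB1 : 0 ≤ P.B1 Q h := by unfold B1; positivity
  have hB2 : 0 ≤ P.B2 Q h s := by unfold B2; positivity
  have e1 : ∑ g : P.V → Fin Q, (if P.NI g then (3 / 4 : ℝ) ^ (P.Fail (P.gn g)).card else 0) =
      ∑ γ : Fin (2 * P.L + 3) → Fin Q, ∑ ν : Fin (2 * P.m - P.p) → Fin Q,
        ∑ β : Fin (4 * P.r) → Fin Q, (if P.NI (P.glue γ β ν) then
          (3 / 4 : ℝ) ^ (P.Fail (P.gn (P.glue γ β ν))).card else 0) := by
    rw [← (Equiv.sumArrowEquivProdArrow (Fin (2 * P.L + 3)) (Fin (4 * P.r) ⊕ Fin (2 * P.m - P.p))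
      (Fin Q)).symm.sum_comp, Fintype.sum_prod_type]
    refine sum_congr rfl fun γ _ => ?_
    rw [← (Equiv.sumArrowEquivProdArrow (Fin (4 * P.r)) (Fin (2 * P.m - P.p))
      (Fin Q)).symm.sum_comp, Fintype.sum_prod_type, sum_comm]
    rfl
  rw [e1]
  calc _ ≤ ∑ γ : Fin (2 * P.L + 3) → Fin Q, ∑ ν : Fin (2 * P.m - P.p) → Fin Q,
        (if P.Rig γ then P.B2 Q h s else P.B1 Q h) := by
        refine sum_le_sum fun γ _ => sum_le_sum fun ν _ => ?_
        by_cases hr : P.Rig γ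
        · rw [if_pos hr]
          exact P.sum_rigid γ ν hr h s (by omega)
        · rw [if_neg hr]
          exact P.sum_nonrigid γ ν hr h (by omega)
    _ = Q ^ (2 * P.m - P.p) * ∑ γ : Fin (2 * P.L + 3) → Fin Q,
        (if P.Rig γ then P.B2 Q h s else P.B1 Q h) := by
        rw [mul_sum]
        refine sum_congr rfl fun γ _ => ?_
        rw [sum_const, nsmul_eq_mul]
        congr 1
        simp
    _ ≤ _ := by
        refine mul_le_mul_of_nonneg_left ?_ (by positivity)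
        rw [← sum_filter_add_sum_filter_not univ (fun γ => P.Rig γ)]
        have f1 : ∑ γ ∈ (univ : Finset (Fin (2 * P.L + 3) → Fin Q)).filter (fun γ => P.Rig γ),
            (if P.Rig γ then P.B2 Q h s else P.B1 Q h) ≤ Q ^ 2 * P.B2 Q h s := by
          rw [sum_congr rfl (g := fun _ => P.B2 Q h s)]
          · rw [sum_const, nsmul_eq_mul]
            refine mul_le_mul_of_nonneg_right ?_ hB2
            exact_mod_cast P.rig_card
          · intro γ hγ
            rw [mem_filter] at hγ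
            rw [if_pos hγ.2]
        have f2 : ∑ γ ∈ (univ : Finset (Fin (2 * P.L + 3) → Fin Q)).filter (fun γ => ¬ P.Rig γ),
            (if P.Rig γ then P.B2 Q h s else P.B1 Q h) ≤ Q ^ (2 * P.L + 3) * P.B1 Q h := by
          rw [sum_congr rfl (g := fun _ => P.B1 Q h)]
          · rw [sum_const, nsmul_eq_mul]
            refine mul_le_mul_of_nonneg_right ?_ hB1
            have := card_le_univ ((univ : Finset (Fin (2 * P.L + 3) → Fin Q)).filter
              (fun γ => ¬ P.Rig γ))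
            rw [Fintype.card_fun, Fintype.card_fin, Fintype.card_fin] at this
            exact_mod_cast this
          · intro γ hγ
            rw [mem_filter] at hγ
            rw [if_neg hγ.2]
        linarith

end Par

end Pool.Agent.helper11.Seq
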