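import Mathlib

set_option autoImplicit false

/-! A transfer-matrix bound for weighted sums over sequences. -/

namespace Pool.Agent.helper11.Transfer

open Finset

/-- Splitting off the last entry of a sequence. -/
def snocE {α : Type*} (n : ℕ) : (Fin n → α) × α ≃ (Fin (n + 1) → α) where
  toFun p := Fin.snoc (α := fun _ => α) p.1 p.2
  invFun f := (Fin.init f, f (Fin.last n))
  left_inv p := by simp
  right_inv f := by simp

theorem transfer {α : Type*} [Fintype α] (w : ℕ → α → α → ℝ) (M : ℝ) (hM : 0 ≤ M)
    (hw : ∀ i x y, 0 ≤ w i x y) (h : ∀ i x, ∑ y, w i x y ≤ M) (n : ℕ) :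
    ∑ β : Fin (n + 1) → α, ∏ i : Fin n, w i (β i.castSucc) (β i.succ) ≤ Fintype.card α * M ^ n := by
  induction n with
  | zero => simp
  | succ n ih =>
    rw [← (snocE (α := α) (n + 1)).sum_comp, Fintype.sum_prod_type]
    have key : ∀ (β : Fin (n + 1) → α) (y : α),
        ∏ i : Fin (n + 1), w i ((snocE (n + 1) (β, y)) i.castSucc) ((snocE (n + 1) (β, y)) i.succ) =
          (∏ i : Fin n, w i (β i.castSucc) (β i.succ)) * w n (β (Fin.last n)) y := by
      intro β y
      rw [Fin.prod_univ_castSucc]
      congr 1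
      · refine prod_congr rfl fun i _ => ?_
        have e1 : snocE (n + 1) (β, y) (i.castSucc).castSucc = β i.castSucc := by
          simp [snocE]
        have e2 : snocE (n + 1) (β, y) (i.castSucc).succ = β i.succ := by
          exact Fin.snoc_castSucc (α := fun _ => α) y β i.succ
        rw [e1, e2]
        rfl
      · have e1 : snocE (n + 1) (β, y) (Fin.last n).castSucc = β (Fin.last n) := by
          simp [snocE]
        have e2 : snocE (n + 1) (β, y) (Fin.last n).succ = y := by
          have : (Fin.last n).succ = Fin.last (n + 1) := rfl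
          rw [this]
          simp [snocE]
        rw [e1, e2]
        rfl
    calc ∑ β : Fin (n + 1) → α, ∑ y, ∏ i : Fin (n + 1),
            w i ((snocE (n + 1) (β, y)) i.castSucc) ((snocE (n + 1) (β, y)) i.succ)
        = ∑ β : Fin (n + 1) → α, (∏ i : Fin n, w i (β i.castSucc) (β i.succ)) *
            ∑ y, w n (β (Fin.last n)) y := by
          refine sum_congr rfl fun β _ => ?_
          rw [mul_sum]
          exact sum_congr rfl fun y _ => key β y
      _ ≤ ∑ β : Fin (n + 1) → α, (∏ i : Fin n, w i (β i.castSucc) (β i.succ)) * M := by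
          refine sum_le_sum fun β _ => ?_
          exact mul_le_mul_of_nonneg_left (h _ _) (prod_nonneg fun i _ => hw _ _ _)
      _ = (∑ β : Fin (n + 1) → α, ∏ i : Fin n, w i (β i.castSucc) (β i.succ)) * M := by
          rw [sum_mul]
      _ ≤ (Fintype.card α * M ^ n) * M := mul_le_mul_of_nonneg_right ih hM
      _ = Fintype.card α * M ^ (n + 1) := by ring

/-- If at most one `y` has small exponent then the sum of the weights is close to `1`. -/
theorem row_sum {α : Type*} [Fintype α] (θ : ℝ) (hθ0 : 0 ≤ θ) (hθ1 : θ ≤ 1) (F : α → ℕ) (h : ℕ)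
    (huniq : ∀ y y', F y < h → F y' < h → y = y') :
    ∑ y, θ ^ F y ≤ 1 + Fintype.card α * θ ^ h := by
  classical
  by_cases hex : ∃ y0, F y0 < h
  · obtain ⟨y0, hy0⟩ := hex
    rw [← add_sum_erase univ _ (mem_univ y0)]
    have h1 : θ ^ F y0 ≤ 1 := pow_le_one₀ hθ0 hθ1
    have h2 : ∑ y ∈ univ.erase y0, θ ^ F y ≤ ∑ y ∈ univ.erase y0, θ ^ h := by
      refine sum_le_sum fun y hy => ?_
      have hne : y ≠ y0 := ne_of_mem_erase hy
      have : h ≤ F y := by
        by_contra hlt
        exact hne (huniq y y0 (by omega) hy0)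
      exact pow_le_pow_of_le_one hθ0 hθ1 this
    have h3 : ∑ y ∈ univ.erase y0, θ ^ h ≤ Fintype.card α * θ ^ h := by
      rw [sum_const, nsmul_eq_mul]
      refine mul_le_mul_of_nonneg_right ?_ (pow_nonneg hθ0 _)
      exact_mod_cast (card_le_univ _)
    linarith
  · push Not at hex
    have h2 : ∑ y, θ ^ F y ≤ ∑ y : α, θ ^ h :=
      sum_le_sum fun y _ => pow_le_pow_of_le_one hθ0 hθ1 (hex y)
    rw [sum_const, nsmul_eq_mul, card_univ] at h2
    linarith

end Pool.Agent.helper11.Transfer
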