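import Pool.Agent.helper11.Count
import Pool.Agent.helper11.Transfer

set_option autoImplicit false

/-! Weighted sums over labellings. -/

namespace Pool.Agent.helper11.Seq

open Finset

theorem transfer' {α : Type*} [Fintype α] (N : ℕ) (hN : 0 < N) (w : ℕ → α → α → ℝ) (M : ℝ)
    (hM : 0 ≤ M) (hw : ∀ i x y, 0 ≤ w i x y) (h : ∀ i x, ∑ y, w i x y ≤ M) :
    ∑ β : Fin N → α, ∏ i ∈ range (N - 1), w i (β ⟨i % N, Nat.mod_lt _ hN⟩)
      (β ⟨(i + 1) % N, Nat.mod_lt _ hN⟩) ≤ Fintype.card α * M ^ (N - 1) := by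
  obtain ⟨n, rfl⟩ : ∃ n, N = n + 1 := ⟨N - 1, by omega⟩
  rw [Nat.add_sub_cancel]
  refine le_trans (le_of_eq ?_) (Transfer.transfer w M hM hw h n)
  refine sum_congr rfl fun β _ => ?_
  rw [prod_range]
  refine prod_congr rfl fun i _ => ?_
  have e1 : (⟨(i : ℕ) % (n + 1), Nat.mod_lt _ hN⟩ : Fin (n + 1)) = i.castSucc := by
    apply Fin.ext
    simp only [Fin.val_castSucc]
    exact Nat.mod_eq_of_lt (by omega)
  have e2 : (⟨((i : ℕ) + 1) % (n + 1), Nat.mod_lt _ hN⟩ : Fin (n + 1)) = i.succ := by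
    apply Fin.ext
    simp only [Fin.val_succ]
    exact Nat.mod_eq_of_lt (by omega)
  rw [e1, e2]

namespace Par

variable (P : Par) {Q : ℕ}

/-- the numbering underlying a function to `Fin Q` -/
def gn (g : P.V → Fin Q) (v : P.V) : ℕ := (g v : ℕ)

/-- assembling a labelling -/
def glue (γ : Fin (2 * P.L + 3) → Fin Q) (β : Fin (4 * P.r) → Fin Q)
    (ν : Fin (2 * P.m - P.p) → Fin Q) : P.V → Fin Q := Sum.elim γ (Sum.elim β ν)

/-- column values -/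
def fz (γ : Fin (2 * P.L + 3) → Fin Q) (a : ℕ) : ℤ :=
  ((γ ⟨(a - P.m) % (2 * P.L + 3), Nat.mod_lt _ (by omega)⟩ : ℕ) : ℤ)

/-- row values -/
def xz (β : Fin (4 * P.r) → Fin Q) (j : ℕ) : ℤ :=
  ((β ⟨(j - 2) % (4 * P.r), Nat.mod_lt _ (by have := P.r_pos; omega)⟩ : ℕ) : ℤ)

lemma gn_vA (γ : Fin (2 * P.L + 3) → Fin Q) (β : Fin (4 * P.r) → Fin Q)
    (ν : Fin (2 * P.m - P.p) → Fin Q) (a : ℕ) : (P.gn (P.glue γ β ν) (P.vA a) : ℤ) = P.fz γ a := rfl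

lemma gn_vB (γ : Fin (2 * P.L + 3) → Fin Q) (β : Fin (4 * P.r) → Fin Q)
    (ν : Fin (2 * P.m - P.p) → Fin Q) (j : ℕ) : (P.gn (P.glue γ β ν) (P.vB j) : ℤ) = P.xz β j := rfl

/-- the number of failing columns of `W` in row `j` -/
noncomputable def nf (γ : Fin (2 * P.L + 3) → Fin Q) (W : Finset ℕ) (j : ℕ) (x y : ℤ) : ℕ :=
  Rigid.nfail W (P.fz γ) (fun a => P.fz γ (a + P.gap j)) x y

/-- transfer weight -/
noncomputable def Z (γ : Fin (2 * P.L + 3) → Fin Q) (W : Finset ℕ) (β : Fin (4 * P.r) → Fin Q) : ℝ :=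
  ∏ i ∈ range (4 * P.r - 1), (3 / 4 : ℝ) ^ P.nf γ W (i + 2) (P.xz β (i + 2)) (P.xz β (i + 3))

lemma Z_nonneg (γ : Fin (2 * P.L + 3) → Fin Q) (W : Finset ℕ) (β : Fin (4 * P.r) → Fin Q) :
    0 ≤ P.Z γ W β := prod_nonneg fun _ _ => by positivity

theorem sum_Z (γ : Fin (2 * P.L + 3) → Fin Q) (W : Finset ℕ) (h : ℕ)
    (hinj : Set.InjOn (P.fz γ) W) (hW : 2 * h + 1 ≤ W.card) :
    ∑ β : Fin (4 * P.r) → Fin Q, P.Z γ W β ≤ Q * (1 + Q * (3 / 4 : ℝ) ^ h) ^ (4 * P.r - 1) := by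
  have hr := P.r_pos
  have h1 := transfer' (α := Fin Q) (4 * P.r) (by omega)
    (fun i x y => (3 / 4 : ℝ) ^ P.nf γ W (i + 2) ((x : ℕ) : ℤ) ((y : ℕ) : ℤ))
    (1 + Q * (3 / 4 : ℝ) ^ h) (by positivity) (fun i x y => by positivity) (by
      intro i x
      have := Transfer.row_sum (α := Fin Q) (3 / 4 : ℝ) (by norm_num) (by norm_num)
        (fun y => P.nf γ W (i + 2) ((x : ℕ) : ℤ) ((y : ℕ) : ℤ)) h (by
          intro y y' h1 h2
          have := Rigid.nfail_uniq W (P.fz γ) (fun a => P.fz γ (a + P.gap (i + 2))) hinj h hW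
            ((x : ℕ) : ℤ) _ _ h1 h2
          apply Fin.ext
          exact_mod_cast this)
      simpa using this)
  simpa [Z, xz] using h1

open Classical in
/-- pointwise bound -/
theorem pointwise (γ : Fin (2 * P.L + 3) → Fin Q) (β : Fin (4 * P.r) → Fin Q)
    (ν : Fin (2 * P.m - P.p) → Fin Q) (W : Finset ℕ) (hW : ∀ a ∈ W, 2 * P.m + 6 ≤ a ∧ a < P.L)
    (E : ℕ → Finset ℕ)
    (hE : ∀ j, 2 ≤ j → j ≤ 4 * P.r → ∀ a ∈ E j, a ∉ W ∧ P.T1 j a ∧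
      ¬ Rigid.pass (P.fz γ a) (P.fz γ (a + P.gap j)) (P.xz β j) (P.xz β (j + 1))) (s : ℕ)
    (hs : s ≤ ∑ j ∈ Icc 2 (4 * P.r), (E j).card) :
    (3 / 4 : ℝ) ^ (P.Fail (P.gn (P.glue γ β ν))).card ≤ (3 / 4 : ℝ) ^ s * P.Z γ W β := by
  have hr := P.r_pos
  set F : ℕ → Finset ℕ := fun j => W.filter (fun a => ¬ Rigid.pass (P.fz γ a)
    (P.fz γ (a + P.gap j)) (P.xz β j) (P.xz β (j + 1))) with hF
  have h1 := P.Fail_card_ge (P.gn (P.glue γ β ν)) (Icc 2 (4 * P.r)) (fun j => F j ∪ E j) (by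
    intro j hj a ha
    rw [mem_Icc] at hj
    rw [mem_union, hF, mem_filter] at ha
    rcases ha with ha | ha
    · have := hW a ha.1
      exact P.fail_T1 ⟨hj.1, hj.2, by omega, Or.inl (by omega)⟩ ha.2
    · obtain ⟨-, h2, h3⟩ := hE j hj.1 hj.2 a ha
      exact P.fail_T1 h2 h3)
  have h2 : ∑ j ∈ Icc 2 (4 * P.r), (F j ∪ E j).card =
      ∑ j ∈ Icc 2 (4 * P.r), (F j).card + ∑ j ∈ Icc 2 (4 * P.r), (E j).card := by
    rw [← sum_add_distrib]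
    refine sum_congr rfl fun j hj => ?_
    rw [mem_Icc] at hj
    rw [card_union_of_disjoint]
    rw [disjoint_left]
    intro a ha ha'
    rw [hF, mem_filter] at ha
    exact (hE j hj.1 hj.2 a ha').1 ha.1
  have h3 : ∑ j ∈ Icc 2 (4 * P.r), (F j).card =
      ∑ i ∈ range (4 * P.r - 1), P.nf γ W (i + 2) (P.xz β (i + 2)) (P.xz β (i + 3)) := by
    rw [show Icc 2 (4 * P.r) = Ico (0 + 2) ((4 * P.r - 1) + 2) by
      ext x; rw [mem_Icc, mem_Ico]; omega, ← sum_Ico_add', ← range_eq_Ico]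
    rfl
  have h4 : P.Z γ W β = (3 / 4 : ℝ) ^ ∑ j ∈ Icc 2 (4 * P.r), (F j).card := by
    rw [h3, ← prod_pow_eq_pow_sum]
    rfl
  rw [h4, ← pow_add]
  exact pow_le_pow_of_le_one (by norm_num) (by norm_num) (by omega)

end Par

end Pool.Agent.helper11.Seq
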